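import Mathlib

/-!
# Factorisations in finite-dimensional spaces over an algebraically closed field

Let `k` be an algebraically closed field, `Ω` a field which contains `k`, and let `v`, `w` be finite
families of elements of `Ω` which are linearly independent over `k`. If `m ≠ 0` is the product of an
element of the span of `v` and an element of the span of `w` in infinitely many ways, then two of
these factorisations differ by a constant factor.
-/

set_option autoImplicit false

namespace Pool.Agent.Zk30.DL

open MvPolynomial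

section

variable {k : Type} [Field k] {σ : Type}

lemma hc_mul {p q : MvPolynomial σ k} {a : ℕ} (hq : q.IsHomogeneous a) (b : ℕ) :
    homogeneousComponent (b + a) (p * q) = homogeneousComponent b p * q := by
  classical
  conv_lhs => rw [← sum_homogeneousComponent p, Finset.sum_mul, map_sum]
  rw [Finset.sum_eq_single b]
  · have h1 : (homogeneousComponent b p * q).IsHomogeneous (b + a) :=
      (homogeneousComponent_isHomogeneous b p).mul hq
    exact homogeneousComponent_eq_self h1
  · intro c _ hc
    have h1 : (homogeneousComponent c p * q).IsHomogeneous (c + a) :=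
      (homogeneousComponent_isHomogeneous c p).mul hq
    rw [homogeneousComponent_of_mem (m := b + a) (n := c + a) h1, if_neg (by omega)]
  · intro hb
    rw [Finset.mem_range, not_lt, Nat.succ_le_iff] at hb
    rw [homogeneousComponent_eq_zero b p hb, zero_mul, map_zero]

end

theorem alg1 {k Ω : Type} [Field k] [IsAlgClosed k] [Field Ω] [Algebra k Ω] {d e : ℕ}
    (v : Fin d → Ω) (w : Fin e → Ω) (hv : LinearIndependent k v) (hw : LinearIndependent k w)
    (m : Ω) (x : ℕ → Fin d → k) (y : ℕ → Fin e → k)
    (h : ∀ s, (∑ i, x s i • v i) * (∑ j, y s j • w j) = m) :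
    ∃ s t, s ≠ t ∧ ∀ i j, x s i * y s j = x t i * y t j := by
  classical
  let U : Submodule k Ω := Submodule.span k (Set.range fun p : Fin d × Fin e => v p.1 * w p.2)
  have hU : ∀ p : Fin d × Fin e, v p.1 * w p.2 ∈ U := fun p => Submodule.subset_span ⟨p, rfl⟩
  have : FiniteDimensional k U := FiniteDimensional.span_of_finite k (Set.finite_range _)
  let β := Module.finBasis k U
  let γ : Fin (Module.finrank k U) → Fin d × Fin e → k := fun l p => β.repr ⟨_, hU p⟩ l
  -- the linear forms and the minors
  let Bp : Fin (Module.finrank k U) → MvPolynomial (Fin d × Fin e) k :=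
    fun l => ∑ p, C (γ l p) * X p
  let Mn : (Fin d × Fin e) × (Fin d × Fin e) → MvPolynomial (Fin d × Fin e) k :=
    fun q => X q.1 * X q.2 - X (q.1.1, q.2.2) * X (q.2.1, q.1.2)
  have hBh : ∀ l, (Bp l).IsHomogeneous 1 := fun l =>
    IsHomogeneous.sum _ _ _ fun p _ => isHomogeneous_C_mul_X _ _
  have hMh : ∀ q, (Mn q).IsHomogeneous 2 := fun q =>
    ((isHomogeneous_X k _).mul (isHomogeneous_X k _)).sub
      ((isHomogeneous_X k _).mul (isHomogeneous_X k _))
  have hexp : ∀ z : Fin d × Fin e → k, ∀ l,
      β.repr ⟨∑ p, z p • (v p.1 * w p.2), Submodule.sum_mem _ fun p _ => U.smul_mem _ (hU p)⟩ l =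
        ∑ p, γ l p * z p := by
    intro z l
    have h1 : (⟨∑ p, z p • (v p.1 * w p.2), Submodule.sum_mem _ fun p _ =>
        U.smul_mem _ (hU p)⟩ : U) = ∑ p, z p • (⟨_, hU p⟩ : U) := by
      apply Subtype.ext
      simp
    rw [h1, map_sum, Finsupp.finsetSum_apply]
    refine Finset.sum_congr rfl fun p _ => ?_
    rw [map_smul, Finsupp.smul_apply, smul_eq_mul, mul_comm]
  let J : Ideal (MvPolynomial (Fin d × Fin e) k) := Ideal.span (Set.range Bp ∪ Set.range Mn)
  have hzero : ∀ z ∈ zeroLocus k J, z = 0 := by
    intro z hz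
    by_contra hz0
    obtain ⟨⟨a, b⟩, hab⟩ := Function.ne_iff.1 hz0
    rw [Pi.zero_apply] at hab
    have hB : ∀ l, ∑ p, γ l p * z p = 0 := by
      intro l
      have h1 := (mem_zeroLocus_iff).1 hz (Bp l) (Ideal.subset_span (Or.inl ⟨l, rfl⟩))
      simpa [Bp] using h1
    have hM : ∀ i j, z (i, j) * z (a, b) = z (i, b) * z (a, j) := by
      intro i j
      have h1 := (mem_zeroLocus_iff).1 hz (Mn ((i, j), (a, b))) (Ideal.subset_span (Or.inr ⟨_, rfl⟩))
      simp only [Mn, map_sub, map_mul, aeval_X] at h1
      exact sub_eq_zero.1 h1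
    have h2 : ∑ p : Fin d × Fin e, z p • (v p.1 * w p.2) = 0 := by
      have h3 : (⟨∑ p, z p • (v p.1 * w p.2), Submodule.sum_mem _ fun p _ =>
          U.smul_mem _ (hU p)⟩ : U) = 0 := by
        apply β.repr.injective
        ext l
        rw [hexp, hB, map_zero, Finsupp.zero_apply]
      exact congrArg Subtype.val h3
    have h4 : (∑ i, z (i, b) • v i) * (∑ j, z (a, j) • w j) = 0 := by
      have h5 : (∑ i, z (i, b) • v i) * (∑ j, z (a, j) • w j) =
          z (a, b) • ∑ p : Fin d × Fin e, z p • (v p.1 * w p.2) := by
        rw [Finset.sum_mul_sum, ← Finset.univ_product_univ, Finset.sum_product, Finset.smul_sum]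
        refine Finset.sum_congr rfl fun i _ => ?_
        rw [Finset.smul_sum]
        refine Finset.sum_congr rfl fun j _ => ?_
        rw [smul_mul_smul_comm, smul_smul, ← hM, mul_comm (z (i, j))]
      rw [h5, h2, smul_zero]
    rcases mul_eq_zero.1 h4 with h5 | h5
    · exact hab (Fintype.linearIndependent_iff.1 hv _ h5 a)
    · exact hab (Fintype.linearIndependent_iff.1 hw _ h5 b)
  have hpow : ∀ p : Fin d × Fin e, ∃ n, (X p : MvPolynomial (Fin d × Fin e) k) ^ n ∈ J := by
    intro p
    have h1 : (X p : MvPolynomial (Fin d × Fin e) k) ∈ J.radical := by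
      rw [← vanishingIdeal_zeroLocus_eq_radical (K := k), mem_vanishingIdeal_iff]
      intro z hz
      rw [hzero z hz]
      simp
    exact h1
  choose nn hnn using hpow
  set N : ℕ := ∑ p, nn p + 2 with hN
  have hpN : ∀ p : Fin d × Fin e, (X p : MvPolynomial (Fin d × Fin e) k) ^ N ∈ J := by
    intro p
    have h1 : nn p ≤ N := (Finset.single_le_sum (fun _ _ => Nat.zero_le _) (Finset.mem_univ p)).trans
      (by omega)
    obtain ⟨c, hc⟩ := Nat.exists_eq_add_of_le h1
    rw [hc, pow_add]
    exact J.mul_mem_right _ (hnn p)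
  -- evaluation
  let ev : MvPolynomial (Fin d × Fin e) k →ₐ[k] (ℕ → k) :=
    aeval (fun p : Fin d × Fin e => fun s : ℕ => x s p.1 * y s p.2)
  have hm : m ∈ U := by
    rw [← h 0, Finset.sum_mul_sum]
    refine Submodule.sum_mem _ fun i _ => Submodule.sum_mem _ fun j _ => ?_
    rw [smul_mul_smul_comm]
    exact U.smul_mem _ (hU (i, j))
  have hevB : ∀ l, ev (Bp l) = fun _ => β.repr ⟨m, hm⟩ l := by
    intro l
    funext s
    have h1 : ev (Bp l) s = ∑ p : Fin d × Fin e, γ l p * (x s p.1 * y s p.2) := by
      simp only [ev, Bp, map_sum, map_mul, aeval_X, Finset.sum_apply, Pi.mul_apply]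
      refine Finset.sum_congr rfl fun p _ => ?_
      simp
    rw [h1, ← hexp (fun p => x s p.1 * y s p.2) l]
    congr 3
    rw [← h s, Finset.sum_mul_sum, ← Finset.univ_product_univ, Finset.sum_product]
    refine Finset.sum_congr rfl fun i _ => Finset.sum_congr rfl fun j _ => ?_
    rw [smul_mul_smul_comm]
  have hevM : ∀ q, ev (Mn q) = 0 := by
    intro q
    funext s
    simp only [ev, Mn, map_sub, map_mul, aeval_X, Pi.sub_apply, Pi.mul_apply, Pi.zero_apply]
    ring
  -- reduction of degrees
  have hred : ∀ g ∈ J, ∃ g' : MvPolynomial (Fin d × Fin e) k, g'.totalDegree < N ∧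
      ev (homogeneousComponent N g) = ev g' := by
    intro g hg
    have hN1 : N = (N - 1) + 1 := by omega
    have hN2 : N = (N - 2) + 2 := by omega
    have hall : ∀ a : MvPolynomial (Fin d × Fin e) k, ∃ g' : MvPolynomial (Fin d × Fin e) k,
        g'.totalDegree < N ∧ ev (homogeneousComponent N (a * g)) = ev g' := by
      refine Submodule.span_induction (p := fun g _ => ∀ a : MvPolynomial (Fin d × Fin e) k,
        ∃ g' : MvPolynomial (Fin d × Fin e) k, g'.totalDegree < N ∧
          ev (homogeneousComponent N (a * g)) = ev g') ?_ ?_ ?_ ?_ hg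
      · rintro g (⟨l, rfl⟩ | ⟨q, rfl⟩) a
        · refine ⟨C (β.repr ⟨m, hm⟩ l) * homogeneousComponent (N - 1) a, ?_, ?_⟩
          · have h1 : (C (β.repr ⟨m, hm⟩ l) * homogeneousComponent (N - 1) a).IsHomogeneous
                (N - 1) := (homogeneousComponent_isHomogeneous _ _).C_mul _
            exact h1.totalDegree_le.trans_lt (by omega)
          · rw [hN1, hc_mul (hBh l), map_mul, map_mul, hevB]
            have h2 : ev (C (β.repr ⟨m, hm⟩ l)) = fun _ => β.repr ⟨m, hm⟩ l := by
              simp only [ev, algHom_C]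
              rfl
            rw [h2, mul_comm]
            rfl
        · refine ⟨0, ?_, ?_⟩
          · rw [totalDegree_zero]; omega
          · rw [hN2, hc_mul (hMh q), map_mul, hevM, mul_zero, map_zero]
      · intro a
        exact ⟨0, by rw [totalDegree_zero]; omega, by simp⟩
      · intro g1 g2 _ _ h1 h2 a
        obtain ⟨u1, h3, h4⟩ := h1 a
        obtain ⟨u2, h5, h6⟩ := h2 a
        exact ⟨u1 + u2, (totalDegree_add _ _).trans_lt (max_lt h3 h5), by
          rw [mul_add, map_add, map_add, map_add, h4, h6]⟩
      · intro b g1 _ h1 a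
        obtain ⟨u1, h3, h4⟩ := h1 (a * b)
        exact ⟨u1, h3, by rw [smul_eq_mul, ← mul_assoc, h4]⟩
    simpa using hall 1
  -- the image is finite-dimensional
  set n0 : ℕ := Fintype.card (Fin d × Fin e) * N with hn0
  let W : Submodule k (ℕ → k) := (restrictTotalDegree (Fin d × Fin e) k n0).map ev.toLinearMap
  have hmem : ∀ n, ∀ g : MvPolynomial (Fin d × Fin e) k, g.totalDegree ≤ n → ev g ∈ W := by
    intro n
    induction n with
    | zero =>
      intro g hg
      exact Submodule.mem_map_of_mem ((mem_restrictTotalDegree _ _ _).2 (hg.trans (Nat.zero_le _)))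
    | succ n ih =>
      intro g hg
      by_cases hn : n + 1 ≤ n0
      · exact Submodule.mem_map_of_mem ((mem_restrictTotalDegree _ _ _).2 (hg.trans hn))
      push Not at hn
      rw [g.as_sum, map_sum]
      refine Submodule.sum_mem _ fun α hα => ?_
      have hdeg : α.degree ≤ n + 1 := (le_totalDegree hα).trans hg
      by_cases hsm : α.degree ≤ n
      · refine ih _ ?_
        refine (totalDegree_monomial_le _ _).trans ?_
        exact hsm
      have hlarge : ∃ p, N ≤ α p := by
        by_contra hcon
        push Not at hcon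
        have h1 : α.degree ≤ n0 := by
          rw [Finsupp.degree_eq_sum]
          calc ∑ p, α p ≤ ∑ _p : Fin d × Fin e, N := Finset.sum_le_sum fun p _ => (hcon p).le
            _ = n0 := by rw [Finset.sum_const, Finset.card_univ, smul_eq_mul]
        omega
      obtain ⟨p, hp⟩ := hlarge
      obtain ⟨g', h1, h2⟩ := hred _ (hpN p)
      rw [homogeneousComponent_eq_self (isHomogeneous_X_pow p N)] at h2
      have hsplit : (monomial α) (coeff α g) =
          X p ^ N * (monomial (α - Finsupp.single p N)) (coeff α g) := by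
        rw [X_pow_eq_monomial, monomial_mul, one_mul]
        congr 1
        rw [add_tsub_cancel_of_le]
        exact Finsupp.single_le_iff.2 hp
      rw [hsplit, map_mul, h2, ← map_mul]
      refine ih _ ?_
      refine (totalDegree_mul _ _).trans ?_
      have h3 : ((monomial (α - Finsupp.single p N)) (coeff α g)).totalDegree ≤ n + 1 - N := by
        refine (totalDegree_monomial_le _ _).trans ?_
        have h4 : (α - Finsupp.single p N).degree + N = α.degree := by
          have h5 : α - Finsupp.single p N + Finsupp.single p N = α :=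
            tsub_add_cancel_of_le (Finsupp.single_le_iff.2 hp)
          have h6 := congrArg Finsupp.degree h5
          rw [map_add, Finsupp.degree_single] at h6
          exact h6
        have h7 : (α - Finsupp.single p N).degree ≤ n + 1 - N := by omega
        exact h7
      have h8 : N ≤ n + 1 := by
        have h9 : α p ≤ α.degree := Finsupp.le_degree p α
        omega
      omega
  have hfin : FiniteDimensional k ev.range := by
    have h1 : (Subalgebra.toSubmodule ev.range) ≤ W := by
      rintro f ⟨g, rfl⟩
      exact hmem _ g le_rfl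
    exact Submodule.finiteDimensional_of_le h1
  have hroots : ∀ p : Fin d × Fin e, ∃ F : Finset k, ∀ s, x s p.1 * y s p.2 ∈ F := by
    intro p
    let f : ev.range := ⟨ev (X p), ⟨X p, rfl⟩⟩
    obtain ⟨P, hP1, hP2⟩ := Algebra.IsIntegral.isIntegral (R := k) f
    refine ⟨P.roots.toFinset, fun s => ?_⟩
    rw [Multiset.mem_toFinset, Polynomial.mem_roots hP1.ne_zero, Polynomial.IsRoot.def]
    have h1 : Polynomial.aeval f P = 0 := hP2
    have h2 : Polynomial.aeval (ev (X p)) P = 0 := by
      have := congrArg (fun z : ev.range => (z : ℕ → k)) h1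
      simpa [f, Polynomial.aeval_subalgebra_coe] using this
    have h3 := congrFun h2 s
    rw [Polynomial.aeval_fn_apply] at h3
    simpa [ev] using h3
  choose F hF using hroots
  -- pigeonhole
  obtain ⟨s, t, hst, heq⟩ := Finite.exists_ne_map_eq_of_infinite
    (fun s : ℕ => fun p : Fin d × Fin e => (⟨x s p.1 * y s p.2, hF p s⟩ : F p))
  refine ⟨s, t, hst, fun i j => ?_⟩
  exact congrArg Subtype.val (congrFun heq (i, j))

end Pool.Agent.Zk30.DL
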