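import Mathlib
import Pool.Agent.Zk30.DL.Alg

/-!
# Factorisations in finite-dimensional spaces over a relatively algebraically closed subfield
-/

set_option autoImplicit false

namespace Pool.Agent.Zk30.DL

theorem alg2 {G : Type} [Field G] (K : Subfield G) (hK : ∀ g : G, IsAlgebraic K g → g ∈ K)
    {d e : ℕ} (b : Fin d → G) (b' : Fin e → G) (m : G) (hm : m ≠ 0) (x : ℕ → Fin d → K)
    (y : ℕ → Fin e → K)
    (h : ∀ s, (∑ i, (x s i : G) * b i) * (∑ j, (y s j : G) * b' j) = m) :
    ∃ s t, s ≠ t ∧ (∑ i, (x s i : G) * b i) / (∑ i, (x t i : G) * b i) ∈ K := by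
  classical
  let Ω := AlgebraicClosure G
  let k := algebraicClosure K Ω
  let φ : G →+* Ω := algebraMap G Ω
  have hφ : Function.Injective φ := (algebraMap G Ω).injective
  have hxk : ∀ c : K, φ (c : G) ∈ k := by
    intro c
    rw [mem_algebraicClosure_iff]
    have h1 : φ (c : G) = algebraMap K Ω c := by
      rw [IsScalarTower.algebraMap_apply K G Ω]
      rfl
    rw [h1]
    exact isAlgebraic_algebraMap c
  let V : Submodule k Ω := Submodule.span k (Set.range fun i => φ (b i))
  let V' : Submodule k Ω := Submodule.span k (Set.range fun i => φ (b' i))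
  have : FiniteDimensional k V := FiniteDimensional.span_of_finite k (Set.finite_range _)
  have : FiniteDimensional k V' := FiniteDimensional.span_of_finite k (Set.finite_range _)
  let β := Module.finBasis k V
  let β' := Module.finBasis k V'
  have hX : ∀ s, φ (∑ i, (x s i : G) * b i) ∈ V := by
    intro s
    rw [map_sum]
    refine Submodule.sum_mem _ fun i _ => ?_
    rw [map_mul]
    have h1 : φ (x s i : G) * φ (b i) = (⟨_, hxk (x s i)⟩ : k) • φ (b i) := rfl
    rw [h1]
    exact V.smul_mem _ (Submodule.subset_span ⟨i, rfl⟩)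
  have hY : ∀ s, φ (∑ i, (y s i : G) * b' i) ∈ V' := by
    intro s
    rw [map_sum]
    refine Submodule.sum_mem _ fun i _ => ?_
    rw [map_mul]
    have h1 : φ (y s i : G) * φ (b' i) = (⟨_, hxk (y s i)⟩ : k) • φ (b' i) := rfl
    rw [h1]
    exact V'.smul_mem _ (Submodule.subset_span ⟨i, rfl⟩)
  have eX : ∀ s, ∑ i, β.repr ⟨_, hX s⟩ i • (β i : Ω) = φ (∑ i, (x s i : G) * b i) := by
    intro s
    have h1 := congrArg V.subtype (β.sum_repr ⟨_, hX s⟩)
    rw [map_sum] at h1
    exact h1
  have eY : ∀ s, ∑ i, β'.repr ⟨_, hY s⟩ i • (β' i : Ω) = φ (∑ i, (y s i : G) * b' i) := by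
    intro s
    have h1 := congrArg V'.subtype (β'.sum_repr ⟨_, hY s⟩)
    rw [map_sum] at h1
    exact h1
  have hli : LinearIndependent k fun i => (β i : Ω) :=
    β.linearIndependent.map' V.subtype (Submodule.ker_subtype V)
  have hli' : LinearIndependent k fun i => (β' i : Ω) :=
    β'.linearIndependent.map' V'.subtype (Submodule.ker_subtype V')
  have hac : IsAlgClosed k := (algebraicClosure.isAlgClosure K Ω).isAlgClosed
  obtain ⟨s, t, hst, heq⟩ := alg1 (k := k) (fun i => (β i : Ω)) (fun i => (β' i : Ω)) hli hli'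
    (φ m) (fun s => β.repr ⟨_, hX s⟩) (fun s => β'.repr ⟨_, hY s⟩) (by
      intro s
      rw [eX, eY, ← map_mul, h s])
  refine ⟨s, t, hst, hK _ ?_⟩
  have hne : ∀ s, (∑ i, (x s i : G) * b i) ≠ 0 ∧ (∑ i, (y s i : G) * b' i) ≠ 0 := by
    intro s
    have h1 : (∑ i, (x s i : G) * b i) * (∑ i, (y s i : G) * b' i) ≠ 0 := by rw [h s]; exact hm
    exact ⟨left_ne_zero_of_mul h1, right_ne_zero_of_mul h1⟩
  obtain ⟨j, hj⟩ : ∃ j, β'.repr ⟨_, hY s⟩ j ≠ 0 := by
    by_contra hcon
    push Not at hcon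
    have h1 := eY s
    simp only [hcon, zero_smul, Finset.sum_const_zero] at h1
    exact (hne s).2 (hφ (by rw [map_zero]; exact h1.symm))
  set c : k := β'.repr ⟨_, hY t⟩ j / β'.repr ⟨_, hY s⟩ j with hc
  have h1 : φ (∑ i, (x s i : G) * b i) = (c : Ω) * φ (∑ i, (x t i : G) * b i) := by
    rw [← eX s, ← eX t, Finset.mul_sum]
    refine Finset.sum_congr rfl fun i _ => ?_
    have h2 : β.repr ⟨_, hX s⟩ i = c * β.repr ⟨_, hX t⟩ i := by
      rw [hc]
      field_simp
      rw [heq i j]
      ring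
    rw [h2]
    change _ = (c : Ω) * _
    rw [mul_smul]
    rfl
  have h3 : φ ((∑ i, (x s i : G) * b i) / (∑ i, (x t i : G) * b i)) = (c : Ω) := by
    rw [map_div₀, h1, mul_div_assoc, div_self, mul_one]
    intro h4
    exact (hne t).1 (hφ (by rw [h4, map_zero]))
  have h4 : IsAlgebraic K (c : Ω) := (mem_algebraicClosure_iff).1 c.2
  rw [← h3] at h4
  exact (isAlgebraic_algebraMap_iff hφ).1 h4

end Pool.Agent.Zk30.DL
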