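import Mathlib
import Pool.Agent.Zk30.DL.Alg2
import Pool.Agent.TH551.SU.Stms

/-!
# The field of the germs of negligible height is relatively algebraically closed
-/

set_option autoImplicit false

namespace Pool.Agent.Zk30.DL

open Filter Polynomial Pool.Agent.TH932.Germs Pool.Agent.TH551.SU

variable {L : ℕ → ℝ}

lemma negl_prod {ι : Type} (s : Finset ι) (m : ι → ℕ → ℤ) (hL : Tendsto L atTop atTop)
    (h : ∀ i ∈ s, Negl L (m i)) : Negl L (fun n => ∏ i ∈ s, m i n) := by
  classical
  induction s using Finset.induction_on with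
  | empty => simpa using Negl.one hL
  | insert i s hi ih =>
    have h1 := (h i (Finset.mem_insert_self _ _)).mul
      (ih fun j hj => h j (Finset.mem_insert_of_mem hj))
    refine (by
      have e : (fun n => ∏ j ∈ insert i s, m j n) = fun n => m i n * ∏ j ∈ s, m j n := by
        funext n
        rw [Finset.prod_insert hi]
      rw [e]
      exact h1)

lemma root_bounds (Q : ℤ[X]) (r : ℚ) (h : aeval r Q = 0) :
    r.num ∣ Q.coeff 0 ∧ (r.den : ℤ) ∣ Q.leadingCoeff := by
  obtain ⟨h1, h2⟩ := Rat.associated_num_den r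
  exact ⟨h1.symm.dvd.trans (num_dvd_of_is_root h), h2.symm.dvd.trans (den_dvd_of_is_root h)⟩

theorem kk_closed (hL : Tendsto L atTop atTop) (g : GG) (hg : IsAlgebraic (KK L hL) g) :
    g ∈ KK L hL := by
  classical
  by_cases h0 : g = 0
  · rw [h0]; exact (KK L hL).zero_mem
  have hint : IsIntegral (KK L hL) g := hg.isIntegral
  obtain ⟨a, rfl⟩ := gm_surj g
  set P := minpoly (KK L hL) (gm a) with hP
  set D := P.natDegree with hD
  choose m d hm hd hd0 hc using fun i => (P.coeff i).2
  let Q : ℕ → ℤ[X] := fun n => ∑ i ∈ Finset.range (D + 1),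
    C (m i n * ∏ j ∈ (Finset.range (D + 1)).erase i, d j n) * X ^ i
  have hcoef : ∀ n, ∀ i ∈ Finset.range (D + 1), (Q n).coeff i =
      m i n * ∏ j ∈ (Finset.range (D + 1)).erase i, d j n := by
    intro n i hi
    simp only [Q, finsetSum_coeff, coeff_C_mul, coeff_X_pow]
    rw [Finset.sum_eq_single i]
    · simp
    · intro j _ hj
      rw [if_neg (Ne.symm hj), mul_zero]
    · intro h; exact absurd hi h
  have hdall : ∀ᶠ n in (UU : Filter ℕ), ∀ i ∈ Finset.range (D + 1), d i n ≠ 0 := by
    rw [Filter.eventually_all_finset]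
    intro i _
    exact hd0 i
  have hsum : ∀ᶠ n in (UU : Filter ℕ),
      ∑ i ∈ Finset.range (D + 1), ((m i n : ℚ) / d i n) * (a n) ^ i = 0 := by
    have h1 : aeval (gm a) P = 0 := minpoly.aeval _ _
    rw [aeval_eq_sum_range] at h1
    have h2 : ∀ i, P.coeff i • (gm a) ^ i = gm (fun n => ((m i n : ℚ) / d i n) * (a n) ^ i) := by
      intro i
      change (P.coeff i : GG) * (gm a) ^ i = _
      rw [hc i, gm_pow, gm_mul]
    simp only [h2] at h1
    have h3 : ∑ i ∈ Finset.range (D + 1), gm (fun n => ((m i n : ℚ) / d i n) * (a n) ^ i) =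
        gm (fun n => ∑ i ∈ Finset.range (D + 1), ((m i n : ℚ) / d i n) * (a n) ^ i) := by
      generalize Finset.range (D + 1) = s
      induction s using Finset.induction_on with
      | empty => simp [gm_zero]
      | insert i s hi ih =>
        rw [Finset.sum_insert hi, ih, gm_add]
        congr 1
        funext n
        rw [Finset.sum_insert hi]
    rw [h3, ← gm_zero, gm_eq] at h1
    exact h1
  have hroot : ∀ᶠ n in (UU : Filter ℕ), aeval (a n) (Q n) = 0 := by
    filter_upwards [hdall, hsum] with n h1 h2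
    have h3 : aeval (a n) (Q n) = (∏ j ∈ Finset.range (D + 1), (d j n : ℚ)) *
        ∑ i ∈ Finset.range (D + 1), ((m i n : ℚ) / d i n) * (a n) ^ i := by
      simp only [Q, map_sum, map_mul, map_pow, aeval_X, aeval_C, Finset.mul_sum]
      refine Finset.sum_congr rfl fun i hi => ?_
      rw [← Finset.mul_prod_erase _ _ hi]
      have h4 : (d i n : ℚ) ≠ 0 := by exact_mod_cast h1 i hi
      simp only [eq_intCast]
      push_cast
      field_simp
    rw [h3, h2, mul_zero]
  have hlast : ∀ᶠ n in (UU : Filter ℕ), m D n ≠ 0 := by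
    have h1 : P.coeff D = 1 := (minpoly.monic hint).coeff_natDegree
    have h2 := hc D
    rw [h1] at h2
    have h3 : gm (fun n => (m D n : ℚ) / d D n) ≠ 0 := by
      rw [← h2]
      exact one_ne_zero
    filter_upwards [gm_ne_zero.1 h3] with n h4 h5
    apply h4
    rw [h5]; simp
  have hfirst : ∀ᶠ n in (UU : Filter ℕ), m 0 n ≠ 0 := by
    have h1 : P.coeff 0 ≠ 0 := minpoly.coeff_zero_ne_zero hint h0
    have h3 : gm (fun n => (m 0 n : ℚ) / d 0 n) ≠ 0 := by
      rw [← hc 0]
      intro h
      exact h1 (Subtype.ext h)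
    filter_upwards [gm_ne_zero.1 h3] with n h4 h5
    apply h4
    rw [h5]; simp
  have hnegl : ∀ i ∈ Finset.range (D + 1), Negl L
      (fun n => m i n * ∏ j ∈ (Finset.range (D + 1)).erase i, d j n) := fun i _ =>
    (hm i).mul (negl_prod _ _ hL fun j _ => hd j)
  have h0r : 0 ∈ Finset.range (D + 1) := Finset.mem_range.2 (by omega)
  have hDr : D ∈ Finset.range (D + 1) := Finset.mem_range.2 (by omega)
  have hlead : ∀ᶠ n in (UU : Filter ℕ), (Q n).leadingCoeff = (Q n).coeff D ∧ (Q n).coeff D ≠ 0 := by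
    filter_upwards [hdall, hlast] with n h1 h2
    have h3 : (Q n).coeff D ≠ 0 := by
      rw [hcoef n D hDr]
      exact mul_ne_zero h2 (Finset.prod_ne_zero_iff.2 fun j hj => h1 j (Finset.mem_of_mem_erase hj))
    have h4 : (Q n).natDegree ≤ D := by
      refine natDegree_sum_le_of_forall_le _ _ fun i hi => ?_
      refine (natDegree_C_mul_X_pow_le _ _).trans ?_
      have := Finset.mem_range.1 hi
      omega
    have h5 : (Q n).natDegree = D := le_antisymm h4 (le_natDegree_of_ne_zero h3)
    exact ⟨by rw [leadingCoeff, h5], h3⟩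
  rw [mem_KK_iff hL]
  constructor
  · intro ε hε
    filter_upwards [hnegl 0 h0r ε hε, hroot, hfirst, hdall] with n h1 h2 h3 h4
    refine le_trans ?_ h1
    rw [← hcoef n 0 h0r]
    refine abs_le_of_dvd (root_bounds _ _ h2).1 ?_
    rw [hcoef n 0 h0r]
    exact mul_ne_zero h3 (Finset.prod_ne_zero_iff.2 fun j hj => h4 j (Finset.mem_of_mem_erase hj))
  · intro ε hε
    filter_upwards [hnegl D hDr ε hε, hroot, hlead] with n h1 h2 h3
    refine le_trans ?_ h1
    rw [← hcoef n D hDr]
    have h4 := (root_bounds _ _ h2).2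
    rw [h3.1] at h4
    exact abs_le_of_dvd h4 h3.2

end Pool.Agent.Zk30.DL
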