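import Mathlib
import Pool.Agent.Zk30.DL.Closed
import Pool.Agent.Zk30.FU.Arb

/-!
# Product sets of subsets of finite-dimensional spaces over the numbers of small height
-/

set_option autoImplicit false

namespace Pool.Agent.Zk30.DL

open Filter Topology Pool.Agent.TH932.Germs Pool.Agent.TH551.SU Pool.Agent.TH539.MQ Pool.Agent.Zk30.FU
open scoped Pointwise

/-- `x` is a linear combination of the numbers `b i` with coefficients of height at most `h` -/
def Sp (h : ℕ) {d : ℕ} (b : Fin d → ℚ) (x : ℚ) : Prop :=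
  ∃ c : Fin d → ℚ, (∀ i, c i ∈ box h) ∧ x = ∑ i, c i * b i

lemma Sp.mono {h h' : ℕ} {d : ℕ} {b : Fin d → ℚ} {x : ℚ} (hx : Sp h b x) (hh : h ≤ h') :
    Sp h' b x := by
  obtain ⟨c, h1, h2⟩ := hx
  exact ⟨c, fun i => box_mono hh (h1 i), h2⟩

lemma Sp.mul {h h' : ℕ} {d e : ℕ} {b : Fin d → ℚ} {b' : Fin e → ℚ} {x y : ℚ} (hx : Sp h b x)
    (hy : Sp h' b' y) : Sp (h * h')
      (fun i : Fin (d * e) => b (finProdFinEquiv.symm i).1 * b' (finProdFinEquiv.symm i).2)
      (x * y) := by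
  obtain ⟨c, h1, rfl⟩ := hx
  obtain ⟨c', h1', rfl⟩ := hy
  let E : Fin (d * e) ≃ Fin d × Fin e := finProdFinEquiv.symm
  refine ⟨fun i => c (E i).1 * c' (E i).2, fun i => box_mul (h1 _) (h1' _), ?_⟩
  rw [Finset.sum_mul_sum, ← Finset.sum_product', Finset.univ_product_univ, ← Equiv.sum_comp E]
  refine Finset.sum_congr rfl fun i _ => ?_
  ring

lemma pow_Sp (h : ℕ) (hh : 1 ≤ h) {d : ℕ} (b : Fin d → ℚ) (B : Finset ℚ)
    (hB : ∀ x ∈ B, Sp h b x ∧ x ≠ 0) (j : ℕ) :
    ∃ b' : Fin (d ^ j) → ℚ, ∀ y ∈ B ^ j, Sp (h ^ j) b' y ∧ y ≠ 0 := by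
  induction j with
  | zero =>
    refine ⟨fun _ => 1, fun y hy => ?_⟩
    rw [pow_zero, Finset.mem_one] at hy
    rw [hy]
    refine ⟨⟨fun _ => 1, fun _ => mem_box (by simp) (by simp), by simp⟩, one_ne_zero⟩
  | succ j ih =>
    obtain ⟨b', ih⟩ := ih
    refine ⟨fun i : Fin (d ^ j * d) => b' (finProdFinEquiv.symm i).1 * b (finProdFinEquiv.symm i).2,
      fun y hy => ?_⟩
    rw [pow_succ, Finset.mem_mul] at hy
    obtain ⟨a, ha, c, hc, rfl⟩ := hy
    exact ⟨(ih a ha).1.mul (hB c hc).1, mul_ne_zero (ih a ha).2 (hB c hc).2⟩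

/-- **Factorisations in finite-dimensional spaces.** -/
theorem mfacV (d e : ℕ) :
    ∃ N : ℕ, ∀ h : ℕ, 1 ≤ h → ∀ (b : Fin d → ℚ) (b' : Fin e → ℚ), ∀ m : ℚ, m ≠ 0 →
      ∀ x y : Fin (N + 1) → ℚ, (∀ s, Sp h b (x s)) → (∀ s, Sp h b' (y s)) →
      (∀ s, x s * y s = m) → ∃ s t, s ≠ t ∧ x s / x t ∈ box (N * h ^ N) := by
  classical
  by_contra hcon
  push Not at hcon
  choose h hh b b' m hm0 x y hx hy hxy hbad using fun n : ℕ => hcon (n + 1)
  choose c hc hxc using hx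
  choose c' hc' hyc using hy
  let ix : ∀ n : ℕ, ℕ → Fin (n + 1 + 1) := fun n s => ⟨min s (n + 1), by omega⟩
  set K := KK (LL h) (LL_tendsto h hh) with hK
  have hcK : ∀ s i, gm (fun n => c n (ix n s) i) ∈ K := fun s i =>
    box_KK h hh _ (Eventually.of_forall fun n => hc n (ix n s) i)
  have hcK' : ∀ s i, gm (fun n => c' n (ix n s) i) ∈ K := fun s i =>
    box_KK h hh _ (Eventually.of_forall fun n => hc' n (ix n s) i)
  have hX : ∀ s, ∑ i, gm (fun n => c n (ix n s) i) * gm (fun n => b n i) =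
      gm (fun n => x n (ix n s)) := by
    intro s
    simp only [gm_mul]
    rw [sum_gm, gm_eq]
    exact Eventually.of_forall fun n => (hxc n (ix n s)).symm
  have hY : ∀ s, ∑ i, gm (fun n => c' n (ix n s) i) * gm (fun n => b' n i) =
      gm (fun n => y n (ix n s)) := by
    intro s
    simp only [gm_mul]
    rw [sum_gm, gm_eq]
    exact Eventually.of_forall fun n => (hyc n (ix n s)).symm
  obtain ⟨s, t, hst, hK2⟩ := alg2 K (fun g hg => kk_closed (LL_tendsto h hh) g hg)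
    (fun i => gm (fun n => b n i)) (fun i => gm (fun n => b' n i)) (gm m) (by
      rw [gm_ne_zero]
      exact Eventually.of_forall hm0)
    (fun s i => ⟨gm (fun n => c n (ix n s) i), hcK s i⟩)
    (fun s i => ⟨gm (fun n => c' n (ix n s) i), hcK' s i⟩) (by
      intro s
      simp only
      rw [hX s, hY s, gm_mul]
      congr 1
      funext n
      exact hxy n (ix n s))
  simp only at hK2
  rw [hX s, hX t, gm_div] at hK2
  obtain ⟨n, h1, h2⟩ := ((KK_box h hh _ hK2).and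
    (ev_of_atTop (eventually_ge_atTop (max s t)))).exists
  refine hbad n (ix n s) (ix n t) ?_ h1
  intro h3
  apply hst
  have h4 := congrArg Fin.val h3
  simp only [ix] at h4
  have h5 : s ≤ n := (le_max_left s t).trans h2
  have h6 : t ≤ n := (le_max_right s t).trans h2
  omega

/-- **Product sets of subsets of finite-dimensional spaces.** -/
theorem prodV (d e : ℕ) (ε : ℝ) (hε : 0 < ε) :
    ∃ K : ℝ, 0 < K ∧ ∀ h : ℕ, 1 ≤ h → ∀ (b : Fin d → ℚ) (b' : Fin e → ℚ), ∀ B C : Finset ℚ,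
      (∀ x ∈ B, Sp h b x ∧ x ≠ 0) → (∀ y ∈ C, Sp h b' y ∧ y ≠ 0) →
      (B.card : ℝ) * C.card ≤ K * ((h : ℝ) * B.card * C.card) ^ ε * (B * C).card := by
  classical
  obtain ⟨N, hN⟩ := mfacV d e
  set ε' : ℝ := ε / (2 * N + 3) with hε'
  have hε'0 : 0 < ε' := by positivity
  obtain ⟨K1, hK1, hrr⟩ := rr_bound ε' hε'0
  set M : ℝ := (((N + 1 : ℕ) : ℝ) ^ 2) ^ ε' with hM
  have hM0 : 0 < M := by positivity
  refine ⟨(N + 1) * K1 * M, by positivity, fun h hh b b' B C hB hC => ?_⟩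
  rcases B.eq_empty_or_nonempty with rfl | hBn
  · simp only [Finset.card_empty, Nat.cast_zero, zero_mul]; positivity
  rcases C.eq_empty_or_nonempty with rfl | hCn
  · simp only [Finset.card_empty, Nat.cast_zero, mul_zero]; positivity
  have hB0 : ∀ x ∈ B, x ≠ 0 := fun x hx => (hB x hx).2
  have hC0 : ∀ x ∈ C, x ≠ 0 := fun x hx => (hC x hx).2
  have hb1 : (1 : ℝ) ≤ B.card := by exact_mod_cast hBn.card_pos
  have hc1 : (1 : ℝ) ≤ C.card := by exact_mod_cast hCn.card_pos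
  have hh1 : (1 : ℝ) ≤ h := by exact_mod_cast hh
  set X : ℝ := (h : ℝ) * B.card * C.card with hX
  have hX1 : 1 ≤ X := by
    rw [hX]
    calc (1 : ℝ) = 1 * 1 * 1 := by ring
      _ ≤ (h : ℝ) * B.card * C.card := by gcongr
  have hhX : (h : ℝ) ≤ X := by
    rw [hX, mul_assoc]
    nlinarith [mul_le_mul hb1 hc1 zero_le_one (by positivity)]
  have hbX : (B.card : ℝ) ≤ X := by
    rw [hX]
    have : (1 : ℝ) ≤ h * C.card := by nlinarith
    nlinarith
  have hcX : (C.card : ℝ) ≤ X := by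
    rw [hX]
    have : (1 : ℝ) ≤ h * B.card := by nlinarith
    nlinarith
  set R : ℕ := (N + 1) * h ^ (N + 1) with hR
  have hR1 : 1 ≤ R := Nat.mul_pos (by omega) (Nat.pow_pos (by omega))
  have hNR : N * h ^ N ≤ R := Nat.mul_le_mul (by omega) (Nat.pow_le_pow_right hh (by omega))
  -- the fibres
  have hF : ∀ m ∈ B * C, ((B ×ˢ C).filter fun p => p.1 * p.2 = m).card ^ 2 ≤
      N * ((QQ B C (R * R)).filter fun z => z.1.1 * z.1.2 = m).card := by
    intro m hm
    have hm0 : m ≠ 0 := by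
      obtain ⟨x, hx, y, hy, rfl⟩ := Finset.mem_mul.1 hm
      exact mul_ne_zero (hB0 x hx) (hC0 y hy)
    refine (sep ((B ×ˢ C).filter fun p => p.1 * p.2 = m) (fun p => p.1) N R hR1 ?_ ?_).trans ?_
    · intro p hp
      rw [Finset.mem_filter, Finset.mem_product] at hp
      exact hB0 _ hp.1.1
    · intro x hx
      have hx' : ∀ s, ((x s).1 ∈ B ∧ (x s).2 ∈ C) ∧ (x s).1 * (x s).2 = m := by
        intro s
        have := hx s
        rwa [Finset.mem_filter, Finset.mem_product] at this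
      obtain ⟨s, t, hst, h2⟩ := hN h hh b b' m hm0 (fun s => (x s).1) (fun s => (x s).2)
        (fun s => (hB _ (hx' s).1.1).1) (fun s => (hC _ (hx' s).1.2).1) (fun s => (hx' s).2)
      exact ⟨s, t, hst, box_mono hNR h2⟩
    · refine Nat.mul_le_mul_left N (Finset.card_le_card ?_)
      intro z hz
      rw [Finset.mem_filter, Finset.mem_product, Finset.mem_filter, Finset.mem_filter] at hz
      rw [Finset.mem_filter, QQ, Finset.mem_filter, Finset.mem_product]
      exact ⟨⟨⟨hz.1.1.1, hz.1.2.1⟩, by rw [hz.1.1.2, hz.1.2.2], hz.2⟩, hz.1.1.2⟩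
  have hsum1 : B.card * C.card = ∑ m ∈ B * C, ((B ×ˢ C).filter fun p => p.1 * p.2 = m).card := by
    rw [← Finset.card_product]
    refine Finset.card_eq_sum_card_fiberwise ?_
    intro p hp
    rw [Finset.mem_coe, Finset.mem_product] at hp
    exact Finset.mul_mem_mul hp.1 hp.2
  have hsum2 : (QQ B C (R * R)).card =
      ∑ m ∈ B * C, ((QQ B C (R * R)).filter fun z => z.1.1 * z.1.2 = m).card := by
    refine Finset.card_eq_sum_card_fiberwise ?_
    intro z hz
    rw [Finset.mem_coe, QQ, Finset.mem_filter, Finset.mem_product, Finset.mem_product] at hz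
    exact Finset.mul_mem_mul hz.1.1.1 hz.1.1.2
  have hcs : (B.card * C.card) ^ 2 ≤ (B * C).card * (N * (QQ B C (R * R)).card) := by
    rw [hsum1, hsum2, Finset.mul_sum]
    exact sq_sum_le_card_mul_sum_sq.trans (Nat.mul_le_mul_left _ (Finset.sum_le_sum hF))
  -- the number of pairs of pairs
  have hbnd : ∀ Y : Finset ℚ, (∀ x ∈ Y, x ≠ 0) → (Y.card : ℝ) ≤ X →
      ∑ q ∈ bx (R * R), (rr Y q : ℝ) ^ 2 ≤ (K1 * M * X ^ ε) * (Y.card : ℝ) ^ 2 := by
    intro Y hY hYX
    refine (hrr (R * R) (Nat.mul_pos hR1 hR1) Y hY).trans ?_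
    refine mul_le_mul_of_nonneg_right ?_ (by positivity)
    rw [mul_assoc K1 M (X ^ ε)]
    refine mul_le_mul_of_nonneg_left ?_ hK1.le
    have h1 : ((R * R : ℕ) : ℝ) * Y.card ≤ ((N + 1 : ℕ) : ℝ) ^ 2 * X ^ (2 * N + 3) := by
      calc ((R * R : ℕ) : ℝ) * Y.card
          = ((N + 1 : ℕ) : ℝ) ^ 2 * ((h : ℝ) ^ (2 * N + 2) * Y.card) := by
            rw [hR]; push_cast; ring
        _ ≤ ((N + 1 : ℕ) : ℝ) ^ 2 * (X ^ (2 * N + 2) * X) := by gcongr
        _ = _ := by ring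
    calc (((R * R : ℕ) : ℝ) * Y.card) ^ ε' ≤ (((N + 1 : ℕ) : ℝ) ^ 2 * X ^ (2 * N + 3)) ^ ε' :=
          Real.rpow_le_rpow (by positivity) h1 hε'0.le
      _ = M * (X ^ (2 * N + 3)) ^ ε' := Real.mul_rpow (by positivity) (by positivity)
      _ = M * X ^ ε := by
          congr 1
          rw [← Real.rpow_natCast X, ← Real.rpow_mul (by positivity)]
          congr 1
          rw [hε']
          push_cast
          field_simp
  have hQ : ((QQ B C (R * R)).card : ℝ) ≤ (K1 * M * X ^ ε) * (B.card * C.card) := by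
    have h1 : ((QQ B C (R * R)).card : ℝ) ≤ ∑ q ∈ bx (R * R), (rr B q : ℝ) * rr C q := by
      exact_mod_cast QQ_le B C (R * R) hB0
    have h2 := Finset.sum_mul_sq_le_sq_mul_sq (bx (R * R)) (fun q => (rr B q : ℝ))
      (fun q => (rr C q : ℝ))
    have h3 := mul_le_mul (hbnd B hB0 hbX) (hbnd C hC0 hcX) (Finset.sum_nonneg fun q _ => by
      positivity) (by positivity)
    have h4 : ((QQ B C (R * R)).card : ℝ) ^ 2 ≤ ((K1 * M * X ^ ε) * (B.card * C.card)) ^ 2 := by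
      calc ((QQ B C (R * R)).card : ℝ) ^ 2 ≤ (∑ q ∈ bx (R * R), (rr B q : ℝ) * rr C q) ^ 2 :=
            pow_le_pow_left₀ (by positivity) h1 2
        _ ≤ _ := h2
        _ ≤ _ := h3
        _ = _ := by ring
    exact le_of_sq_le_sq h4 (by positivity) |> fun h => h
  have hfin : ((B.card : ℝ) * C.card) ^ 2 ≤ (B * C).card * (N * ((K1 * M * X ^ ε) *
      (B.card * C.card))) := by
    calc ((B.card : ℝ) * C.card) ^ 2 ≤ (B * C).card * (N * (QQ B C (R * R)).card) := by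
          exact_mod_cast hcs
      _ ≤ _ := by gcongr
  have hpos : (0 : ℝ) < B.card * C.card := by positivity
  have h5 : ((B.card : ℝ) * C.card) * (B.card * C.card) ≤
      ((B * C).card * (N * (K1 * M * X ^ ε))) * (B.card * C.card) := by
    rw [← sq]
    refine hfin.trans (le_of_eq (by ring))
  have h6 := le_of_mul_le_mul_right h5 hpos
  refine h6.trans ?_
  have hXe : 0 < X ^ ε := by positivity
  have h7 : (N : ℝ) * (K1 * M * X ^ ε) ≤ (N + 1) * K1 * M * X ^ ε := by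
    nlinarith [mul_pos (mul_pos hK1 hM0) hXe]
  calc ((B * C).card : ℝ) * (N * (K1 * M * X ^ ε)) ≤ (B * C).card * ((N + 1) * K1 * M * X ^ ε) := by
        gcongr
    _ = _ := by ring

theorem powV (d j : ℕ) : ∀ ε : ℝ, 0 < ε →
    ∃ K : ℝ, 0 < K ∧ ∀ h : ℕ, 1 ≤ h → ∀ b : Fin d → ℚ, ∀ B : Finset ℚ, B.Nonempty →
      (∀ x ∈ B, Sp h b x ∧ x ≠ 0) →
      (B.card : ℝ) ^ j ≤ K * ((h : ℝ) * B.card) ^ ε * (B ^ j).card := by
  induction j with
  | zero =>
    intro ε hε
    refine ⟨1, one_pos, fun h hh b B hBn hB => ?_⟩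
    have hb1 : (1 : ℝ) ≤ B.card := by exact_mod_cast hBn.card_pos
    have hh1 : (1 : ℝ) ≤ h := by exact_mod_cast hh
    have h1 : (1 : ℝ) ≤ ((h : ℝ) * B.card) ^ ε :=
      Real.one_le_rpow (by nlinarith) hε.le
    simpa using h1
  | succ j ih =>
    intro ε hε
    obtain ⟨K1, hK1, h1⟩ := ih (ε / 2) (by positivity)
    obtain ⟨K2, hK2, h2⟩ := prodV d (d ^ j) (ε / (2 * (j + 1))) (by positivity)
    refine ⟨K1 * K2, by positivity, fun h hh b B hBn hB => ?_⟩
    have hb1 : (1 : ℝ) ≤ B.card := by exact_mod_cast hBn.card_pos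
    have hh1 : (1 : ℝ) ≤ h := by exact_mod_cast hh
    have hX0 : (0 : ℝ) ≤ (h : ℝ) * B.card := by positivity
    have e1 := h1 h hh b B hBn hB
    obtain ⟨b', hb'⟩ := pow_Sp h hh b B hB j
    have e2 := h2 (h ^ (j + 1)) (Nat.pow_pos (by omega)) b b' B (B ^ j)
      (fun x hx => ⟨(hB x hx).1.mono (Nat.le_self_pow (by omega) h), (hB x hx).2⟩)
      (fun y hy => by
        obtain ⟨g1, g2⟩ := hb' y hy
        exact ⟨g1.mono (Nat.pow_le_pow_right hh (by omega)), g2⟩)
    have e3 : (((h ^ (j + 1) : ℕ) : ℝ) * B.card * (B ^ j).card) ^ (ε / (2 * (j + 1))) ≤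
        ((h : ℝ) * B.card) ^ (ε / 2) := by
      have g1 : ((h ^ (j + 1) : ℕ) : ℝ) * B.card * (B ^ j).card ≤ ((h : ℝ) * B.card) ^ (j + 1) := by
        have g2 : (((B ^ j).card : ℕ) : ℝ) ≤ (B.card : ℝ) ^ j := by exact_mod_cast card_pow_le' B j
        calc ((h ^ (j + 1) : ℕ) : ℝ) * B.card * (B ^ j).card
            ≤ ((h ^ (j + 1) : ℕ) : ℝ) * B.card * (B.card : ℝ) ^ j := by gcongr
          _ = _ := by push_cast; ring
      calc (((h ^ (j + 1) : ℕ) : ℝ) * B.card * (B ^ j).card) ^ (ε / (2 * (j + 1)))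
          ≤ (((h : ℝ) * B.card) ^ (j + 1)) ^ (ε / (2 * (j + 1))) :=
            Real.rpow_le_rpow (by positivity) g1 (by positivity)
        _ = _ := by
            rw [← Real.rpow_natCast ((h : ℝ) * B.card), ← Real.rpow_mul hX0]
            congr 1
            push_cast
            field_simp
    have e4 : (B.card : ℝ) * (B ^ j).card ≤ K2 * ((h : ℝ) * B.card) ^ (ε / 2) *
        (B ^ (j + 1)).card := by
      refine e2.trans ?_
      rw [pow_succ' B j]
      gcongr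
    calc (B.card : ℝ) ^ (j + 1) = B.card * (B.card : ℝ) ^ j := by ring
      _ ≤ B.card * (K1 * ((h : ℝ) * B.card) ^ (ε / 2) * (B ^ j).card) := by gcongr
      _ = K1 * ((h : ℝ) * B.card) ^ (ε / 2) * (B.card * (B ^ j).card) := by ring
      _ ≤ K1 * ((h : ℝ) * B.card) ^ (ε / 2) * (K2 * ((h : ℝ) * B.card) ^ (ε / 2) *
        (B ^ (j + 1)).card) := by gcongr
      _ = K1 * K2 * (((h : ℝ) * B.card) ^ (ε / 2) * ((h : ℝ) * B.card) ^ (ε / 2)) *
        (B ^ (j + 1)).card := by ring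
      _ = K1 * K2 * ((h : ℝ) * B.card) ^ ε * (B ^ (j + 1)).card := by
          rw [← Real.rpow_add (by positivity)]
          congr 3
          ring

/-- **Products with arbitrary finite sets.** -/
theorem arbV (d : ℕ) (ε : ℝ) (hε : 0 < ε) :
    ∃ K : ℝ, 0 < K ∧ ∀ h : ℕ, 1 ≤ h → ∀ b : Fin d → ℚ, ∀ B C : Finset ℚ,
      (∀ x ∈ B, Sp h b x ∧ x ≠ 0) → (∀ y ∈ C, y ≠ 0) →
      (B.card : ℝ) * C.card ≤ K * ((h : ℝ) * B.card * C.card) ^ ε * (B * C).card := by
  obtain ⟨j, hj⟩ := exists_nat_ge ((1 + ε) / ε)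
  have hj0 : j ≠ 0 := by
    rintro rfl
    rw [Nat.cast_zero] at hj
    have : 0 < (1 + ε) / ε := by positivity
    linarith
  obtain ⟨K, hK, h1⟩ := powV d j ε hε
  refine ⟨max 1 K, by positivity, fun h hh b B C hB hC => ?_⟩
  rcases B.eq_empty_or_nonempty with rfl | hBn
  · simp only [Finset.card_empty, Nat.cast_zero, zero_mul]; positivity
  rcases C.eq_empty_or_nonempty with rfl | hCn
  · simp only [Finset.card_empty, Nat.cast_zero, mul_zero]; positivity
  have hb1 : (1 : ℝ) ≤ B.card := by exact_mod_cast hBn.card_pos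
  have hc1 : (1 : ℝ) ≤ C.card := by exact_mod_cast hCn.card_pos
  have hh1 : (1 : ℝ) ≤ h := by exact_mod_cast hh
  set X : ℝ := (h : ℝ) * B.card * C.card with hX
  have hhb : (1 : ℝ) ≤ (h : ℝ) * B.card := by nlinarith
  have hX1 : 1 ≤ X := by rw [hX]; nlinarith
  have hbX : (h : ℝ) * B.card ≤ X := by rw [hX]; nlinarith
  have hcX : (C.card : ℝ) ≤ X := by rw [hX]; nlinarith
  have h2 := h1 h hh b B hBn hB
  have h3 := plu B C (fun x hx => (hB x hx).2) hC hCn j
  have h4 : ((B.card : ℝ) * C.card) ^ j ≤ (max 1 K * X ^ ε * (B * C).card) ^ j := by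
    calc ((B.card : ℝ) * C.card) ^ j = (B.card : ℝ) ^ j * (C.card : ℝ) ^ j := mul_pow _ _ _
      _ ≤ (K * ((h : ℝ) * B.card) ^ ε * (B ^ j).card) * (C.card : ℝ) ^ j := by gcongr
      _ = K * ((h : ℝ) * B.card) ^ ε * ((B ^ j).card * (C.card : ℝ) ^ j) := by ring
      _ ≤ K * ((h : ℝ) * B.card) ^ ε * (((B * C).card : ℝ) ^ j * C.card) := by gcongr
      _ ≤ K * X ^ ε * (((B * C).card : ℝ) ^ j * X) := by gcongr
      _ = K * (X ^ ε * X) * ((B * C).card : ℝ) ^ j := by ring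
      _ ≤ (max 1 K) ^ j * (X ^ ε) ^ j * ((B * C).card : ℝ) ^ j := by
          have g1 : K ≤ (max 1 K) ^ j :=
            (le_max_right 1 K).trans (le_self_pow₀ (le_max_left 1 K) hj0)
          have g2 : X ^ ε * X ≤ (X ^ ε) ^ j := by
            rw [← Real.rpow_natCast (X ^ ε), ← Real.rpow_mul (by positivity)]
            nth_rewrite 2 [← Real.rpow_one X]
            rw [← Real.rpow_add (by positivity)]
            refine Real.rpow_le_rpow_of_exponent_le hX1 ?_
            rw [div_le_iff₀ hε] at hj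
            linarith
          gcongr
      _ = _ := by rw [mul_pow, mul_pow]
  exact (pow_le_pow_iff_left₀ (by positivity) (by positivity) hj0).1 h4

end Pool.Agent.Zk30.DL
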