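import Mathlib
import Pool.Agent.Zk30.DL.Span

/-!
# Rich lines and subspaces of bounded dimension

`T` is a finite set of nonzero rational numbers whose pairwise ratios have large height. Either a
subset of positive proportion has the property that for half of its pairs only few elements of it
are combinations of the pair with coefficients of small height, or a positive proportion of `T`
consists of combinations of boundedly many numbers with coefficients of small height.
-/

set_option autoImplicit false

namespace Pool.Agent.Zk30.DL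

open Pool.Agent.TH551.SU Pool.Agent.TH539.MQ Pool.Agent.Zk30.FU

lemma box_sub' {n m : ℕ} {x y : ℚ} (hx : x ∈ box n) (hy : y ∈ box m) : x - y ∈ box (2 * (n * m)) := by
  rw [sub_eq_add_neg]
  exact box_add hx (box_neg hy)

lemma Sp.pad {h d d' : ℕ} (hh : 1 ≤ h) (hd : d ≤ d') (b : Fin d → ℚ) :
    ∃ b' : Fin d' → ℚ, ∀ x, Sp h b x → Sp h b' x := by
  refine ⟨fun i => if hi : i.1 < d then b ⟨i, hi⟩ else 0, ?_⟩
  rintro x ⟨c, h1, rfl⟩
  refine ⟨fun i => if hi : i.1 < d then c ⟨i, hi⟩ else 0, ?_, ?_⟩
  · intro i
    simp only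
    split_ifs with hi
    · exact h1 _
    · exact zero_mem_box hh
  · obtain ⟨e, rfl⟩ := Nat.exists_eq_add_of_le hd
    rw [Fin.sum_univ_add]
    simp

/-- the elements of `T` which are combinations of `u`, `s` with coefficients of height at most `h` -/
noncomputable def Rl (h : ℕ) (T : Finset ℚ) (u s : ℚ) : Finset ℚ := by
  classical exact T.filter fun r => ∃ α ∈ box h, ∃ β ∈ box h, r = α * u + β * s

lemma mem_Rl {h : ℕ} {T : Finset ℚ} {u s r : ℚ} :
    r ∈ Rl h T u s ↔ r ∈ T ∧ ∃ α ∈ box h, ∃ β ∈ box h, r = α * u + β * s := by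
  classical
  unfold Rl
  rw [Finset.mem_filter]

/-- bad pairs -/
noncomputable def badp (h ρ : ℕ) (T : Finset ℚ) (t : ℚ) : Finset ℚ := by
  classical exact T.filter fun s => s = t ∨ ρ < (Rl h T t s).card

/-- good pairs -/
noncomputable def goodp (h ρ : ℕ) (T : Finset ℚ) : Finset (ℚ × ℚ) := by
  classical exact (T ×ˢ T).filter fun p => p.2 ≠ p.1 ∧ (Rl h T p.1 p.2).card ≤ ρ

/-- the elements of large degree -/
noncomputable def Ts (h ρ : ℕ) (T : Finset ℚ) : ℕ → Finset ℚ
  | 0 => T
  | i + 1 => (Ts h ρ T i).filter fun t => (Ts h ρ T i).card ≤ 4 * (badp h ρ (Ts h ρ T i) t).card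

lemma Ts_sub (h ρ : ℕ) (T : Finset ℚ) (i : ℕ) : Ts h ρ T (i + 1) ⊆ Ts h ρ T i := by
  rw [Ts]; exact Finset.filter_subset _ _

lemma Ts_subset (h ρ : ℕ) (T : Finset ℚ) (i : ℕ) : Ts h ρ T i ⊆ T := by
  induction i with
  | zero => rw [Ts]
  | succ i ih => exact (Ts_sub h ρ T i).trans ih

lemma good_bad (h ρ : ℕ) (T : Finset ℚ) :
    (goodp h ρ T).card + ∑ t ∈ T, (badp h ρ T t).card = T.card ^ 2 := by
  classical
  have h1 : (goodp h ρ T).card = ∑ t ∈ T, (T.filter fun s => s ≠ t ∧ (Rl h T t s).card ≤ ρ).card := by
    unfold goodp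
    rw [Finset.card_filter, Finset.sum_product]
    refine Finset.sum_congr rfl fun t _ => ?_
    rw [Finset.card_filter]
  rw [h1, ← Finset.sum_add_distrib]
  have h2 : ∀ t ∈ T, (T.filter fun s => s ≠ t ∧ (Rl h T t s).card ≤ ρ).card +
      (badp h ρ T t).card = T.card := by
    intro t _
    unfold badp
    rw [← Finset.card_filter_add_card_filter_not (s := T)
      (p := fun s => s ≠ t ∧ (Rl h T t s).card ≤ ρ)]
    congr 2
    ext s
    simp only [Finset.mem_filter]
    constructor
    · rintro ⟨h3, h4⟩
      refine ⟨h3, fun h5 => ?_⟩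
      rcases h4 with h4 | h4
      · exact h5.1 h4
      · omega
    · rintro ⟨h3, h4⟩
      refine ⟨h3, ?_⟩
      by_cases h5 : s = t
      · exact Or.inl h5
      · right
        by_contra h6
        exact h4 ⟨h5, by omega⟩
  rw [Finset.sum_congr rfl h2, Finset.sum_const, smul_eq_mul, sq]

lemma Ts_card (h ρ : ℕ) (T : Finset ℚ) (i : ℕ)
    (hbad : 2 * (goodp h ρ (Ts h ρ T i)).card < (Ts h ρ T i).card ^ 2) :
    (Ts h ρ T i).card ≤ 4 * (Ts h ρ T (i + 1)).card := by
  classical
  set S := Ts h ρ T i with hS
  have h1 := good_bad h ρ S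
  have hT1 : Ts h ρ T (i + 1) = S.filter fun t => S.card ≤ 4 * (badp h ρ S t).card := by rw [Ts]
  rw [hT1]
  set D := S.filter fun t => S.card ≤ 4 * (badp h ρ S t).card with hD
  have h2 : ∑ t ∈ S, (badp h ρ S t).card = ∑ t ∈ D, (badp h ρ S t).card +
      ∑ t ∈ S.filter (fun t => ¬ (S.card ≤ 4 * (badp h ρ S t).card)), (badp h ρ S t).card :=
    (Finset.sum_filter_add_sum_filter_not _ _ _).symm
  have h3 : ∑ t ∈ D, (badp h ρ S t).card ≤ D.card * S.card := by
    rw [← smul_eq_mul, ← Finset.sum_const]
    refine Finset.sum_le_sum fun t _ => Finset.card_le_card ?_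
    unfold badp
    exact Finset.filter_subset _ _
  have h4 : 4 * ∑ t ∈ S.filter (fun t => ¬ (S.card ≤ 4 * (badp h ρ S t).card)),
      (badp h ρ S t).card ≤ S.card * S.card := by
    rw [Finset.mul_sum]
    calc _ ≤ ∑ t ∈ S.filter (fun t => ¬ (S.card ≤ 4 * (badp h ρ S t).card)), S.card := by
          refine Finset.sum_le_sum fun t ht => ?_
          have := (Finset.mem_filter.1 ht).2
          omega
      _ = (S.filter (fun t => ¬ (S.card ≤ 4 * (badp h ρ S t).card))).card * S.card := by
          rw [Finset.sum_const, smul_eq_mul]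
      _ ≤ _ := Nat.mul_le_mul_right _ (Finset.card_le_card (Finset.filter_subset _ _))
  have hpos : 0 < S.card := by
    by_contra h5
    have h6 : S.card = 0 := by omega
    rw [h6] at hbad
    simp at hbad
  -- S² < 2 good'... so 2 * bad > S², bad ≤ D S + S²/4
  have h7 : S.card * S.card < 4 * (D.card * S.card) := by
    nlinarith
  have h8 : S.card < 4 * D.card := by
    by_contra h9
    push Not at h9
    have := Nat.mul_le_mul_right S.card h9
    nlinarith
  exact h8.le

theorem chain (h ρ m : ℕ) (hh : 1 ≤ h) (T : Finset ℚ) (hT0 : ∀ t ∈ T, t ≠ 0)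
    (hsep : ∀ t ∈ T, ∀ s ∈ T, t ≠ s → t / s ∉ box (h * h)) (hne : T.Nonempty)
    (hbig : 8 ^ m * T.card < ρ ^ m) :
    (∃ T' ⊆ T, T.card ≤ 4 ^ m * T'.card ∧ T'.card ^ 2 ≤ 2 * (goodp h ρ T').card) ∨
    (∃ p : Fin (m + 1) → ℚ, ∃ T' ⊆ T, T.card ≤ 8 * 4 ^ m * T'.card ∧
      ∀ t ∈ T', Sp (4 * h ^ (2 * m + 4)) p t) := by
  classical
  by_contra hcon
  push Not at hcon
  obtain ⟨hS, hP⟩ := hcon
  set G := 4 * h ^ (2 * m + 4) with hG
  have hG1 : 1 ≤ G := by
    have : 1 ≤ h ^ (2 * m + 4) := Nat.one_le_pow _ _ hh
    omega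
  -- the sizes
  have hcard : ∀ i, i ≤ m → T.card ≤ 4 ^ i * (Ts h ρ T i).card := by
    intro i
    induction i with
    | zero => intro _; rw [Ts]; simp
    | succ i ih =>
      intro hi
      have h1 := ih (by omega)
      have h2 : 2 * (goodp h ρ (Ts h ρ T i)).card < (Ts h ρ T i).card ^ 2 := by
        refine hS _ (Ts_subset h ρ T i) (h1.trans ?_)
        exact Nat.mul_le_mul_right _ (Nat.pow_le_pow_right (by norm_num) (by omega))
      have h3 := Ts_card h ρ T i h2
      calc T.card ≤ 4 ^ i * (Ts h ρ T i).card := h1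
        _ ≤ 4 ^ i * (4 * (Ts h ρ T (i + 1)).card) := Nat.mul_le_mul_left _ h3
        _ = 4 ^ (i + 1) * (Ts h ρ T (i + 1)).card := by ring
  have hTpos : 0 < T.card := hne.card_pos
  have hpos : ∀ i, i ≤ m → (Ts h ρ T i).Nonempty := by
    intro i hi
    rw [← Finset.card_pos]
    by_contra h1
    have h2 : (Ts h ρ T i).card = 0 := by omega
    have h3 := hcard i hi
    rw [h2] at h3
    omega
  -- the chain
  have key : ∀ j, j ≤ m → ∃ p : Fin (j + 1) → ℚ, ∃ U ⊆ Ts h ρ T (m - j),
      (∀ u ∈ U, Sp (h ^ j) p u) ∧ ρ ^ j ≤ 8 ^ j * U.card := by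
    intro j
    induction j with
    | zero =>
      intro _
      obtain ⟨p0, hp0⟩ := hpos m le_rfl
      refine ⟨fun _ => p0, {p0}, ?_, ?_, ?_⟩
      · rw [Nat.sub_zero]
        exact Finset.singleton_subset_iff.2 hp0
      · intro u hu
        rw [Finset.mem_singleton.1 hu]
        exact ⟨fun _ => 1, fun _ => mem_box (by simp) (by simp), by simp⟩
      · simp
    | succ j ih =>
      intro hj
      obtain ⟨p, U, hU, hUp, hUc⟩ := ih (by omega)
      set Tk := Ts h ρ T (m - (j + 1)) with hTk
      have hUk : U ⊆ Ts h ρ T (m - (j + 1) + 1) := by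
        have e : m - (j + 1) + 1 = m - j := by omega
        rw [e]; exact hU
      have hTkT : Tk ⊆ T := Ts_subset h ρ T _
      have hUT : U ⊆ T := hUk.trans (Ts_subset h ρ T _)
      have hTkpos : Tk.Nonempty := hpos _ (by omega)
      have hTkc : T.card ≤ 4 ^ m * Tk.card :=
        (hcard (m - (j + 1)) (by omega)).trans
          (Nat.mul_le_mul_right _ (Nat.pow_le_pow_right (by norm_num) (by omega)))
      -- few elements in the span
      have hspan : 8 * (Tk.filter fun s => Sp G p s).card < Tk.card := by
        by_contra h1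
        push Not at h1
        obtain ⟨p', hp'⟩ := Sp.pad (d' := m + 1) hG1 (by omega : j + 1 ≤ m + 1) p
        have h2 := hP p' (Tk.filter fun s => Sp G p s) ((Finset.filter_subset _ _).trans hTkT) (by
          calc T.card ≤ 4 ^ m * Tk.card := hTkc
            _ ≤ 4 ^ m * (8 * (Tk.filter fun s => Sp G p s).card) := Nat.mul_le_mul_left _ h1
            _ = _ := by ring)
        obtain ⟨t, ht, h3⟩ := h2
        exact h3 (hp' t (Finset.mem_filter.1 ht).2)
      -- the bad partners outside of the span
      let Bu : ℚ → Finset ℚ := fun u => (badp h ρ Tk u).filter fun s => ¬ Sp G p s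
      have hBu : ∀ u ∈ U, Tk.card ≤ 8 * (Bu u).card := by
        intro u hu
        have h1 : Tk.card ≤ 4 * (badp h ρ Tk u).card := by
          have h2 := hUk hu
          rw [Ts, Finset.mem_filter] at h2
          exact h2.2
        have h3 : (badp h ρ Tk u).card ≤ (Bu u).card + (Tk.filter fun s => Sp G p s).card := by
          rw [← Finset.card_filter_add_card_filter_not (s := badp h ρ Tk u)
            (p := fun s => ¬ Sp G p s)]
          refine Nat.add_le_add_left (Finset.card_le_card ?_) _
          intro s hs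
          rw [Finset.mem_filter, not_not] at hs
          rw [Finset.mem_filter]
          refine ⟨?_, hs.2⟩
          have := hs.1
          unfold badp at this
          exact (Finset.mem_filter.1 this).1
        omega
      -- a good new point
      obtain ⟨s, hs, hsU⟩ : ∃ s ∈ Tk, U.card ≤ 8 * (U.filter fun u => s ∈ Bu u).card := by
        by_contra hcon2
        push Not at hcon2
        have h1 : ∑ s ∈ Tk, 8 * (U.filter fun u => s ∈ Bu u).card < ∑ _s ∈ Tk, U.card :=
          Finset.sum_lt_sum_of_nonempty hTkpos hcon2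
        rw [Finset.sum_const, smul_eq_mul, ← Finset.mul_sum] at h1
        have h2 : ∑ s ∈ Tk, (U.filter fun u => s ∈ Bu u).card = ∑ u ∈ U, (Bu u).card := by
          simp only [Finset.card_filter]
          rw [Finset.sum_comm]
          refine Finset.sum_congr rfl fun u _ => ?_
          rw [← Finset.card_filter]
          congr 1
          ext s
          rw [Finset.mem_filter]
          constructor
          · exact fun h => h.2
          · intro h
            refine ⟨?_, h⟩
            have h3 := (Finset.mem_filter.1 h).1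
            unfold badp at h3
            exact (Finset.mem_filter.1 h3).1
        rw [h2] at h1
        have h3 : Tk.card * U.card ≤ 8 * ∑ u ∈ U, (Bu u).card := by
          rw [Finset.mul_sum, mul_comm, ← smul_eq_mul, ← Finset.sum_const]
          exact Finset.sum_le_sum hBu
        omega
      set U' := U.filter fun u => s ∈ Bu u with hU'
      have hsT : s ∈ T := hTkT hs
      have hU'T : ∀ u ∈ U', u ∈ T := fun u hu => hUT (Finset.mem_filter.1 hu).1
      have hU'sp : ∀ u ∈ U', Sp (h ^ j) p u := fun u hu => hUp u (Finset.mem_filter.1 hu).1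
      have hGj : h ^ j ≤ G := by
        have : h ^ j ≤ h ^ (2 * m + 4) := Nat.pow_le_pow_right hh (by omega)
        omega
      have hU'r : ∀ u ∈ U', ¬ Sp G p s ∧ ρ < (Rl h Tk u s).card := by
        intro u hu
        have h1 := (Finset.mem_filter.1 hu).2
        have h2 := Finset.mem_filter.1 h1
        refine ⟨h2.2, ?_⟩
        have h3 := h2.1
        unfold badp at h3
        rcases (Finset.mem_filter.1 h3).2 with h4 | h4
        · exfalso
          apply h2.2
          rw [h4]
          exact (hU'sp u hu).mono hGj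
        · exact h4
      let R : ℚ → Finset ℚ := fun u => (Rl h Tk u s).erase s
      have hRc : ∀ u ∈ U', ρ ≤ (R u).card := by
        intro u hu
        have h1 := (hU'r u hu).2
        have h2 := Finset.pred_card_le_card_erase (s := Rl h Tk u s) (a := s)
        have h3 : (R u).card = ((Rl h Tk u s).erase s).card := rfl
        omega
      have hdisj : (U' : Set ℚ).PairwiseDisjoint R := by
        intro u hu u' hu' huu
        refine Finset.disjoint_left.2 fun r hr hr' => ?_
        have hu := Finset.mem_coe.1 hu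
        have hu' := Finset.mem_coe.1 hu'
        obtain ⟨hrs, hr⟩ := Finset.mem_erase.1 hr
        obtain ⟨-, hr'⟩ := Finset.mem_erase.1 hr'
        obtain ⟨hrT, α, hα, β, hβ, e1⟩ := mem_Rl.1 hr
        obtain ⟨-, α', hα', β', hβ', e2⟩ := mem_Rl.1 hr'
        have hrT' : r ∈ T := hTkT hrT
        by_cases hβe : β = β'
        · have e3 : α * u = α' * u' := by
            rw [hβe] at e1
            have := e1.symm.trans e2
            exact add_right_cancel this
          by_cases hα0 : α = 0
          · rw [hα0, zero_mul, zero_add] at e1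
            refine hsep r hrT' s hsT hrs ?_
            rw [e1, mul_div_assoc, div_self (hT0 s hsT), mul_one]
            exact box_mono (Nat.le_mul_of_pos_left h hh) hβ
          · refine hsep u' (hU'T u' hu') u (hU'T u hu) (Ne.symm huu) ?_
            have hα'0 : α' ≠ 0 := by
              rintro rfl
              rw [zero_mul] at e3
              exact mul_ne_zero hα0 (hT0 u (hU'T u hu)) e3
            have e4 : u' / u = α * α'⁻¹ := by
              rw [div_eq_iff (hT0 u (hU'T u hu))]
              field_simp
              rw [mul_comm u', ← e3]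
            rw [e4]
            exact box_mul hα (inv_mem_box hα' hα'0)
        · apply (hU'r u hu).1
          obtain ⟨c, hc, e4⟩ := hU'sp u hu
          obtain ⟨c', hc', e5⟩ := hU'sp u' hu'
          have hb : β' - β ≠ 0 := sub_ne_zero.2 (Ne.symm hβe)
          have e6 : s = (α * u - α' * u') * (β' - β)⁻¹ := by
            rw [eq_mul_inv_iff_mul_eq₀ hb]
            have := e1.symm.trans e2
            linear_combination -this
          refine ⟨fun i => (α * c i - α' * c' i) * (β' - β)⁻¹, fun i => ?_, ?_⟩
          · have h1 := box_mul (box_sub' (box_mul hα (hc i)) (box_mul hα' (hc' i)))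
              (inv_mem_box (box_sub' hβ' hβ) hb)
            refine box_mono ?_ h1
            have h2 : 2 * (h * h ^ j * (h * h ^ j)) * (2 * (h * h)) = 4 * h ^ (2 * j + 4) := by ring
            rw [h2, hG]
            exact Nat.mul_le_mul_left _ (Nat.pow_le_pow_right hh (by omega))
          · rw [e6, e4, e5, Finset.mul_sum, Finset.mul_sum, ← Finset.sum_sub_distrib,
              Finset.sum_mul]
            refine Finset.sum_congr rfl fun i _ => ?_
            ring
      refine ⟨Fin.snoc p s, U'.biUnion R, ?_, ?_, ?_⟩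
      · intro r hr
        obtain ⟨u, _, hr⟩ := Finset.mem_biUnion.1 hr
        exact (mem_Rl.1 (Finset.mem_erase.1 hr).2).1
      · intro r hr
        obtain ⟨u, hu, hr⟩ := Finset.mem_biUnion.1 hr
        obtain ⟨-, α, hα, β, hβ, e1⟩ := mem_Rl.1 (Finset.mem_erase.1 hr).2
        obtain ⟨c, hc, e4⟩ := hU'sp u hu
        refine ⟨Fin.snoc (fun i => α * c i) β, ?_, ?_⟩
        · intro i
          refine Fin.lastCases ?_ (fun i => ?_) i
          · rw [Fin.snoc_last]
            refine box_mono ?_ hβ
            exact Nat.le_self_pow (by omega) h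
          · rw [Fin.snoc_castSucc]
            refine box_mono ?_ (box_mul hα (hc i))
            rw [pow_succ, mul_comm]
        · rw [Fin.sum_univ_castSucc]
          simp only [Fin.snoc_castSucc, Fin.snoc_last]
          rw [e1, e4, Finset.mul_sum]
          congr 1
          refine Finset.sum_congr rfl fun i _ => ?_
          ring
      · rw [Finset.card_biUnion hdisj]
        have h1 : U'.card * ρ ≤ ∑ u ∈ U', (R u).card := by
          rw [← smul_eq_mul, ← Finset.sum_const]
          exact Finset.sum_le_sum hRc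
        calc ρ ^ (j + 1) = ρ ^ j * ρ := pow_succ _ _
          _ ≤ (8 ^ j * U.card) * ρ := Nat.mul_le_mul_right _ hUc
          _ ≤ (8 ^ j * (8 * U'.card)) * ρ := by gcongr
          _ = 8 ^ (j + 1) * (U'.card * ρ) := by ring
          _ ≤ _ := Nat.mul_le_mul_left _ h1
  obtain ⟨p, U, hU, -, hUc⟩ := key m le_rfl
  have h1 : U.card ≤ T.card := Finset.card_le_card (hU.trans (Ts_subset h ρ T _))
  have h2 : 8 ^ m * U.card ≤ 8 ^ m * T.card := Nat.mul_le_mul_left _ h1
  omega

end Pool.Agent.Zk30.DL
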