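import Mathlib
import Pool.Agent.Zk30.DL.Chain

/-!
# Sums along the good pairs
-/

set_option autoImplicit false

namespace Pool.Agent.Zk30.DL

open Pool.Agent.TH551.SU Pool.Agent.TH539.MQ Pool.Agent.Zk30.FU
open scoped Pointwise

/-- solutions of `x + y = z + w` -/
noncomputable def nn (B : ℚ → Finset ℚ) (t s r v : ℚ) : Finset ((ℚ × ℚ) × (ℚ × ℚ)) :=
  ((B t ×ˢ B s) ×ˢ (B r ×ˢ B v)).filter fun q => q.1.1 + q.1.2 = q.2.1 + q.2.2

lemma mem_nn {B : ℚ → Finset ℚ} {t s r v x y z w : ℚ} :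
    ((x, y), (z, w)) ∈ nn B t s r v ↔ (x ∈ B t ∧ y ∈ B s ∧ z ∈ B r ∧ w ∈ B v) ∧
      x + y = z + w := by
  unfold nn
  rw [Finset.mem_filter, Finset.mem_product, Finset.mem_product, Finset.mem_product]
  tauto

section

variable {H h : ℕ} {T : Finset ℚ} {B : ℚ → Finset ℚ}

lemma ind2 (_hH : 1 ≤ H) (hh : 4 * H ^ 4 ≤ h) {t s x y x' y' : ℚ} (ht0 : t ≠ 0) (hs0 : s ≠ 0)
    (hts : t / s ∉ box (h * h)) (hx : x / t ∈ box H) (hy : y / s ∈ box H) (hx' : x' / t ∈ box H)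
    (hy' : y' / s ∈ box H) (he : x + y = x' + y') : x = x' ∧ y = y' := by
  by_cases h1 : x = x'
  · exact ⟨h1, by rw [h1] at he; exact add_left_cancel he⟩
  exfalso
  apply hts
  have h2 : x / t - x' / t ≠ 0 := by
    rw [← sub_div]
    exact div_ne_zero (sub_ne_zero.2 h1) ht0
  have h3 : t / s = (y' / s - y / s) * (x / t - x' / t)⁻¹ := by
    rw [eq_mul_inv_iff_mul_eq₀ h2]
    have h4 : x - x' = y' - y := by linear_combination he
    field_simp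
    rw [← h4]
  rw [h3]
  refine box_mono ?_ (box_mul (box_sub' hy' hy) (inv_mem_box (box_sub' hx hx') h2))
  calc 2 * (H * H) * (2 * (H * H)) = 4 * H ^ 4 := by ring
    _ ≤ h := hh
    _ ≤ h * h := Nat.le_mul_self h

lemma nn_le_sq (hH : 1 ≤ H) (hh : 4 * H ^ 4 ≤ h) (hT0 : ∀ t ∈ T, t ≠ 0)
    (hsep : ∀ t ∈ T, ∀ s ∈ T, t ≠ s → t / s ∉ box (h * h))
    (hB : ∀ t ∈ T, ∀ x ∈ B t, x / t ∈ box H) {t s r v : ℚ} (ht : t ∈ T) (hs : s ∈ T)
    (hts : t ≠ s) : (nn B t s r v).card ≤ (B r).card * (B v).card := by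
  classical
  rw [← Finset.card_product]
  refine Finset.card_le_card_of_injOn (fun q => q.2) ?_ ?_
  · rintro ⟨⟨x, y⟩, ⟨z, w⟩⟩ hq
    obtain ⟨⟨-, -, h3, h4⟩, -⟩ := mem_nn.1 hq
    exact Finset.mem_coe.2 (Finset.mem_product.2 ⟨h3, h4⟩)
  · rintro ⟨⟨x, y⟩, ⟨z, w⟩⟩ hq ⟨⟨x', y'⟩, ⟨z', w'⟩⟩ hq' he
    obtain ⟨⟨h1, h2, h3, h4⟩, h5⟩ := mem_nn.1 hq
    obtain ⟨⟨h1', h2', h3', h4'⟩, h5'⟩ := mem_nn.1 hq'
    simp only [Prod.mk.injEq] at he
    obtain ⟨rfl, rfl⟩ := he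
    obtain ⟨e1, e2⟩ := ind2 hH hh (hT0 t ht) (hT0 s hs) (hsep t ht s hs hts) (hB t ht x h1)
      (hB s hs y h2) (hB t ht x' h1') (hB s hs y' h2') (h5.trans h5'.symm)
    rw [e1, e2]

lemma nn_le (hH : 1 ≤ H) (hh : 4 * H ^ 4 ≤ h) (hT0 : ∀ t ∈ T, t ≠ 0)
    (hsep : ∀ t ∈ T, ∀ s ∈ T, t ≠ s → t / s ∉ box (h * h))
    (hB : ∀ t ∈ T, ∀ x ∈ B t, x / t ∈ box H) {t s r v : ℚ} (ht : t ∈ T) (hs : s ∈ T)
    (hr : r ∈ T) (hts : t ≠ s) (hrv : r ∉ Rl h T t s) : (nn B t s r v).card ≤ (B v).card := by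
  classical
  refine Finset.card_le_card_of_injOn (fun q => q.2.2) ?_ ?_
  · rintro ⟨⟨x, y⟩, ⟨z, w⟩⟩ hq
    obtain ⟨⟨-, -, h3, h4⟩, -⟩ := mem_nn.1 hq
    exact Finset.mem_coe.2 h4
  · rintro ⟨⟨x, y⟩, ⟨z, w⟩⟩ hq ⟨⟨x', y'⟩, ⟨z', w'⟩⟩ hq' he
    obtain ⟨⟨h1, h2, h3, h4⟩, h5⟩ := mem_nn.1 hq
    obtain ⟨⟨h1', h2', h3', h4'⟩, h5'⟩ := mem_nn.1 hq'
    simp only at he
    subst he
    have hz : z = z' := by
      by_contra hz
      apply hrv
      refine mem_Rl.2 ⟨hr, ?_⟩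
      have ht0 := hT0 t ht
      have hs0 := hT0 s hs
      have hr0 := hT0 r hr
      have h6 : z / r - z' / r ≠ 0 := by
        rw [← sub_div]
        exact div_ne_zero (sub_ne_zero.2 hz) hr0
      have hle : 2 * (H * H) * (2 * (H * H)) ≤ h := by
        calc 2 * (H * H) * (2 * (H * H)) = 4 * H ^ 4 := by ring
          _ ≤ h := hh
      refine ⟨(x / t - x' / t) * (z / r - z' / r)⁻¹, box_mono hle (box_mul (box_sub' (hB t ht x h1)
        (hB t ht x' h1')) (inv_mem_box (box_sub' (hB r hr z h3) (hB r hr z' h3')) h6)),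
        (y / s - y' / s) * (z / r - z' / r)⁻¹, box_mono hle (box_mul (box_sub' (hB s hs y h2)
        (hB s hs y' h2')) (inv_mem_box (box_sub' (hB r hr z h3) (hB r hr z' h3')) h6)), ?_⟩
      have h7 : (x - x') + (y - y') = z - z' := by linear_combination h5 - h5'
      have h8 : z - z' ≠ 0 := sub_ne_zero.2 hz
      have h9 : z / r - z' / r = (z - z') / r := (sub_div _ _ _).symm
      have h10 : x / t - x' / t = (x - x') / t := (sub_div _ _ _).symm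
      have h11 : y / s - y' / s = (y - y') / s := (sub_div _ _ _).symm
      rw [h9, h10, h11]
      field_simp
      linear_combination -h7
    subst hz
    obtain ⟨e1, e2⟩ := ind2 hH hh (hT0 t ht) (hT0 s hs) (hsep t ht s hs hts) (hB t ht x h1)
      (hB s hs y h2) (hB t ht x' h1') (hB s hs y' h2') (h5.trans h5'.symm)
    rw [e1, e2]

lemma nn_swap (t s r v : ℚ) : (nn B t s r v).card ≤ (nn B t s v r).card := by
  classical
  refine Finset.card_le_card_of_injOn (fun q => (q.1, (q.2.2, q.2.1))) ?_ ?_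
  · rintro ⟨⟨x, y⟩, ⟨z, w⟩⟩ hq
    obtain ⟨⟨h1, h2, h3, h4⟩, h5⟩ := mem_nn.1 hq
    exact Finset.mem_coe.2 (mem_nn.2 ⟨⟨h1, h2, h4, h3⟩, by rw [h5, add_comm]⟩)
  · rintro ⟨⟨x, y⟩, ⟨z, w⟩⟩ _ ⟨⟨x', y'⟩, ⟨z', w'⟩⟩ _ he
    simp only [Prod.mk.injEq] at he ⊢
    tauto

theorem sumside (hH : 1 ≤ H) (hh : 4 * H ^ 4 ≤ h) (hT0 : ∀ t ∈ T, t ≠ 0) (ρ M : ℕ)
    (hsep : ∀ t ∈ T, ∀ s ∈ T, t ≠ s → t / s ∉ box (h * h))
    (hB : ∀ t ∈ T, ∀ x ∈ B t, x / t ∈ box H) (hBM : ∀ t ∈ T, (B t).card = M) (hM : 1 ≤ M)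
    (hT : T.Nonempty)
    (hgood : T.card ^ 2 ≤ 2 * (goodp h ρ T).card) (A : Finset ℚ) (hBA : ∀ t ∈ T, B t ⊆ A) :
    T.card ^ 2 * M ^ 3 ≤ 2 * ((A + A).card * (ρ ^ 2 * M + T.card ^ 2)) := by
  classical
  set G := goodp h ρ T with hG
  have hGm : ∀ p ∈ G, p.1 ∈ T ∧ p.2 ∈ T ∧ p.2 ≠ p.1 ∧ (Rl h T p.1 p.2).card ≤ ρ := by
    intro p hp
    rw [hG] at hp
    unfold goodp at hp
    rw [Finset.mem_filter, Finset.mem_product] at hp
    exact ⟨hp.1.1, hp.1.2, hp.2.1, hp.2.2⟩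
  let I : Finset (Σ _ : ℚ × ℚ, ℚ × ℚ) := G.sigma fun p => B p.1 ×ˢ B p.2
  let f : (Σ _ : ℚ × ℚ, ℚ × ℚ) → ℚ := fun a => a.2.1 + a.2.2
  have hI : I.card = G.card * M ^ 2 := by
    rw [Finset.card_sigma]
    rw [Finset.sum_congr rfl (g := fun _ => M ^ 2), Finset.sum_const, smul_eq_mul]
    intro p hp
    rw [Finset.card_product, hBM _ (hGm p hp).1, hBM _ (hGm p hp).2.1, sq]
  have hmaps : ∀ a ∈ I, f a ∈ A + A := by
    intro a ha
    obtain ⟨h1, h2⟩ := Finset.mem_sigma.1 ha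
    obtain ⟨h3, h4⟩ := Finset.mem_product.1 h2
    exact Finset.add_mem_add (hBA _ (hGm _ h1).1 h3) (hBA _ (hGm _ h1).2.1 h4)
  have hcs : I.card ^ 2 ≤ (A + A).card * ∑ a ∈ I, (I.filter fun a' => f a' = f a).card := by
    have h1 : I.card = ∑ z ∈ A + A, (I.filter fun a => f a = z).card :=
      Finset.card_eq_sum_card_fiberwise hmaps
    have h2 : ∑ a ∈ I, (I.filter fun a' => f a' = f a).card =
        ∑ z ∈ A + A, (I.filter fun a => f a = z).card ^ 2 := by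
      rw [← Finset.sum_fiberwise_of_maps_to hmaps]
      refine Finset.sum_congr rfl fun z _ => ?_
      rw [Finset.sum_congr rfl (g := fun _ => (I.filter fun a => f a = z).card),
        Finset.sum_const, smul_eq_mul, sq]
      intro a ha
      rw [(Finset.mem_filter.1 ha).2]
    rw [h2, h1]
    exact sq_sum_le_card_mul_sum_sq
  have hcount : ∑ a ∈ I, (I.filter fun a' => f a' = f a).card =
      ∑ p ∈ G, ∑ p' ∈ G, (nn B p.1 p.2 p'.1 p'.2).card := by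
    rw [Finset.sum_sigma]
    refine Finset.sum_congr rfl fun p _ => ?_
    have h1 : ∀ q ∈ B p.1 ×ˢ B p.2, (I.filter fun a' => f a' = f ⟨p, q⟩).card =
        ∑ p' ∈ G, ∑ q' ∈ B p'.1 ×ˢ B p'.2, if q.1 + q.2 = q'.1 + q'.2 then 1 else 0 := by
      intro q _
      rw [Finset.card_filter, Finset.sum_sigma]
      refine Finset.sum_congr rfl fun p' _ => Finset.sum_congr rfl fun q' _ => ?_
      have h2 : (f ⟨p', q'⟩ = f ⟨p, q⟩) ↔ (q.1 + q.2 = q'.1 + q'.2) := eq_comm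
      simp only [h2]
    rw [Finset.sum_congr rfl h1, Finset.sum_comm]
    refine Finset.sum_congr rfl fun p' _ => ?_
    unfold nn
    rw [Finset.card_filter, Finset.sum_product (s := B p.1 ×ˢ B p.2) (t := B p'.1 ×ˢ B p'.2)]
  have hbound : ∀ p ∈ G, ∑ p' ∈ G, (nn B p.1 p.2 p'.1 p'.2).card ≤
      ρ ^ 2 * M ^ 2 + T.card ^ 2 * M := by
    intro p hp
    obtain ⟨g1, g2, g3, g4⟩ := hGm p hp
    set R := Rl h T p.1 p.2 with hR
    have h1 : ∀ p' ∈ G, (nn B p.1 p.2 p'.1 p'.2).card ≤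
        (if p' ∈ R ×ˢ R then M ^ 2 else 0) + M := by
      intro p' hp'
      obtain ⟨k1, k2, -, -⟩ := hGm p' hp'
      by_cases h2 : p' ∈ R ×ˢ R
      · rw [if_pos h2]
        have h3 := nn_le_sq (r := p'.1) (v := p'.2) hH hh hT0 hsep hB g1 g2 (Ne.symm g3)
        rw [hBM _ k1, hBM _ k2, ← sq] at h3
        omega
      · rw [if_neg h2, zero_add]
        rw [Finset.mem_product, not_and_or] at h2
        rcases h2 with h2 | h2
        · have h3 := nn_le (v := p'.2) hH hh hT0 hsep hB g1 g2 k1 (Ne.symm g3) h2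
          rwa [hBM _ k2] at h3
        · have h3 := nn_le (v := p'.1) hH hh hT0 hsep hB g1 g2 k2 (Ne.symm g3) h2
          rw [hBM _ k1] at h3
          exact (nn_swap _ _ _ _).trans h3
    refine (Finset.sum_le_sum h1).trans ?_
    rw [Finset.sum_add_distrib, Finset.sum_const, smul_eq_mul, ← Finset.sum_filter,
      Finset.sum_const, smul_eq_mul]
    refine Nat.add_le_add ?_ ?_
    · refine Nat.mul_le_mul_right _ ?_
      calc (G.filter fun p' => p' ∈ R ×ˢ R).card ≤ (R ×ˢ R).card := by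
            refine Finset.card_le_card fun q hq => (Finset.mem_filter.1 hq).2
        _ = R.card ^ 2 := by rw [Finset.card_product, sq]
        _ ≤ ρ ^ 2 := Nat.pow_le_pow_left g4 2
    · refine Nat.mul_le_mul_right _ ?_
      calc G.card ≤ (T ×ˢ T).card := by
            refine Finset.card_le_card ?_
            rw [hG]
            unfold goodp
            exact Finset.filter_subset _ _
        _ = T.card ^ 2 := by rw [Finset.card_product, sq]
  have hfin : (G.card * M ^ 2) ^ 2 ≤ (A + A).card * (G.card * (ρ ^ 2 * M ^ 2 + T.card ^ 2 * M)) := by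
    rw [hI, hcount] at hcs
    refine hcs.trans (Nat.mul_le_mul_left _ ?_)
    rw [← smul_eq_mul, ← Finset.sum_const]
    exact Finset.sum_le_sum hbound
  have hGpos : 0 < G.card := by
    have : 0 < T.card := hT.card_pos
    by_contra h1
    have h2 : G.card = 0 := by omega
    rw [h2] at hgood
    have h3 : 0 < T.card ^ 2 := by positivity
    omega
  have h5 : G.card * M ^ 3 ≤ (A + A).card * (ρ ^ 2 * M + T.card ^ 2) := by
    have h6 : (G.card * M) * (G.card * M ^ 3) ≤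
        (G.card * M) * ((A + A).card * (ρ ^ 2 * M + T.card ^ 2)) := by
      calc (G.card * M) * (G.card * M ^ 3) = (G.card * M ^ 2) ^ 2 := by ring
        _ ≤ _ := hfin
        _ = _ := by ring
    exact Nat.le_of_mul_le_mul_left h6 (Nat.mul_pos hGpos hM)
  calc T.card ^ 2 * M ^ 3 ≤ (2 * G.card) * M ^ 3 := Nat.mul_le_mul_right _ hgood
    _ = 2 * (G.card * M ^ 3) := by ring
    _ ≤ _ := Nat.mul_le_mul_left _ h5

end

end Pool.Agent.Zk30.DL
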