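import Mathlib
import Pool.Agent.Zk30.DL.Sel

/-!
# Sums along the good pairs, improved count
-/

set_option autoImplicit false

namespace Pool.Agent.Zk30.DL

open Pool.Agent.TH551.SU Pool.Agent.TH539.MQ Pool.Agent.Zk30.FU
open scoped Pointwise

section

variable {H h : ℕ} {T : Finset ℚ} {B : ℚ → Finset ℚ}

lemma pow48 (hH : 1 ≤ H) : 4 * H ^ 4 ≤ 4 * H ^ 8 :=
  Nat.mul_le_mul_left _ (Nat.pow_le_pow_right hH (by norm_num))

/-- two solutions which are not in a common plane with small coefficients are proportional -/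
lemma prop2 (hH : 1 ≤ H) (hh : 4 * H ^ 8 ≤ h) (hT0 : ∀ t ∈ T, t ≠ 0)
    (hsep : ∀ t ∈ T, ∀ s ∈ T, t ≠ s → t / s ∉ box (h * h))
    (hB : ∀ t ∈ T, ∀ x ∈ B t, x ≠ 0 ∧ x / t ∈ box H) {t s r v : ℚ} (ht : t ∈ T) (hs : s ∈ T)
    (hr : r ∈ T) (hv : v ∈ T) (hts : t ≠ s) (hrv : r ∉ Rl h T t s) {x y z w x' y' z' w' : ℚ}
    (h1 : ((x, y), (z, w)) ∈ nn B t s r v) (h2 : ((x', y'), (z', w')) ∈ nn B t s r v) :
    x * y' = x' * y := by
  obtain ⟨⟨hx, hy, hz, hw⟩, he⟩ := mem_nn.1 h1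
  obtain ⟨⟨hx', hy', hz', hw'⟩, he'⟩ := mem_nn.1 h2
  have ht0 := hT0 t ht
  have hs0 := hT0 s hs
  have hr0 := hT0 r hr
  have hv0 := hT0 v hv
  obtain ⟨hw0, hl⟩ := hB v hv w hw
  obtain ⟨hw0', hl'⟩ := hB v hv w' hw'
  have hi := (hB t ht x hx).2
  have hi' := (hB t ht x' hx').2
  have hj := (hB s hs y hy).2
  have hj' := (hB s hs y' hy').2
  have hk := (hB r hr z hz).2
  have hk' := (hB r hr z' hz').2
  -- elimination of `v`
  have hlin : (w' * x - w * x') + (w' * y - w * y') = w' * z - w * z' := by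
    linear_combination w' * he - w * he'
  have hbx : ∀ {a b : ℚ} {τ : ℚ}, τ ≠ 0 → a / τ ∈ box H → b / τ ∈ box H →
      (w' / v) * (a / τ) - (w / v) * (b / τ) ∈ box (2 * (H * H * (H * H))) := fun _ ha hb =>
    box_sub' (box_mul hl' ha) (box_mul hl hb)
  have hle : 2 * (H * H * (H * H)) * (2 * (H * H * (H * H))) ≤ h := by
    calc 2 * (H * H * (H * H)) * (2 * (H * H * (H * H))) = 4 * H ^ 8 := by ring
      _ ≤ h := hh
  have hz2 : w' * z = w * z' := by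
    by_contra hne
    apply hrv
    have h6 : (w' / v) * (z / r) - (w / v) * (z' / r) ≠ 0 := by
      have : (w' / v) * (z / r) - (w / v) * (z' / r) = (w' * z - w * z') / (v * r) := by
        field_simp
      rw [this]
      exact div_ne_zero (sub_ne_zero.2 hne) (mul_ne_zero hv0 hr0)
    refine mem_Rl.2 ⟨hr, _, box_mono hle (box_mul (hbx ht0 hi hi') (inv_mem_box (hbx hr0 hk hk') h6)),
      _, box_mono hle (box_mul (hbx hs0 hj hj') (inv_mem_box (hbx hr0 hk hk') h6)), ?_⟩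
    have e1 : (w' / v) * (z / r) - (w / v) * (z' / r) = (w' * z - w * z') / (v * r) := by
      field_simp
    have e2 : (w' / v) * (x / t) - (w / v) * (x' / t) = (w' * x - w * x') / (v * t) := by
      field_simp
    have e3 : (w' / v) * (y / s) - (w / v) * (y' / s) = (w' * y - w * y') / (v * s) := by
      field_simp
    have h8 : w' * z - w * z' ≠ 0 := sub_ne_zero.2 hne
    rw [e1, e2, e3]
    field_simp
    linear_combination -hlin
  have hx2 : w' * x = w * x' := by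
    by_contra hne
    refine hsep t ht s hs hts ?_
    have h6 : (w' / v) * (x / t) - (w / v) * (x' / t) ≠ 0 := by
      have : (w' / v) * (x / t) - (w / v) * (x' / t) = (w' * x - w * x') / (v * t) := by
        field_simp
      rw [this]
      exact div_ne_zero (sub_ne_zero.2 hne) (mul_ne_zero hv0 ht0)
    have e4 : t / s = ((w / v) * (y' / s) - (w' / v) * (y / s)) *
        ((w' / v) * (x / t) - (w / v) * (x' / t))⁻¹ := by
      rw [eq_mul_inv_iff_mul_eq₀ h6]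
      field_simp
      linear_combination hlin + hz2
    rw [e4]
    refine box_mono ?_ (box_mul (box_sub' (box_mul hl hj') (box_mul hl' hj))
      (inv_mem_box (hbx ht0 hi hi') h6))
    exact hle.trans (Nat.le_mul_self h)
  have hy2 : w' * y = w * y' := by linear_combination hlin + hz2 - hx2
  have hww : w * w' ≠ 0 := mul_ne_zero hw0 hw0'
  apply mul_left_cancel₀ hww
  calc w * w' * (x * y') = (w' * x) * (w * y') := by ring
    _ = (w * x') * (w' * y) := by rw [hx2, hy2]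
    _ = w * w' * (x' * y) := by ring

lemma mem_nn_swap {t s r v : ℚ} {x y z w : ℚ} (h1 : ((x, y), (z, w)) ∈ nn B t s r v) :
    ((x, y), (w, z)) ∈ nn B t s v r := by
  obtain ⟨⟨a, b, c, d⟩, e⟩ := mem_nn.1 h1
  exact mem_nn.2 ⟨⟨a, b, d, c⟩, by rw [e, add_comm]⟩

/-- for given `r` and a given ratio of `x`, `y` there are few `v` -/
lemma few_v (hH : 1 ≤ H) (hh : 4 * H ^ 8 ≤ h) (hT0 : ∀ t ∈ T, t ≠ 0)
    (hB : ∀ t ∈ T, ∀ x ∈ B t, x ≠ 0 ∧ x / t ∈ box H) {t s r v v' : ℚ} (ht : t ∈ T) (hs : s ∈ T)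
    (hr : r ∈ T) (hv : v ∈ T) (hv' : v' ∈ T) {x y z w x' y' z' w' : ℚ}
    (h1 : ((x, y), (z, w)) ∈ nn B t s r v) (h2 : ((x', y'), (z', w')) ∈ nn B t s r v')
    (hq : x / y = x' / y') : v' ∈ Rl h T r v := by
  obtain ⟨⟨hx, hy, hz, hw⟩, he⟩ := mem_nn.1 h1
  obtain ⟨⟨hx', hy', hz', hw'⟩, he'⟩ := mem_nn.1 h2
  have ht0 := hT0 t ht
  have hs0 := hT0 s hs
  have hr0 := hT0 r hr
  have hv0 := hT0 v hv
  have hv0' := hT0 v' hv'
  obtain ⟨hw0, hl⟩ := hB v hv w hw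
  obtain ⟨hw0', hl'⟩ := hB v' hv' w' hw'
  obtain ⟨hx0, hi⟩ := hB t ht x hx
  obtain ⟨hx0', hi'⟩ := hB t ht x' hx'
  obtain ⟨hy0, hj⟩ := hB s hs y hy
  obtain ⟨hy0', hj'⟩ := hB s hs y' hy'
  have hk := (hB r hr z hz).2
  have hk' := (hB r hr z' hz').2
  have hlinv : (w' / v')⁻¹ ∈ box H := inv_mem_box hl' (div_ne_zero hw0' hv0')
  have hκ : (x' / t) * (x / t)⁻¹ ∈ box (H * H) :=
    box_mul hi' (inv_mem_box hi (div_ne_zero hx0 ht0))
  have hκe : (x' / t) * (x / t)⁻¹ = x' / x := by field_simp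
  rw [hκe] at hκ
  have hyy : y' = x' / x * y := by
    rw [div_eq_div_iff hy0 hy0'] at hq
    field_simp
    linear_combination hq
  refine mem_Rl.2 ⟨hv', ((x' / x) * (z / r) - z' / r) * (w' / v')⁻¹, ?_,
    ((x' / x) * (w / v)) * (w' / v')⁻¹, ?_, ?_⟩
  · refine box_mono ?_ (box_mul (box_sub' (box_mul hκ hk) hk') hlinv)
    calc 2 * (H * H * H * H) * H = 2 * H ^ 5 := by ring
      _ ≤ 4 * H ^ 8 := Nat.mul_le_mul (by norm_num) (Nat.pow_le_pow_right hH (by norm_num))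
      _ ≤ h := hh
  · refine box_mono ?_ (box_mul (box_mul hκ hl) hlinv)
    calc H * H * H * H = 1 * H ^ 4 := by ring
      _ ≤ 4 * H ^ 8 := Nat.mul_le_mul (by norm_num) (Nat.pow_le_pow_right hH (by norm_num))
      _ ≤ h := hh
  · have e1 : x' / x * x + x' / x * y = x' / x * (z + w) := by rw [← mul_add, he]
    rw [div_mul_cancel₀ _ hx0, ← hyy, he'] at e1
    -- z' + w' = κ (z + w)
    have e2 : ((x' / x) * (z / r) - z' / r) * (w' / v')⁻¹ * r +
        (x' / x) * (w / v) * (w' / v')⁻¹ * v = (x' / x * (z + w) - z') * (w' / v')⁻¹ := by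
      field_simp
      ring
    rw [e2, ← e1, inv_div]
    field_simp
    ring

theorem sumside2 (hH : 1 ≤ H) (hh : 4 * H ^ 8 ≤ h) (hT0 : ∀ t ∈ T, t ≠ 0) (ρ M : ℕ) (E0 : ℝ)
    (hE0 : ∀ t ∈ T, ∀ s ∈ T, ((((B t ×ˢ B s) ×ˢ (B t ×ˢ B s)).filter
      fun q => q.1.1 / q.1.2 = q.2.1 / q.2.2).card : ℝ) ≤ E0)
    (hsep : ∀ t ∈ T, ∀ s ∈ T, t ≠ s → t / s ∉ box (h * h))
    (hB : ∀ t ∈ T, ∀ x ∈ B t, x ≠ 0 ∧ x / t ∈ box H) (hBM : ∀ t ∈ T, (B t).card = M) (hM : 1 ≤ M)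
    (hT : T.Nonempty)
    (hgood : T.card ^ 2 ≤ 2 * (goodp h ρ T).card) (A : Finset ℚ) (hBA : ∀ t ∈ T, B t ⊆ A) :
    (T.card : ℝ) ^ 2 * (M : ℝ) ^ 4 ≤ 2 * ((A + A).card * ((ρ : ℝ) ^ 2 * (M : ℝ) ^ 2 +
      √(E0 * (ρ * (T.card : ℝ) ^ 3)))) := by
  classical
  have hh4 : 4 * H ^ 4 ≤ h := (pow48 hH).trans hh
  have hB' : ∀ t ∈ T, ∀ x ∈ B t, x / t ∈ box H := fun t ht x hx => (hB t ht x hx).2
  set G := goodp h ρ T with hG
  have hGm : ∀ p ∈ G, p.1 ∈ T ∧ p.2 ∈ T ∧ p.2 ≠ p.1 ∧ (Rl h T p.1 p.2).card ≤ ρ := by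
    intro p hp
    rw [hG] at hp
    unfold goodp at hp
    rw [Finset.mem_filter, Finset.mem_product] at hp
    exact ⟨hp.1.1, hp.1.2, hp.2.1, hp.2.2⟩
  have hGT : G ⊆ T ×ˢ T := by
    rw [hG]
    unfold goodp
    exact Finset.filter_subset _ _
  let I : Finset (Σ _ : ℚ × ℚ, ℚ × ℚ) := G.sigma fun p => B p.1 ×ˢ B p.2
  let f : (Σ _ : ℚ × ℚ, ℚ × ℚ) → ℚ := fun a => a.2.1 + a.2.2
  have hI : I.card = G.card * M ^ 2 := by
    rw [Finset.card_sigma]
    rw [Finset.sum_congr rfl (g := fun _ => M ^ 2), Finset.sum_const, smul_eq_mul]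
    intro p hp
    rw [Finset.card_product, hBM _ (hGm p hp).1, hBM _ (hGm p hp).2.1, sq]
  have hmaps : ∀ a ∈ I, f a ∈ A + A := by
    intro a ha
    obtain ⟨h1, h2⟩ := Finset.mem_sigma.1 ha
    obtain ⟨h3, h4⟩ := Finset.mem_product.1 h2
    exact Finset.add_mem_add (hBA _ (hGm _ h1).1 h3) (hBA _ (hGm _ h1).2.1 h4)
  have hcs : I.card ^ 2 ≤ (A + A).card * ∑ a ∈ I, (I.filter fun a' => f a' = f a).card := by
    have h1 : I.card = ∑ z ∈ A + A, (I.filter fun a => f a = z).card :=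
      Finset.card_eq_sum_card_fiberwise hmaps
    have h2 : ∑ a ∈ I, (I.filter fun a' => f a' = f a).card =
        ∑ z ∈ A + A, (I.filter fun a => f a = z).card ^ 2 := by
      rw [← Finset.sum_fiberwise_of_maps_to hmaps]
      refine Finset.sum_congr rfl fun z _ => ?_
      rw [Finset.sum_congr rfl (g := fun _ => (I.filter fun a => f a = z).card),
        Finset.sum_const, smul_eq_mul, sq]
      intro a ha
      rw [(Finset.mem_filter.1 ha).2]
    rw [h2, h1]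
    exact sq_sum_le_card_mul_sum_sq
  have hcount : ∑ a ∈ I, (I.filter fun a' => f a' = f a).card =
      ∑ p ∈ G, ∑ p' ∈ G, (nn B p.1 p.2 p'.1 p'.2).card := by
    rw [Finset.sum_sigma]
    refine Finset.sum_congr rfl fun p _ => ?_
    have h1 : ∀ q ∈ B p.1 ×ˢ B p.2, (I.filter fun a' => f a' = f ⟨p, q⟩).card =
        ∑ p' ∈ G, ∑ q' ∈ B p'.1 ×ˢ B p'.2, if q.1 + q.2 = q'.1 + q'.2 then 1 else 0 := by
      intro q _
      rw [Finset.card_filter, Finset.sum_sigma]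
      refine Finset.sum_congr rfl fun p' _ => Finset.sum_congr rfl fun q' _ => ?_
      have h2 : (f ⟨p', q'⟩ = f ⟨p, q⟩) ↔ (q.1 + q.2 = q'.1 + q'.2) := eq_comm
      simp only [h2]
    rw [Finset.sum_congr rfl h1, Finset.sum_comm]
    refine Finset.sum_congr rfl fun p' _ => ?_
    unfold nn
    rw [Finset.card_filter, Finset.sum_product (s := B p.1 ×ˢ B p.2) (t := B p'.1 ×ˢ B p'.2)]
  have hbound : ∀ p ∈ G, ((∑ p' ∈ G, (nn B p.1 p.2 p'.1 p'.2).card : ℕ) : ℝ) ≤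
      (ρ : ℝ) ^ 2 * (M : ℝ) ^ 2 + √(E0 * (ρ * (T.card : ℝ) ^ 3)) := by
    intro p hp
    obtain ⟨g1, g2, g3, g4⟩ := hGm p hp
    set R := Rl h T p.1 p.2 with hR
    set G1 := G.filter fun p' => p' ∈ R ×ˢ R with hG1
    set G2 := G.filter fun p' => p' ∉ R ×ˢ R ∧ (nn B p.1 p.2 p'.1 p'.2).Nonempty with hG2
    have hsplit : ∑ p' ∈ G, (nn B p.1 p.2 p'.1 p'.2).card ≤
        ∑ p' ∈ G1, (nn B p.1 p.2 p'.1 p'.2).card + ∑ p' ∈ G2, (nn B p.1 p.2 p'.1 p'.2).card := by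
      rw [← Finset.sum_filter_add_sum_filter_not G (fun p' => p' ∈ R ×ˢ R)]
      refine Nat.add_le_add le_rfl ?_
      have : G2 = (G.filter fun p' => p' ∉ R ×ˢ R).filter
          fun p' => (nn B p.1 p.2 p'.1 p'.2).Nonempty := by
        rw [hG2, Finset.filter_filter]
      rw [this]
      rw [← Finset.sum_filter_add_sum_filter_not (G.filter fun p' => p' ∉ R ×ˢ R)
        (fun p' => (nn B p.1 p.2 p'.1 p'.2).Nonempty)]
      have hz : ∑ p' ∈ (G.filter fun p' => p' ∉ R ×ˢ R).filter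
          (fun p' => ¬ (nn B p.1 p.2 p'.1 p'.2).Nonempty), (nn B p.1 p.2 p'.1 p'.2).card = 0 := by
        refine Finset.sum_eq_zero fun p' hp' => ?_
        have := (Finset.mem_filter.1 hp').2
        rw [Finset.not_nonempty_iff_eq_empty] at this
        rw [this, Finset.card_empty]
      rw [hz, add_zero]
    have hpart1 : ∑ p' ∈ G1, (nn B p.1 p.2 p'.1 p'.2).card ≤ ρ ^ 2 * M ^ 2 := by
      calc ∑ p' ∈ G1, (nn B p.1 p.2 p'.1 p'.2).card ≤ ∑ _p' ∈ G1, M ^ 2 := by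
            refine Finset.sum_le_sum fun p' hp' => ?_
            obtain ⟨k1, k2, -, -⟩ := hGm p' (Finset.mem_filter.1 hp').1
            have h3 := nn_le_sq (r := p'.1) (v := p'.2) hH hh4 hT0 hsep hB' g1 g2 (Ne.symm g3)
            rwa [hBM _ k1, hBM _ k2, ← sq] at h3
        _ = G1.card * M ^ 2 := by rw [Finset.sum_const, smul_eq_mul]
        _ ≤ ρ ^ 2 * M ^ 2 := by
            refine Nat.mul_le_mul_right _ ?_
            calc G1.card ≤ (R ×ˢ R).card :=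
                  Finset.card_le_card fun q hq => (Finset.mem_filter.1 hq).2
              _ = R.card ^ 2 := by rw [Finset.card_product, sq]
              _ ≤ ρ ^ 2 := Nat.pow_le_pow_left g4 2
    -- the second part
    have hsolex : ∀ p' ∈ G2, ∃ q, q ∈ nn B p.1 p.2 p'.1 p'.2 := fun p' hp' =>
      (Finset.mem_filter.1 hp').2.2
    choose! sol hsol using hsolex
    let q : ℚ × ℚ → ℚ := fun p' => (sol p').1.1 / (sol p').1.2
    let m : ℚ → ℕ := fun a => ((B p.1 ×ˢ B p.2).filter fun b => b.1 / b.2 = a).card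
    have hm : ∀ p' ∈ G2, (nn B p.1 p.2 p'.1 p'.2).card ≤ m (q p') := by
      intro p' hp'
      obtain ⟨hp1, hp2, hp3⟩ := Finset.mem_filter.1 hp'
      obtain ⟨k1, k2, k3, k4⟩ := hGm p' hp1
      refine Finset.card_le_card_of_injOn (fun z => z.1) ?_ ?_
      · rintro ⟨⟨x, y⟩, ⟨z, w⟩⟩ hz
        have hz := Finset.mem_coe.1 hz
        obtain ⟨⟨hx, hy, -, -⟩, -⟩ := mem_nn.1 hz
        refine Finset.mem_coe.2 (Finset.mem_filter.2 ⟨Finset.mem_product.2 ⟨hx, hy⟩, ?_⟩)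
        simp only [q]
        have hs1 := hsol p' hp'
        obtain ⟨⟨⟨x1, y1⟩, ⟨z1, w1⟩⟩, hse⟩ : ∃ e, e = sol p' := ⟨_, rfl⟩
        rw [← hse] at hs1 ⊢
        obtain ⟨⟨hx1, hy1, -, -⟩, -⟩ := mem_nn.1 hs1
        rw [div_eq_div_iff (hB _ g2 y hy).1 (hB _ g2 y1 hy1).1]
        rw [Finset.mem_product, not_and_or] at hp2
        rcases hp2 with hp2 | hp2
        · exact prop2 hH hh hT0 hsep hB g1 g2 k1 k2 (Ne.symm g3) hp2 hz hs1
        · exact prop2 hH hh hT0 hsep hB g1 g2 k2 k1 (Ne.symm g3) hp2 (mem_nn_swap hz)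
            (mem_nn_swap hs1)
      · rintro ⟨⟨x, y⟩, ⟨z, w⟩⟩ hz ⟨⟨x', y'⟩, ⟨z', w'⟩⟩ hz' he
        obtain ⟨⟨h1, h2, h3, h4⟩, h5⟩ := mem_nn.1 (Finset.mem_coe.1 hz)
        obtain ⟨⟨h1', h2', h3', h4'⟩, h5'⟩ := mem_nn.1 (Finset.mem_coe.1 hz')
        simp only [Prod.mk.injEq] at he
        obtain ⟨rfl, rfl⟩ := he
        obtain ⟨e1, e2⟩ := ind2 hH hh4 (hT0 _ k1) (hT0 _ k2) (hsep _ k1 _ k2 (Ne.symm k3))
          (hB' _ k1 z h3) (hB' _ k2 w h4) (hB' _ k1 z' h3') (hB' _ k2 w' h4') (h5.symm.trans h5')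
        rw [e1, e2]
    set Q := G2.image q with hQ
    have hsum2 : ∑ p' ∈ G2, (nn B p.1 p.2 p'.1 p'.2).card ≤
        ∑ a ∈ Q, (G2.filter fun p' => q p' = a).card * m a := by
      refine (Finset.sum_le_sum hm).trans (le_of_eq ?_)
      rw [Finset.sum_comp m q]
      rfl
    have hRq : ∀ a ∈ Q, (G2.filter fun p' => q p' = a).card ≤ T.card * ρ := by
      intro a _
      have h1 : (G2.filter fun p' => q p' = a).card =
          ∑ r ∈ T, ((G2.filter fun p' => q p' = a).filter fun p' => p'.1 = r).card :=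
        Finset.card_eq_sum_card_fiberwise fun p' hp' =>
          (hGm p' (Finset.mem_filter.1 (Finset.mem_filter.1 hp').1).1).1
      rw [h1, ← smul_eq_mul, ← Finset.sum_const]
      refine Finset.sum_le_sum fun r _ => ?_
      rcases ((G2.filter fun p' => q p' = a).filter fun p' => p'.1 = r).eq_empty_or_nonempty with
        h2 | ⟨p0, hp0⟩
      · rw [h2]; simp
      obtain ⟨h3, h4⟩ := Finset.mem_filter.1 hp0
      obtain ⟨h5, h6⟩ := Finset.mem_filter.1 h3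
      obtain ⟨k1, k2, k3, k4⟩ := hGm p0 (Finset.mem_filter.1 h5).1
      refine le_trans (Finset.card_le_card_of_injOn (fun p' => p'.2) (t := Rl h T p0.1 p0.2)
        ?_ ?_) k4
      · intro p' hp'
        obtain ⟨h3', h4'⟩ := Finset.mem_filter.1 (Finset.mem_coe.1 hp')
        obtain ⟨h5', h6'⟩ := Finset.mem_filter.1 h3'
        obtain ⟨k1', k2', -, -⟩ := hGm p' (Finset.mem_filter.1 h5').1
        have hs1 := hsol p0 h5
        have hs2 := hsol p' h5'
        simp only [q] at h6 h6'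
        obtain ⟨⟨⟨x1, y1⟩, ⟨z1, w1⟩⟩, hse⟩ : ∃ e, e = sol p0 := ⟨_, rfl⟩
        obtain ⟨⟨⟨x2, y2⟩, ⟨z2, w2⟩⟩, hse2⟩ : ∃ e, e = sol p' := ⟨_, rfl⟩
        rw [← hse] at hs1 h6
        rw [← hse2] at hs2 h6'
        rw [h4', ← h4] at hs2
        exact Finset.mem_coe.2 (few_v hH hh hT0 hB g1 g2 k1 k2 k2' hs1 hs2 (h6.trans h6'.symm))
      · intro p' hp' p'' hp'' he
        have e1 := (Finset.mem_filter.1 (Finset.mem_coe.1 hp')).2
        have e2 := (Finset.mem_filter.1 (Finset.mem_coe.1 hp'')).2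
        exact Prod.ext (e1.trans e2.symm) he
    have hRs : ∑ a ∈ Q, (G2.filter fun p' => q p' = a).card ≤ T.card ^ 2 := by
      have h1 : ∑ a ∈ Q, (G2.filter fun p' => q p' = a).card = G2.card :=
        (Finset.card_eq_sum_card_fiberwise fun p' hp' => Finset.mem_image_of_mem q hp').symm
      rw [h1]
      calc G2.card ≤ (T ×ˢ T).card := Finset.card_le_card ((Finset.filter_subset _ _).trans hGT)
        _ = T.card ^ 2 := by rw [Finset.card_product, sq]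
    have hR2 : ∑ a ∈ Q, ((G2.filter fun p' => q p' = a).card : ℝ) ^ 2 ≤ ρ * (T.card : ℝ) ^ 3 := by
      calc ∑ a ∈ Q, ((G2.filter fun p' => q p' = a).card : ℝ) ^ 2
          ≤ ∑ a ∈ Q, ((T.card : ℝ) * ρ) * (G2.filter fun p' => q p' = a).card := by
            refine Finset.sum_le_sum fun a ha => ?_
            rw [sq]
            have : ((G2.filter fun p' => q p' = a).card : ℝ) ≤ (T.card : ℝ) * ρ := by
              exact_mod_cast hRq a ha
            gcongr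
        _ = ((T.card : ℝ) * ρ) * ((∑ a ∈ Q, (G2.filter fun p' => q p' = a).card : ℕ) : ℝ) := by
            rw [← Finset.mul_sum]; push_cast; rfl
        _ ≤ ((T.card : ℝ) * ρ) * ((T.card ^ 2 : ℕ) : ℝ) := by gcongr
        _ = _ := by push_cast; ring
    have hm2 : ∑ a ∈ Q, (m a : ℝ) ^ 2 ≤ E0 := by
      refine le_trans ?_ (hE0 _ g1 _ g2)
      have h1 : ∑ a ∈ Q, m a ^ 2 = (Q.biUnion fun a =>
          ((B p.1 ×ˢ B p.2).filter fun b => b.1 / b.2 = a) ×ˢ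
          ((B p.1 ×ˢ B p.2).filter fun b => b.1 / b.2 = a)).card := by
        rw [Finset.card_biUnion]
        · refine Finset.sum_congr rfl fun a _ => ?_
          rw [Finset.card_product, sq]
        · intro a _ a' _ hne
          refine Finset.disjoint_left.2 fun z hz hz' => hne ?_
          rw [Finset.mem_product, Finset.mem_filter, Finset.mem_filter] at hz hz'
          exact hz.1.2.symm.trans hz'.1.2
      have h2 : ∑ a ∈ Q, m a ^ 2 ≤ (((B p.1 ×ˢ B p.2) ×ˢ (B p.1 ×ˢ B p.2)).filter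
          fun q => q.1.1 / q.1.2 = q.2.1 / q.2.2).card := by
        rw [h1]
        refine Finset.card_le_card fun z hz => ?_
        rw [Finset.mem_biUnion] at hz
        obtain ⟨a, _, hz⟩ := hz
        rw [Finset.mem_product, Finset.mem_filter, Finset.mem_filter] at hz
        rw [Finset.mem_filter, Finset.mem_product]
        exact ⟨⟨hz.1.1, hz.2.1⟩, hz.1.2.trans hz.2.2.symm⟩
      exact_mod_cast h2
    have hE0n : 0 ≤ E0 := le_trans (Finset.sum_nonneg fun a _ => by positivity) hm2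
    have hpart2 : ((∑ p' ∈ G2, (nn B p.1 p.2 p'.1 p'.2).card : ℕ) : ℝ) ≤
        √(E0 * (ρ * (T.card : ℝ) ^ 3)) := by
      have h1 : ((∑ p' ∈ G2, (nn B p.1 p.2 p'.1 p'.2).card : ℕ) : ℝ) ≤
          ∑ a ∈ Q, (m a : ℝ) * (G2.filter fun p' => q p' = a).card := by
        have := hsum2
        calc ((∑ p' ∈ G2, (nn B p.1 p.2 p'.1 p'.2).card : ℕ) : ℝ) ≤
            ((∑ a ∈ Q, (G2.filter fun p' => q p' = a).card * m a : ℕ) : ℝ) := by
              exact_mod_cast this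
          _ = _ := by
              push_cast
              refine Finset.sum_congr rfl fun a _ => by ring
      refine h1.trans (Real.le_sqrt_of_sq_le ?_)
      have h2 := Finset.sum_mul_sq_le_sq_mul_sq Q (fun a => (m a : ℝ))
        (fun a => ((G2.filter fun p' => q p' = a).card : ℝ))
      exact h2.trans (mul_le_mul hm2 hR2 (Finset.sum_nonneg fun a _ => by positivity) hE0n)
    calc ((∑ p' ∈ G, (nn B p.1 p.2 p'.1 p'.2).card : ℕ) : ℝ)
        ≤ ((∑ p' ∈ G1, (nn B p.1 p.2 p'.1 p'.2).card +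
          ∑ p' ∈ G2, (nn B p.1 p.2 p'.1 p'.2).card : ℕ) : ℝ) := by exact_mod_cast hsplit
      _ = ((∑ p' ∈ G1, (nn B p.1 p.2 p'.1 p'.2).card : ℕ) : ℝ) +
          ((∑ p' ∈ G2, (nn B p.1 p.2 p'.1 p'.2).card : ℕ) : ℝ) := by push_cast; rfl
      _ ≤ _ := by
          refine add_le_add ?_ hpart2
          exact_mod_cast hpart1
  have hfin : ((G.card : ℝ) * M ^ 2) ^ 2 ≤ (A + A).card * (G.card * ((ρ : ℝ) ^ 2 * (M : ℝ) ^ 2 +
      √(E0 * (ρ * (T.card : ℝ) ^ 3)))) := by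
    rw [hI, hcount] at hcs
    calc ((G.card : ℝ) * M ^ 2) ^ 2 = (((G.card * M ^ 2) ^ 2 : ℕ) : ℝ) := by push_cast; ring
      _ ≤ (((A + A).card * ∑ p ∈ G, ∑ p' ∈ G, (nn B p.1 p.2 p'.1 p'.2).card : ℕ) : ℝ) := by
          exact_mod_cast hcs
      _ = (A + A).card * ∑ p ∈ G, ((∑ p' ∈ G, (nn B p.1 p.2 p'.1 p'.2).card : ℕ) : ℝ) := by
          push_cast; rfl
      _ ≤ (A + A).card * ∑ _p ∈ G, ((ρ : ℝ) ^ 2 * (M : ℝ) ^ 2 +
            √(E0 * (ρ * (T.card : ℝ) ^ 3))) := by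
          gcongr with p hp
          exact hbound p hp
      _ = _ := by rw [Finset.sum_const, nsmul_eq_mul]
  have hGpos : 0 < G.card := by
    have : 0 < T.card := hT.card_pos
    by_contra h1
    have h2 : G.card = 0 := by omega
    rw [h2] at hgood
    have h3 : 0 < T.card ^ 2 := by positivity
    omega
  have hGr : (0 : ℝ) < G.card := by exact_mod_cast hGpos
  have h5 : (G.card : ℝ) * M ^ 4 ≤ (A + A).card * ((ρ : ℝ) ^ 2 * (M : ℝ) ^ 2 +
      √(E0 * (ρ * (T.card : ℝ) ^ 3))) := by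
    refine le_of_mul_le_mul_left ?_ hGr
    calc (G.card : ℝ) * (G.card * M ^ 4) = ((G.card : ℝ) * M ^ 2) ^ 2 := by ring
      _ ≤ _ := hfin
      _ = _ := by ring
  have h6 : (T.card : ℝ) ^ 2 ≤ 2 * G.card := by exact_mod_cast hgood
  calc (T.card : ℝ) ^ 2 * (M : ℝ) ^ 4 ≤ (2 * G.card) * (M : ℝ) ^ 4 := by gcongr
    _ = 2 * (G.card * (M : ℝ) ^ 4) := by ring
    _ ≤ _ := by gcongr

end

end Pool.Agent.Zk30.DL
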