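import Mathlib
import Pool.Agent.Zk30.DL.Sum2

/-!
# Sums along the good pairs: elements with unpopular ratios
-/

set_option autoImplicit false

namespace Pool.Agent.Zk30.DL

open Pool.Agent.TH551.SU Pool.Agent.TH539.MQ Pool.Agent.Zk30.FU
open scoped Pointwise

section

variable {H h : ℕ} {T : Finset ℚ} {B : ℚ → Finset ℚ}

/-- the number of pairs with ratio `a` -/
noncomputable def mm (X Y : Finset ℚ) (a : ℚ) : ℕ := by
  classical exact ((X ×ˢ Y).filter fun b => b.1 / b.2 = a).card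

/-- the pairs with unpopular ratio -/
noncomputable def unp (X Y : Finset ℚ) (τ : ℕ) : Finset (ℚ × ℚ) := by
  classical exact (X ×ˢ Y).filter fun b => mm X Y (b.1 / b.2) ≤ τ

lemma unp_card (X Y : Finset ℚ) (τ : ℕ) (hE : 2 * (((X ×ˢ Y) ×ˢ (X ×ˢ Y)).filter
      fun q => q.1.1 / q.1.2 = q.2.1 / q.2.2).card ≤ τ * (X.card * Y.card)) :
    X.card * Y.card ≤ 2 * (unp X Y τ).card := by
  classical
  set P := X ×ˢ Y with hP
  have hPc : P.card = X.card * Y.card := Finset.card_product _ _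
  have h1 : (P.filter fun b => mm X Y (b.1 / b.2) ≤ τ).card +
      (P.filter fun b => ¬ mm X Y (b.1 / b.2) ≤ τ).card = P.card :=
    Finset.card_filter_add_card_filter_not _
  have h2 : τ * (P.filter fun b => ¬ mm X Y (b.1 / b.2) ≤ τ).card ≤
      ((P ×ˢ P).filter fun q => q.1.1 / q.1.2 = q.2.1 / q.2.2).card := by
    have h3 : ((P ×ˢ P).filter fun q => q.1.1 / q.1.2 = q.2.1 / q.2.2).card =
        ∑ b ∈ P, mm X Y (b.1 / b.2) := by
      rw [Finset.card_filter, Finset.sum_product]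
      refine Finset.sum_congr rfl fun b _ => ?_
      unfold mm
      rw [Finset.card_filter]
      refine Finset.sum_congr rfl fun b' _ => ?_
      have : (b.1 / b.2 = b'.1 / b'.2) ↔ (b'.1 / b'.2 = b.1 / b.2) := eq_comm
      simp only [this]
    rw [h3, mul_comm, ← smul_eq_mul, ← Finset.sum_const]
    calc ∑ _b ∈ P.filter fun b => ¬ mm X Y (b.1 / b.2) ≤ τ, τ
        ≤ ∑ b ∈ P.filter fun b => ¬ mm X Y (b.1 / b.2) ≤ τ, mm X Y (b.1 / b.2) :=
          Finset.sum_le_sum fun b hb => (not_le.1 (Finset.mem_filter.1 hb).2).le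
      _ ≤ ∑ b ∈ P, mm X Y (b.1 / b.2) :=
          Finset.sum_le_sum_of_subset (Finset.filter_subset _ _)
  have h4 : unp X Y τ = P.filter fun b => mm X Y (b.1 / b.2) ≤ τ := rfl
  rw [h4, ← hPc]
  rw [← hPc] at hE
  rcases Nat.eq_zero_or_pos τ with h5 | h5
  · -- all energies vanish
    rw [h5, zero_mul] at hE
    have h6 : P.card = 0 := by
      by_contra h7
      obtain ⟨b, hb⟩ := Finset.card_pos.1 (Nat.pos_of_ne_zero h7)
      have h8 : (b, b) ∈ (P ×ˢ P).filter fun q => q.1.1 / q.1.2 = q.2.1 / q.2.2 :=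
        Finset.mem_filter.2 ⟨Finset.mem_product.2 ⟨hb, hb⟩, rfl⟩
      have h9 := Finset.card_pos.2 ⟨_, h8⟩
      omega
    omega
  · have h6 : 2 * (τ * (P.filter fun b => ¬ mm X Y (b.1 / b.2) ≤ τ).card) ≤ τ * P.card := by
      omega
    have h7 : τ * (2 * (P.filter fun b => ¬ mm X Y (b.1 / b.2) ≤ τ).card) ≤ τ * P.card := by
      calc _ = 2 * (τ * (P.filter fun b => ¬ mm X Y (b.1 / b.2) ≤ τ).card) := by ring
        _ ≤ _ := h6
    have h8 := Nat.le_of_mul_le_mul_left h7 h5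
    omega

theorem sumside3 (hH : 1 ≤ H) (hh : 4 * H ^ 8 ≤ h) (hT0 : ∀ t ∈ T, t ≠ 0) (ρ M τ : ℕ)
    (hE : ∀ t ∈ T, ∀ s ∈ T, 2 * (((B t ×ˢ B s) ×ˢ (B t ×ˢ B s)).filter
      fun q => q.1.1 / q.1.2 = q.2.1 / q.2.2).card ≤ τ * M ^ 2)
    (hsep : ∀ t ∈ T, ∀ s ∈ T, t ≠ s → t / s ∉ box (h * h))
    (hB : ∀ t ∈ T, ∀ x ∈ B t, x ≠ 0 ∧ x / t ∈ box H) (hBM : ∀ t ∈ T, (B t).card = M)
    (hT : T.Nonempty)
    (hgood : T.card ^ 2 ≤ 2 * (goodp h ρ T).card) (A : Finset ℚ) (hBA : ∀ t ∈ T, B t ⊆ A) :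
    T.card ^ 2 * M ^ 4 ≤ 8 * ((A + A).card * (ρ ^ 2 * M ^ 2 + τ * T.card ^ 2)) := by
  classical
  have hh4 : 4 * H ^ 4 ≤ h := (pow48 hH).trans hh
  have hB' : ∀ t ∈ T, ∀ x ∈ B t, x / t ∈ box H := fun t ht x hx => (hB t ht x hx).2
  set G := goodp h ρ T with hG
  have hGm : ∀ p ∈ G, p.1 ∈ T ∧ p.2 ∈ T ∧ p.2 ≠ p.1 ∧ (Rl h T p.1 p.2).card ≤ ρ := by
    intro p hp
    rw [hG] at hp
    unfold goodp at hp
    rw [Finset.mem_filter, Finset.mem_product] at hp
    exact ⟨hp.1.1, hp.1.2, hp.2.1, hp.2.2⟩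
  have hGT : G ⊆ T ×ˢ T := by
    rw [hG]
    unfold goodp
    exact Finset.filter_subset _ _
  let Un : ℚ × ℚ → Finset (ℚ × ℚ) := fun p => unp (B p.1) (B p.2) τ
  have hUnm : ∀ p, ∀ b ∈ Un p, b.1 ∈ B p.1 ∧ b.2 ∈ B p.2 ∧
      mm (B p.1) (B p.2) (b.1 / b.2) ≤ τ := by
    intro p b hb
    have hb' := hb
    simp only [Un] at hb'
    unfold unp at hb'
    rw [Finset.mem_filter, Finset.mem_product] at hb'
    exact ⟨hb'.1.1, hb'.1.2, hb'.2⟩
  let I : Finset (Σ _ : ℚ × ℚ, ℚ × ℚ) := G.sigma Un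
  let f : (Σ _ : ℚ × ℚ, ℚ × ℚ) → ℚ := fun a => a.2.1 + a.2.2
  have hI : G.card * M ^ 2 ≤ 2 * I.card := by
    rw [Finset.card_sigma, Finset.mul_sum, ← smul_eq_mul, ← Finset.sum_const]
    refine Finset.sum_le_sum fun p hp => ?_
    obtain ⟨k1, k2, -, -⟩ := hGm p hp
    have h1 := unp_card (B p.1) (B p.2) τ (by
      rw [hBM _ k1, hBM _ k2, ← sq]
      exact hE _ k1 _ k2)
    rwa [hBM _ k1, hBM _ k2, ← sq] at h1
  have hmaps : ∀ a ∈ I, f a ∈ A + A := by
    intro a ha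
    obtain ⟨h1, h2⟩ := Finset.mem_sigma.1 ha
    obtain ⟨h3, h4, -⟩ := hUnm _ _ h2
    exact Finset.add_mem_add (hBA _ (hGm _ h1).1 h3) (hBA _ (hGm _ h1).2.1 h4)
  have hcs : I.card ^ 2 ≤ (A + A).card * ∑ a ∈ I, (I.filter fun a' => f a' = f a).card := by
    have h1 : I.card = ∑ z ∈ A + A, (I.filter fun a => f a = z).card :=
      Finset.card_eq_sum_card_fiberwise hmaps
    have h2 : ∑ a ∈ I, (I.filter fun a' => f a' = f a).card =
        ∑ z ∈ A + A, (I.filter fun a => f a = z).card ^ 2 := by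
      rw [← Finset.sum_fiberwise_of_maps_to hmaps]
      refine Finset.sum_congr rfl fun z _ => ?_
      rw [Finset.sum_congr rfl (g := fun _ => (I.filter fun a => f a = z).card),
        Finset.sum_const, smul_eq_mul, sq]
      intro a ha
      rw [(Finset.mem_filter.1 ha).2]
    rw [h2, h1]
    exact sq_sum_le_card_mul_sum_sq
  -- solutions with the first pair unpopular
  let N' : ℚ × ℚ → ℚ × ℚ → Finset ((ℚ × ℚ) × (ℚ × ℚ)) := fun p p' =>
    (nn B p.1 p.2 p'.1 p'.2).filter fun z => z.1 ∈ Un p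
  have hcount : ∑ a ∈ I, (I.filter fun a' => f a' = f a).card ≤
      ∑ p ∈ G, ∑ p' ∈ G, (N' p p').card := by
    rw [Finset.sum_sigma]
    refine Finset.sum_le_sum fun p _ => ?_
    have h1 : ∀ q ∈ Un p, (I.filter fun a' => f a' = f ⟨p, q⟩).card ≤
        ∑ p' ∈ G, ∑ q' ∈ B p'.1 ×ˢ B p'.2, if q.1 + q.2 = q'.1 + q'.2 then 1 else 0 := by
      intro q _
      rw [Finset.card_filter, Finset.sum_sigma]
      refine Finset.sum_le_sum fun p' _ => ?_
      have h2 : ∀ q', (f ⟨p', q'⟩ = f ⟨p, q⟩) ↔ (q.1 + q.2 = q'.1 + q'.2) := fun q' => eq_comm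
      simp only [h2]
      refine Finset.sum_le_sum_of_subset fun b hb => ?_
      obtain ⟨h3, h4, -⟩ := hUnm _ _ hb
      exact Finset.mem_product.2 ⟨h3, h4⟩
    refine (Finset.sum_le_sum h1).trans ?_
    rw [Finset.sum_comm]
    refine Finset.sum_le_sum fun p' _ => le_of_eq ?_
    simp only [N']
    unfold nn
    rw [Finset.filter_filter, Finset.card_filter,
      Finset.sum_product (s := B p.1 ×ˢ B p.2) (t := B p'.1 ×ˢ B p'.2)]
    have h5 : Un p = (B p.1 ×ˢ B p.2).filter fun b => b ∈ Un p := by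
      ext b
      rw [Finset.mem_filter]
      constructor
      · intro hb
        obtain ⟨h3, h4, -⟩ := hUnm _ _ hb
        exact ⟨Finset.mem_product.2 ⟨h3, h4⟩, hb⟩
      · exact fun h => h.2
    rw [h5, Finset.sum_filter]
    refine Finset.sum_congr rfl fun b _ => ?_
    by_cases hb : b ∈ Un p
    · rw [if_pos hb]
      refine Finset.sum_congr rfl fun b' _ => ?_
      have hb' : b ∈ (B p.1 ×ˢ B p.2).filter fun b => b ∈ Un p := by rw [← h5]; exact hb
      simp only [hb', and_true]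
    · rw [if_neg hb]
      symm
      refine Finset.sum_eq_zero fun b' _ => ?_
      rw [if_neg]
      rintro ⟨-, h6⟩
      apply hb
      rw [← h5] at h6
      exact h6
  have hbound : ∀ p ∈ G, ∑ p' ∈ G, (N' p p').card ≤ ρ ^ 2 * M ^ 2 + τ * T.card ^ 2 := by
    intro p hp
    obtain ⟨g1, g2, g3, g4⟩ := hGm p hp
    set R := Rl h T p.1 p.2 with hR
    have h1 : ∀ p' ∈ G, (N' p p').card ≤ (if p' ∈ R ×ˢ R then M ^ 2 else 0) + τ := by
      intro p' hp'
      obtain ⟨k1, k2, k3, k4⟩ := hGm p' hp'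
      have hsub : (N' p p').card ≤ (nn B p.1 p.2 p'.1 p'.2).card :=
        Finset.card_le_card (Finset.filter_subset _ _)
      by_cases hp2 : p' ∈ R ×ˢ R
      · rw [if_pos hp2]
        have h3 := nn_le_sq (r := p'.1) (v := p'.2) hH hh4 hT0 hsep hB' g1 g2 (Ne.symm g3)
        rw [hBM _ k1, hBM _ k2, ← sq] at h3
        omega
      · rw [if_neg hp2, zero_add]
        rcases (N' p p').eq_empty_or_nonempty with h4 | ⟨⟨⟨x0, y0⟩, ⟨z0, w0⟩⟩, hz0⟩
        · rw [h4, Finset.card_empty]; exact Nat.zero_le _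
        obtain ⟨hs1, hu1⟩ := Finset.mem_filter.1 hz0
        obtain ⟨hx1, hy1, hmm⟩ := hUnm _ _ hu1
        refine le_trans ?_ hmm
        unfold mm
        refine Finset.card_le_card_of_injOn (fun z => z.1) ?_ ?_
        · rintro ⟨⟨x, y⟩, ⟨z, w⟩⟩ hz
          have hz := (Finset.mem_filter.1 (Finset.mem_coe.1 hz)).1
          obtain ⟨⟨hx, hy, -, -⟩, -⟩ := mem_nn.1 hz
          refine Finset.mem_coe.2 (Finset.mem_filter.2 ⟨Finset.mem_product.2 ⟨hx, hy⟩, ?_⟩)
          simp only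
          rw [div_eq_div_iff (hB _ g2 y hy).1 (hB _ g2 y0 hy1).1]
          rw [Finset.mem_product, not_and_or] at hp2
          rcases hp2 with hp2 | hp2
          · exact prop2 hH hh hT0 hsep hB g1 g2 k1 k2 (Ne.symm g3) hp2 hz hs1
          · exact prop2 hH hh hT0 hsep hB g1 g2 k2 k1 (Ne.symm g3) hp2 (mem_nn_swap hz)
              (mem_nn_swap hs1)
        · rintro ⟨⟨x, y⟩, ⟨z, w⟩⟩ hz ⟨⟨x', y'⟩, ⟨z', w'⟩⟩ hz' he
          have hz := (Finset.mem_filter.1 (Finset.mem_coe.1 hz)).1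
          have hz' := (Finset.mem_filter.1 (Finset.mem_coe.1 hz')).1
          obtain ⟨⟨h1, h2, h3, h4⟩, h5⟩ := mem_nn.1 hz
          obtain ⟨⟨h1', h2', h3', h4'⟩, h5'⟩ := mem_nn.1 hz'
          simp only [Prod.mk.injEq] at he
          obtain ⟨rfl, rfl⟩ := he
          obtain ⟨e1, e2⟩ := ind2 hH hh4 (hT0 _ k1) (hT0 _ k2) (hsep _ k1 _ k2 (Ne.symm k3))
            (hB' _ k1 z h3) (hB' _ k2 w h4) (hB' _ k1 z' h3') (hB' _ k2 w' h4')
            (h5.symm.trans h5')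
          rw [e1, e2]
    refine (Finset.sum_le_sum h1).trans ?_
    rw [Finset.sum_add_distrib, Finset.sum_const, smul_eq_mul, ← Finset.sum_filter,
      Finset.sum_const, smul_eq_mul]
    refine Nat.add_le_add ?_ ?_
    · refine Nat.mul_le_mul_right _ ?_
      calc (G.filter fun p' => p' ∈ R ×ˢ R).card ≤ (R ×ˢ R).card := by
            refine Finset.card_le_card fun q hq => (Finset.mem_filter.1 hq).2
        _ = R.card ^ 2 := by rw [Finset.card_product, sq]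
        _ ≤ ρ ^ 2 := Nat.pow_le_pow_left g4 2
    · rw [mul_comm]
      refine Nat.mul_le_mul_left _ ?_
      calc G.card ≤ (T ×ˢ T).card := Finset.card_le_card hGT
        _ = T.card ^ 2 := by rw [Finset.card_product, sq]
  have hfin : I.card ^ 2 ≤ (A + A).card * (G.card * (ρ ^ 2 * M ^ 2 + τ * T.card ^ 2)) := by
    refine hcs.trans (Nat.mul_le_mul_left _ (hcount.trans ?_))
    rw [← smul_eq_mul, ← Finset.sum_const]
    exact Finset.sum_le_sum hbound
  have hGpos : 0 < G.card := by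
    have : 0 < T.card := hT.card_pos
    by_contra h1
    have h2 : G.card = 0 := by omega
    rw [h2] at hgood
    have h3 : 0 < T.card ^ 2 := by positivity
    omega
  have h5 : G.card * M ^ 4 ≤ 4 * ((A + A).card * (ρ ^ 2 * M ^ 2 + τ * T.card ^ 2)) := by
    refine Nat.le_of_mul_le_mul_left ?_ hGpos
    calc G.card * (G.card * M ^ 4) = (G.card * M ^ 2) ^ 2 := by ring
      _ ≤ (2 * I.card) ^ 2 := Nat.pow_le_pow_left hI 2
      _ = 4 * I.card ^ 2 := by ring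
      _ ≤ 4 * ((A + A).card * (G.card * (ρ ^ 2 * M ^ 2 + τ * T.card ^ 2))) :=
          Nat.mul_le_mul_left _ hfin
      _ = _ := by ring
  calc T.card ^ 2 * M ^ 4 ≤ (2 * G.card) * M ^ 4 := Nat.mul_le_mul_right _ hgood
    _ = 2 * (G.card * M ^ 4) := by ring
    _ ≤ 2 * (4 * ((A + A).card * (ρ ^ 2 * M ^ 2 + τ * T.card ^ 2))) := Nat.mul_le_mul_left _ h5
    _ = _ := by ring

end

end Pool.Agent.Zk30.DL
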