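import Mathlib
import Pool.Agent.Zk30.DL.Sum3

/-!
# Sets covered by few dilates of an interval of polynomial length
-/

set_option autoImplicit false

namespace Pool.Agent.Zk30.DL

open Pool.Agent.TH551.SU Pool.Agent.TH539.MQ Pool.Agent.Zk30.FU
open scoped Pointwise

lemma log_pow_bound (j : ℕ) (δ : ℝ) (hδ : 0 < δ) :
    ∃ C : ℝ, 1 ≤ C ∧ ∀ x : ℝ, 1 ≤ x → (1 + Real.log x) ^ j ≤ C * x ^ δ := by
  set δ' : ℝ := δ / (j + 1) with hδ'
  have hδ0 : 0 < δ' := by positivity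
  refine ⟨(1 + 1 / δ') ^ j, one_le_pow₀ (by
    have : 0 < 1 / δ' := by positivity
    linarith), fun x hx => ?_⟩
  have hx0 : 0 ≤ x := by linarith
  have h1 : Real.log x ≤ x ^ δ' / δ' := Real.log_le_rpow_div hx0 hδ0
  have h2 : (1 : ℝ) ≤ x ^ δ' := Real.one_le_rpow hx hδ0.le
  have h3 : 1 + Real.log x ≤ (1 + 1 / δ') * x ^ δ' := by
    rw [add_mul, one_mul, one_div_mul_eq_div]
    linarith
  have h4 : 0 ≤ 1 + Real.log x := by
    have := Real.log_nonneg hx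
    linarith
  calc (1 + Real.log x) ^ j ≤ ((1 + 1 / δ') * x ^ δ') ^ j := pow_le_pow_left₀ h4 h3 j
    _ = (1 + 1 / δ') ^ j * (x ^ δ') ^ j := mul_pow _ _ _
    _ ≤ (1 + 1 / δ') ^ j * x ^ δ := by
        refine mul_le_mul_of_nonneg_left ?_ (by positivity)
        rw [← Real.rpow_natCast, ← Real.rpow_mul hx0]
        refine Real.rpow_le_rpow_of_exponent_le hx ?_
        rw [hδ', div_mul_eq_mul_div, div_le_iff₀ (by positivity)]
        nlinarith

lemma harm (N : ℕ) : ∑ M ∈ Finset.Icc 1 N, (1 : ℝ) / M ≤ 1 + Real.log N := by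
  have h := harmonic_le_one_add_log N
  rw [harmonic_eq_sum_Icc] at h
  push_cast at h
  simpa [one_div] using h

lemma e0 {K1 ε1 : ℝ} (hK1 : 0 < K1) (hrr : ∀ R : ℕ, 1 ≤ R → ∀ X : Finset ℚ, (∀ x ∈ X, x ≠ 0) →
    ∑ q ∈ bx R, (rr X q : ℝ) ^ 2 ≤ K1 * ((R : ℝ) * X.card) ^ ε1 * (X.card : ℝ) ^ 2)
    (R : ℕ) (hR : 1 ≤ R) (X Y : Finset ℚ) (M : ℕ) (hX0 : ∀ x ∈ X, x ≠ 0) (hY0 : ∀ x ∈ Y, x ≠ 0)
    (hXM : X.card = M) (hYM : Y.card = M) (hXR : ∀ x ∈ X, ∀ x' ∈ X, x / x' ∈ box R) :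
    ((((X ×ˢ Y) ×ˢ (X ×ˢ Y)).filter fun q => q.1.1 / q.1.2 = q.2.1 / q.2.2).card : ℝ) ≤
      K1 * ((R : ℝ) * M) ^ ε1 * (M : ℝ) ^ 2 := by
  classical
  have h1 : (((X ×ˢ Y) ×ˢ (X ×ˢ Y)).filter fun q => q.1.1 / q.1.2 = q.2.1 / q.2.2).card ≤
      (QQ X Y R).card := by
    refine Finset.card_le_card_of_injOn (fun q => ((q.1.1, q.2.2), (q.2.1, q.1.2))) ?_ ?_
    · rintro ⟨⟨x, y⟩, ⟨x', y'⟩⟩ hq
      obtain ⟨h2, h3⟩ := Finset.mem_filter.1 (Finset.mem_coe.1 hq)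
      rw [Finset.mem_product, Finset.mem_product, Finset.mem_product] at h2
      obtain ⟨⟨hx, hy⟩, ⟨hx', hy'⟩⟩ := h2
      simp only at hx hy hx' hy' h3
      refine Finset.mem_coe.2 ?_
      unfold QQ
      rw [Finset.mem_filter, Finset.mem_product, Finset.mem_product, Finset.mem_product]
      refine ⟨⟨⟨hx, hy'⟩, ⟨hx', hy⟩⟩, ?_, hXR x hx x' hx'⟩
      rwa [div_eq_div_iff (hY0 y hy) (hY0 y' hy')] at h3
    · rintro ⟨⟨x, y⟩, ⟨x', y'⟩⟩ _ ⟨⟨a, b⟩, ⟨a', b'⟩⟩ _ he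
      simp only [Prod.mk.injEq] at he ⊢
      tauto
  have h2 : (((QQ X Y R).card : ℕ) : ℝ) ≤ ∑ q ∈ bx R, (rr X q : ℝ) * rr Y q := by
    exact_mod_cast QQ_le X Y R hX0
  have h3 := Finset.sum_mul_sq_le_sq_mul_sq (bx R) (fun q => (rr X q : ℝ)) (fun q => (rr Y q : ℝ))
  have hx := hrr R hR X hX0
  have hy := hrr R hR Y hY0
  rw [hXM] at hx
  rw [hYM] at hy
  have h4 : (∑ q ∈ bx R, (rr X q : ℝ) * rr Y q) ^ 2 ≤
      (K1 * ((R : ℝ) * M) ^ ε1 * (M : ℝ) ^ 2) ^ 2 := by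
    refine h3.trans ((mul_le_mul hx hy (Finset.sum_nonneg fun q _ => by positivity)
      (by positivity)).trans (le_of_eq (by ring)))
  have h5 := le_of_sq_le_sq h4 (by positivity)
  calc _ ≤ (((QQ X Y R).card : ℕ) : ℝ) := by exact_mod_cast h1
    _ ≤ _ := h2
    _ ≤ _ := h5

lemma numS {n κ S k M K c1 C3 : ℝ} (hn : 0 < n) (hk : 0 < k) (hM : 0 < M) (hκ : 1 ≤ κ)
    (hS : 0 ≤ S) (hc1 : 0 < c1) (hC3 : 0 < C3) (ha : c1 * n ≤ κ ^ 2 * (k * M))
    (hmain : k ^ 2 * M ^ 4 ≤ C3 * κ ^ 2 * S * max (M ^ 2) (k ^ 2)) (hkK : k ≤ K) :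
    min (c1 ^ 2) (c1 ^ 4) / C3 * min (n ^ 2) ((n / K) ^ 4) ≤ κ ^ 10 * S := by
  have hκ0 : 0 < κ := by linarith
  have hK : 0 < K := by linarith
  have hm0 : 0 < min (c1 ^ 2) (c1 ^ 4) := lt_min (by positivity) (by positivity)
  rcases le_total (k ^ 2) (M ^ 2) with h | h
  · rw [max_eq_left h] at hmain
    have h1 : k ^ 2 * M ^ 2 ≤ C3 * κ ^ 2 * S := by
      have h2 : M ^ 2 * (k ^ 2 * M ^ 2) ≤ M ^ 2 * (C3 * κ ^ 2 * S) := by
        calc M ^ 2 * (k ^ 2 * M ^ 2) = k ^ 2 * M ^ 4 := by ring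
          _ ≤ _ := hmain
          _ = _ := by ring
      exact le_of_mul_le_mul_left h2 (by positivity)
    have h3 : (c1 * n) ^ 2 ≤ (κ ^ 2 * (k * M)) ^ 2 := pow_le_pow_left₀ (by positivity) ha 2
    have h4 : c1 ^ 2 * n ^ 2 ≤ C3 * (κ ^ 10 * S) := by
      calc c1 ^ 2 * n ^ 2 = (c1 * n) ^ 2 := by ring
        _ ≤ (κ ^ 2 * (k * M)) ^ 2 := h3
        _ = κ ^ 4 * (k ^ 2 * M ^ 2) := by ring
        _ ≤ κ ^ 4 * (C3 * κ ^ 2 * S) := by gcongr
        _ = C3 * (κ ^ 6 * S) := by ring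
        _ ≤ C3 * (κ ^ 10 * S) := by
            gcongr
            norm_num
    rw [div_mul_eq_mul_div, div_le_iff₀ hC3]
    calc min (c1 ^ 2) (c1 ^ 4) * min (n ^ 2) ((n / K) ^ 4) ≤ c1 ^ 2 * n ^ 2 := by
          gcongr
          · exact min_le_left _ _
          · exact min_le_left _ _
      _ ≤ C3 * (κ ^ 10 * S) := h4
      _ = _ := by ring
  · rw [max_eq_right h] at hmain
    have h1 : M ^ 4 ≤ C3 * κ ^ 2 * S := by
      have h2 : k ^ 2 * M ^ 4 ≤ k ^ 2 * (C3 * κ ^ 2 * S) := by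
        calc k ^ 2 * M ^ 4 ≤ _ := hmain
          _ = _ := by ring
      exact le_of_mul_le_mul_left h2 (by positivity)
    have h3 : (c1 * n) ^ 4 ≤ (κ ^ 2 * (k * M)) ^ 4 := pow_le_pow_left₀ (by positivity) ha 4
    have h4 : c1 ^ 4 * (n / K) ^ 4 ≤ C3 * (κ ^ 10 * S) := by
      have h5 : c1 ^ 4 * n ^ 4 ≤ C3 * (κ ^ 10 * S) * K ^ 4 := by
        calc c1 ^ 4 * n ^ 4 = (c1 * n) ^ 4 := by ring
          _ ≤ (κ ^ 2 * (k * M)) ^ 4 := h3
          _ = κ ^ 8 * (k ^ 4 * M ^ 4) := by ring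
          _ ≤ κ ^ 8 * (K ^ 4 * (C3 * κ ^ 2 * S)) := by gcongr
          _ = C3 * (κ ^ 10 * S) * K ^ 4 := by ring
      rw [div_pow, mul_div_assoc', div_le_iff₀ (by positivity)]
      exact h5
    rw [div_mul_eq_mul_div, div_le_iff₀ hC3]
    calc min (c1 ^ 2) (c1 ^ 4) * min (n ^ 2) ((n / K) ^ 4) ≤ c1 ^ 4 * (n / K) ^ 4 := by
          gcongr
          · exact min_le_right _ _
          · exact min_le_right _ _
      _ ≤ C3 * (κ ^ 10 * S) := h4
      _ = _ := by ring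

theorem main1 (D : ℕ) (ε : ℝ) (hε : 0 < ε) : ∃ c : ℝ, 0 < c ∧ ∀ A : Finset ℚ, A.Nonempty →
    (∀ x ∈ A, x ≠ 0) → ∀ H : ℕ, 1 ≤ H → H ≤ (2 * A.card) ^ D → ∀ T : Finset ℚ,
    (∀ t ∈ T, t ≠ 0) → (∀ x ∈ A, ∃ t ∈ T, x / t ∈ box H) →
    (c * (A.card : ℝ) ^ (-ε) * min ((A.card : ℝ) ^ 2) (((A.card : ℝ) / T.card) ^ 4)
      ≤ (A + A).card) ∨
    (∀ C : Finset ℚ, C.Nonempty → (∀ y ∈ C, y ≠ 0) →
      c * ((A.card : ℝ) * C.card) ^ (1 - ε) ≤ (A * C).card) := by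
  classical
  set ε0 : ℝ := ε / 10 with hε0
  have hε00 : 0 < ε0 := by positivity
  obtain ⟨i0, hi0⟩ := exists_nat_ge (1 / ε0)
  set i : ℕ := i0 + 1 with hi
  have hi1 : 1 ≤ ε0 * i := by
    have h1 : 1 / ε0 ≤ i := hi0.trans (by rw [hi]; push_cast; linarith)
    rw [div_le_iff₀ hε00] at h1
    linarith
  obtain ⟨CL, hCL1, hCL⟩ := log_pow_bound (i + 1) ε0 hε00
  -- heights
  set w : ℕ := 17 ^ i with hw
  set eh : ℕ := D * w with heh
  set Ch : ℝ := (16 * 2 ^ D) ^ w with hCh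
  have hCh1 : 1 ≤ Ch := one_le_pow₀ (by
    have : (1 : ℝ) ≤ 2 ^ D := one_le_pow₀ (by norm_num)
    linarith)
  set ε1 : ℝ := ε0 / (2 * eh + 1) with hε1
  have hε10 : 0 < ε1 := by positivity
  obtain ⟨K1, hK1, hrr⟩ := rr_bound ε1 hε10
  set eg : ℕ := eh * (16 * i + 33) with heg
  set Cg : ℝ := 4 * 4 ^ (2 * i + 4) * Ch ^ (16 * i + 33) with hCg
  have hCg1 : 1 ≤ Cg := by
    have h1 : (1 : ℝ) ≤ 4 ^ (2 * i + 4) := one_le_pow₀ (by norm_num)
    have h2 : (1 : ℝ) ≤ Ch ^ (16 * i + 33) := one_le_pow₀ hCh1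
    rw [hCg]
    nlinarith
  set ε2 : ℝ := ε0 / (eg + 1) with hε2
  have hε20 : 0 < ε2 := by positivity
  obtain ⟨K2, hK2, harb⟩ := arbV (i + 1) ε2 hε20
  -- the constants
  set C2 : ℝ := 2 * K1 * (Ch ^ 2) ^ ε1 + 1 with hC2
  set c1 : ℝ := 1 / (CL * (8 * 4 ^ i)) with hc1
  have hc10 : 0 < c1 := by rw [hc1]; positivity
  have hC20 : 0 < C2 := by rw [hC2]; positivity
  set cS : ℝ := min (c1 ^ 2) (c1 ^ 4) / (8 * (100 + C2)) with hcS
  have hcS0 : 0 < cS := by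
    rw [hcS]
    exact div_pos (lt_min (by positivity) (by positivity)) (by positivity)
  set cP : ℝ := c1 / (K2 * Cg ^ ε2) with hcP
  have hcP0 : 0 < cP := by rw [hcP]; positivity
  refine ⟨min cS cP, lt_min hcS0 hcP0, fun A hA hA0 H hH hHA T hT0 hcov => ?_⟩
  set n : ℝ := (A.card : ℝ) with hn
  have hn1 : 1 ≤ n := by rw [hn]; exact_mod_cast hA.card_pos
  have hn0 : 0 < n := by linarith
  set κ : ℝ := n ^ ε0 with hκ
  have hκ1 : 1 ≤ κ := Real.one_le_rpow hn1 hε00.le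
  have hκ0 : 0 < κ := by linarith
  have hlog : 0 ≤ Real.log n := Real.log_nonneg hn1
  -- choice of the dilates
  choose! col hcolT hcolb using hcov
  set T1 := A.image col with hT1
  have hT1T : T1 ⊆ T := by
    intro t ht
    obtain ⟨x, hx, rfl⟩ := Finset.mem_image.1 ht
    exact hcolT x hx
  have hT1c : (T1.card : ℝ) ≤ κ ^ i := by
    calc (T1.card : ℝ) ≤ A.card := by exact_mod_cast Finset.card_image_le
      _ = n ^ (1 : ℝ) := by rw [Real.rpow_one]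
      _ ≤ n ^ (ε0 * i) := Real.rpow_le_rpow_of_exponent_le hn1 hi1
      _ = κ ^ i := by rw [hκ, ← Real.rpow_natCast, ← Real.rpow_mul hn0.le]
  obtain ⟨T', hT'T, hT'n, H', M, hHH', hH'b, hM1, hsep, hTM, hAc⟩ :=
    sel A.card (1 + Real.log n) κ (harm A.card) (by linarith) hκ1 i T1 H A hH
      (fun t ht => hT0 t (hT1T ht)) hT1c (fun x hx => ⟨col x, Finset.mem_image_of_mem _ hx,
        hcolb x hx⟩) hA le_rfl
  have hT'T0 : T' ⊆ T := hT'T.trans hT1T
  have hH'1 : 1 ≤ H' := hH.trans hHH'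
  have hT'0 : ∀ t ∈ T', t ≠ 0 := fun t ht => hT0 t (hT'T0 ht)
  choose! B hBsub hBM using fun t ht => Finset.exists_subset_card_eq (hTM t ht)
  have hBA : ∀ t ∈ T', B t ⊆ A := fun t ht => (hBsub t ht).trans (Finset.filter_subset _ _)
  have hB : ∀ t ∈ T', ∀ x ∈ B t, x ≠ 0 ∧ x / t ∈ box H' := by
    intro t ht x hx
    obtain ⟨h1, h2⟩ := Finset.mem_filter.1 (hBsub t ht hx)
    exact ⟨hA0 x h1, h2⟩
  have hM0 : (0 : ℝ) < M := by exact_mod_cast hM1
  have hMn : (M : ℝ) ≤ n := by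
    obtain ⟨t, ht⟩ := hT'n
    rw [hn]
    exact_mod_cast (hTM t ht).trans (Finset.card_le_card (Finset.filter_subset _ _))
  -- the size of `A`
  have hsize : n ≤ CL * κ ^ 2 * (T'.card * M) := by
    calc n ≤ (1 + Real.log n) ^ (i + 1) * κ * (T'.card * M) := hAc
      _ ≤ (CL * n ^ ε0) * κ * (T'.card * M) := by
          gcongr
          exact hCL n hn1
      _ = _ := by rw [← hκ]; ring
  -- heights
  have hH'r : (H' : ℝ) ≤ Ch * n ^ eh := by
    have h1 : H' ≤ (16 * (2 * A.card) ^ D) ^ w := by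
      calc H' ≤ 16 * H' := by omega
        _ ≤ (16 * H) ^ w := hH'b
        _ ≤ (16 * (2 * A.card) ^ D) ^ w := Nat.pow_le_pow_left (Nat.mul_le_mul_left _ hHA) _
    calc (H' : ℝ) ≤ (((16 * (2 * A.card) ^ D) ^ w : ℕ) : ℝ) := by exact_mod_cast h1
      _ = (16 * (2 * n) ^ D) ^ w := by rw [hn]; push_cast; rfl
      _ = Ch * n ^ eh := by
          rw [hCh, heh, mul_pow 2 n D, pow_mul, ← mul_pow]
          congr 1
          ring
  set h : ℕ := 4 * H' ^ 8 with hh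
  have hh1 : 1 ≤ h := by
    have : 1 ≤ H' ^ 8 := Nat.one_le_pow _ _ hH'1
    omega
  set ρ : ℕ := ⌈8 * κ⌉₊ + 1 with hρ
  have hρlo : 8 * κ < ρ := by
    rw [hρ]; push_cast
    have := Nat.le_ceil (8 * κ)
    linarith
  have hρhi : (ρ : ℝ) ≤ 10 * κ := by
    rw [hρ]; push_cast
    have := Nat.ceil_lt_add_one (show 0 ≤ 8 * κ by positivity)
    linarith
  have hbig : 8 ^ i * T'.card < ρ ^ i := by
    have h1 : ((8 ^ i * T'.card : ℕ) : ℝ) < ((ρ ^ i : ℕ) : ℝ) := by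
      push_cast
      calc (8 : ℝ) ^ i * T'.card ≤ 8 ^ i * κ ^ i := by
            gcongr
            exact le_trans (by exact_mod_cast Finset.card_le_card hT'T) hT1c
        _ = (8 * κ) ^ i := (mul_pow _ _ _).symm
        _ < ρ ^ i := pow_lt_pow_left₀ hρlo (by positivity) (by omega)
    exact_mod_cast h1
  rcases chain h ρ i hh1 T' hT'0 hsep hT'n hbig with hcase | hcase
  · -- many sums
    left
    obtain ⟨T2, hT2, hT2c, hgood⟩ := hcase
    have hT2n : T2.Nonempty := by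
      rw [← Finset.card_pos]
      by_contra h1
      have h2 : T2.card = 0 := by omega
      rw [h2, mul_zero] at hT2c
      have := hT'n.card_pos
      omega
    set k : ℝ := (T2.card : ℝ) with hk
    have hk0 : 0 < k := by rw [hk]; exact_mod_cast hT2n.card_pos
    set τ : ℕ := ⌈2 * K1 * (Ch ^ 2) ^ ε1 * κ⌉₊ with hτ
    have hτlo : 2 * K1 * (Ch ^ 2) ^ ε1 * κ ≤ τ := Nat.le_ceil _
    have hτhi : (τ : ℝ) ≤ C2 * κ := by
      have h1 := Nat.ceil_lt_add_one (show 0 ≤ 2 * K1 * (Ch ^ 2) ^ ε1 * κ by positivity)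
      rw [hC2, add_mul, one_mul]
      linarith
    have hEb : K1 * (((H' * H' : ℕ) : ℝ) * M) ^ ε1 ≤ K1 * (Ch ^ 2) ^ ε1 * κ := by
      have h1 : (((H' * H' : ℕ) : ℝ) * M) ≤ Ch ^ 2 * n ^ (2 * eh + 1) := by
        push_cast
        calc (H' : ℝ) * H' * M ≤ (Ch * n ^ eh) * (Ch * n ^ eh) * n := by gcongr
          _ = _ := by ring
      have h2 : (((H' * H' : ℕ) : ℝ) * M) ^ ε1 ≤ (Ch ^ 2) ^ ε1 * κ := by
        calc (((H' * H' : ℕ) : ℝ) * M) ^ ε1 ≤ (Ch ^ 2 * n ^ (2 * eh + 1)) ^ ε1 :=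
              Real.rpow_le_rpow (by positivity) h1 hε10.le
          _ = (Ch ^ 2) ^ ε1 * (n ^ (2 * eh + 1)) ^ ε1 :=
              Real.mul_rpow (by positivity) (by positivity)
          _ = (Ch ^ 2) ^ ε1 * κ := by
              congr 1
              rw [← Real.rpow_natCast, ← Real.rpow_mul hn0.le, hκ]
              congr 1
              rw [hε1]
              push_cast
              field_simp
      calc K1 * (((H' * H' : ℕ) : ℝ) * M) ^ ε1 ≤ K1 * ((Ch ^ 2) ^ ε1 * κ) := by gcongr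
        _ = _ := by ring
    have hsum := sumside3 (H := H') (h := h) (T := T2) (B := B) hH'1 (by rw [hh])
      (fun t ht => hT'0 t (hT2 ht)) ρ M τ (by
        intro t ht s hs
        have h0 := e0 hK1 hrr (H' * H') (Nat.mul_pos hH'1 hH'1) (B t) (B s) M
          (fun x hx => (hB t (hT2 ht) x hx).1) (fun x hx => (hB s (hT2 hs) x hx).1)
          (hBM t (hT2 ht)) (hBM s (hT2 hs)) (by
            intro x hx x' hx'
            have h1 := (hB t (hT2 ht) x hx).2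
            have h2 := (hB t (hT2 ht) x' hx').2
            have ht0 := hT'0 t (hT2 ht)
            have h3 := box_mul h1 (inv_mem_box h2 (div_ne_zero (hB t (hT2 ht) x' hx').1 ht0))
            rwa [inv_div, div_mul_div_cancel₀ ht0] at h3)
        have h4 : ((2 * (((B t ×ˢ B s) ×ˢ (B t ×ˢ B s)).filter
            fun q => q.1.1 / q.1.2 = q.2.1 / q.2.2).card : ℕ) : ℝ) ≤ ((τ * M ^ 2 : ℕ) : ℝ) := by
          push_cast
          calc 2 * ((((B t ×ˢ B s) ×ˢ (B t ×ˢ B s)).filter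
                fun q => q.1.1 / q.1.2 = q.2.1 / q.2.2).card : ℝ)
              ≤ 2 * (K1 * (((H' * H' : ℕ) : ℝ) * M) ^ ε1 * (M : ℝ) ^ 2) := by gcongr
            _ ≤ 2 * ((K1 * (Ch ^ 2) ^ ε1 * κ) * (M : ℝ) ^ 2) := by gcongr
            _ = (2 * K1 * (Ch ^ 2) ^ ε1 * κ) * (M : ℝ) ^ 2 := by ring
            _ ≤ τ * (M : ℝ) ^ 2 := by gcongr
        exact_mod_cast h4)
      (fun t ht s hs hts => hsep t (hT2 ht) s (hT2 hs) hts)
      (fun t ht => hB t (hT2 ht)) (fun t ht => hBM t (hT2 ht)) hT2n hgood A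
      (fun t ht => hBA t (hT2 ht))
    set S : ℝ := ((A + A).card : ℝ) with hS
    have hsumr : k ^ 2 * (M : ℝ) ^ 4 ≤ 8 * (S * ((ρ : ℝ) ^ 2 * (M : ℝ) ^ 2 + τ * k ^ 2)) := by
      rw [hk, hS]
      exact_mod_cast hsum
    have hmain : k ^ 2 * (M : ℝ) ^ 4 ≤ (8 * (100 + C2)) * κ ^ 2 * S *
        max ((M : ℝ) ^ 2) (k ^ 2) := by
      calc k ^ 2 * (M : ℝ) ^ 4 ≤ 8 * (S * ((ρ : ℝ) ^ 2 * (M : ℝ) ^ 2 + τ * k ^ 2)) := hsumr
        _ ≤ 8 * (S * ((10 * κ) ^ 2 * (M : ℝ) ^ 2 + (C2 * κ) * k ^ 2)) := by gcongr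
        _ ≤ 8 * (S * ((10 * κ) ^ 2 * (M : ℝ) ^ 2 + (C2 * κ ^ 2) * k ^ 2)) := by
            gcongr
            exact le_self_pow₀ hκ1 (by norm_num)
        _ = 8 * (S * (κ ^ 2 * (100 * (M : ℝ) ^ 2 + C2 * k ^ 2))) := by ring
        _ ≤ 8 * (S * (κ ^ 2 * (100 * max ((M : ℝ) ^ 2) (k ^ 2) +
              C2 * max ((M : ℝ) ^ 2) (k ^ 2)))) := by
            gcongr
            · exact le_max_left _ _
            · exact le_max_right _ _
        _ = _ := by ring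
    have hkT : k ≤ T.card := by
      rw [hk]
      exact_mod_cast Finset.card_le_card (hT2.trans hT'T0)
    have ha : c1 * n ≤ κ ^ 2 * (k * M) := by
      rw [hc1, one_div, inv_mul_le_iff₀ (by positivity)]
      have h1 : ((T'.card : ℕ) : ℝ) ≤ 4 ^ i * k := by rw [hk]; exact_mod_cast hT2c
      calc n ≤ CL * κ ^ 2 * (T'.card * M) := hsize
        _ ≤ CL * κ ^ 2 * ((4 ^ i * k) * M) := by gcongr
        _ = (CL * (1 * 4 ^ i)) * (κ ^ 2 * (k * M)) := by ring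
        _ ≤ (CL * (8 * 4 ^ i)) * (κ ^ 2 * (k * M)) := by gcongr; norm_num
    have hfin := numS hn0 hk0 hM0 hκ1 (by positivity : 0 ≤ S) hc10
      (by positivity : 0 < 8 * (100 + C2)) ha hmain hkT
    have hκ8 : n ^ (-ε) * κ ^ 10 = 1 := by
      rw [hκ, ← Real.rpow_natCast, ← Real.rpow_mul hn0.le, ← Real.rpow_add hn0, hε0]
      push_cast
      rw [show -ε + ε / 10 * 10 = 0 by ring, Real.rpow_zero]
    have hne0 : 0 < n ^ (-ε) := Real.rpow_pos_of_pos hn0 _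
    calc min cS cP * n ^ (-ε) * min (n ^ 2) ((n / T.card) ^ 4)
        ≤ cS * n ^ (-ε) * min (n ^ 2) ((n / T.card) ^ 4) := by
          gcongr
          exact min_le_left _ _
      _ = n ^ (-ε) * (cS * min (n ^ 2) ((n / T.card) ^ 4)) := by ring
      _ ≤ n ^ (-ε) * (κ ^ 10 * S) := by gcongr
      _ = S := by rw [← mul_assoc, hκ8, one_mul]
  · -- many products
    right
    intro C hC hC0
    obtain ⟨p, T2, hT2, hT2c, hT2p⟩ := hcase
    set Bs := T2.biUnion B with hBs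
    have hdisj : ∀ t ∈ T2, ∀ s ∈ T2, t ≠ s → Disjoint (B t) (B s) := by
      intro t ht s hs hts
      refine Finset.disjoint_left.2 fun x hx hx' => ?_
      obtain ⟨hx0, h1⟩ := hB t (hT2 ht) x hx
      obtain ⟨-, h2⟩ := hB s (hT2 hs) x hx'
      have ht0 := hT'0 t (hT2 ht)
      have hs0 := hT'0 s (hT2 hs)
      refine hsep t (hT2 ht) s (hT2 hs) hts ?_
      have h3 := box_mul h2 (inv_mem_box h1 (div_ne_zero hx0 ht0))
      have h4 : x / s * (x / t)⁻¹ = t / s := by field_simp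
      rw [h4] at h3
      refine box_mono ?_ h3
      calc H' * H' = 1 * (H' * H') := (one_mul _).symm
        _ ≤ 16 * H' ^ 16 := by
            refine Nat.mul_le_mul (by norm_num) ?_
            rw [← sq]
            exact Nat.pow_le_pow_right hH'1 (by norm_num)
        _ = 4 * H' ^ 8 * (4 * H' ^ 8) := by ring
    have hBsc : Bs.card = T2.card * M := by
      rw [hBs, Finset.card_biUnion hdisj, Finset.sum_congr rfl fun t ht => hBM t (hT2 ht),
        Finset.sum_const, smul_eq_mul]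
    have hBsA : Bs ⊆ A := by
      intro x hx
      obtain ⟨t, ht, hx⟩ := Finset.mem_biUnion.1 hx
      exact hBA t (hT2 ht) hx
    set g : ℕ := H' * (4 * h ^ (2 * i + 4)) with hg
    have hg1 : 1 ≤ g := by
      have : 1 ≤ h ^ (2 * i + 4) := Nat.one_le_pow _ _ hh1
      exact Nat.mul_pos hH'1 (by omega)
    have hBsp : ∀ x ∈ Bs, Sp g p x ∧ x ≠ 0 := by
      intro x hx
      obtain ⟨t, ht, hx⟩ := Finset.mem_biUnion.1 hx
      obtain ⟨hx0, h1⟩ := hB t (hT2 ht) x hx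
      refine ⟨?_, hx0⟩
      obtain ⟨c, hc, h2⟩ := hT2p t ht
      refine ⟨fun j => (x / t) * c j, fun j => box_mul h1 (hc j), ?_⟩
      have ht0 := hT'0 t (hT2 ht)
      calc x = (x / t) * t := (div_mul_cancel₀ _ ht0).symm
        _ = (x / t) * ∑ j, c j * p j := congrArg (fun z => (x / t) * z) h2
        _ = _ := by
            rw [Finset.mul_sum]
            refine Finset.sum_congr rfl fun j _ => ?_
            ring
    have hprod := harb g hg1 p Bs C hBsp hC0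
    have hc1' : (1 : ℝ) ≤ C.card := by exact_mod_cast hC.card_pos
    have hgr : (g : ℝ) ≤ Cg * n ^ eg := by
      rw [hg, hh]
      push_cast
      calc (H' : ℝ) * (4 * (4 * (H' : ℝ) ^ 8) ^ (2 * i + 4))
          = 4 * 4 ^ (2 * i + 4) * (H' : ℝ) ^ (16 * i + 33) := by
            rw [mul_pow, ← pow_mul]
            have : (H' : ℝ) ^ (16 * i + 33) = (H' : ℝ) ^ (8 * (2 * i + 4)) * H' := by
              rw [← pow_succ]
              congr 1
              ring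
            rw [this]
            ring
        _ ≤ 4 * 4 ^ (2 * i + 4) * (Ch * n ^ eh) ^ (16 * i + 33) := by gcongr
        _ = Cg * n ^ eg := by
            rw [hCg, heg, mul_pow, ← pow_mul]
            ring
    have hBsn : (Bs.card : ℝ) ≤ n := by
      rw [hn]
      exact_mod_cast Finset.card_le_card hBsA
    set X : ℝ := n * C.card with hX
    have hX1 : 1 ≤ X := by rw [hX]; nlinarith
    have hnX : n ≤ X := by rw [hX]; nlinarith
    have hpow : ((g : ℝ) * Bs.card * C.card) ^ ε2 ≤ Cg ^ ε2 * X ^ ε0 := by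
      have h1 : (g : ℝ) * Bs.card * C.card ≤ Cg * X ^ (eg + 1) := by
        calc (g : ℝ) * Bs.card * C.card ≤ (Cg * n ^ eg) * n * C.card := by gcongr
          _ = Cg * (n ^ eg * X) := by rw [hX]; ring
          _ ≤ Cg * (X ^ eg * X) := by gcongr
          _ = Cg * X ^ (eg + 1) := by rw [pow_succ]
      calc ((g : ℝ) * Bs.card * C.card) ^ ε2 ≤ (Cg * X ^ (eg + 1)) ^ ε2 :=
            Real.rpow_le_rpow (by positivity) h1 hε20.le
        _ = Cg ^ ε2 * (X ^ (eg + 1)) ^ ε2 := Real.mul_rpow (by positivity) (by positivity)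
        _ = Cg ^ ε2 * X ^ ε0 := by
            congr 1
            rw [← Real.rpow_natCast, ← Real.rpow_mul (by positivity)]
            congr 1
            rw [hε2]
            push_cast
            field_simp
    have hmono : ((Bs * C).card : ℝ) ≤ (A * C).card := by
      exact_mod_cast Finset.card_le_card (Finset.mul_subset_mul_right hBsA)
    have hlow : c1 * n ≤ κ ^ 2 * Bs.card := by
      rw [hc1, one_div, inv_mul_le_iff₀ (by positivity), hBsc]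
      have h1 : ((T'.card : ℕ) : ℝ) ≤ 8 * 4 ^ i * T2.card := by exact_mod_cast hT2c
      push_cast
      calc n ≤ CL * κ ^ 2 * (T'.card * M) := hsize
        _ ≤ CL * κ ^ 2 * ((8 * 4 ^ i * T2.card) * M) := by gcongr
        _ = _ := by ring
    have hkey : c1 * X ≤ κ ^ 2 * (K2 * (Cg ^ ε2 * X ^ ε0) * (A * C).card) := by
      calc c1 * X = (c1 * n) * C.card := by rw [hX]; ring
        _ ≤ (κ ^ 2 * Bs.card) * C.card := by gcongr
        _ = κ ^ 2 * (Bs.card * C.card) := by ring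
        _ ≤ κ ^ 2 * (K2 * ((g : ℝ) * Bs.card * C.card) ^ ε2 * (Bs * C).card) := by gcongr
        _ ≤ _ := by gcongr
    have hX0 : 0 < X := by linarith
    have hκX : κ ^ 2 ≤ X ^ (2 * ε0) := by
      rw [hκ, ← Real.rpow_natCast, ← Real.rpow_mul hn0.le]
      calc n ^ (ε0 * ((2 : ℕ) : ℝ)) ≤ X ^ (ε0 * ((2 : ℕ) : ℝ)) :=
            Real.rpow_le_rpow hn0.le hnX (by positivity)
        _ = _ := by push_cast; rw [mul_comm]
    have hkey2 : c1 * X ≤ (K2 * Cg ^ ε2) * X ^ (3 * ε0) * (A * C).card := by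
      calc c1 * X ≤ κ ^ 2 * (K2 * (Cg ^ ε2 * X ^ ε0) * (A * C).card) := hkey
        _ ≤ X ^ (2 * ε0) * (K2 * (Cg ^ ε2 * X ^ ε0) * (A * C).card) := by gcongr
        _ = (K2 * Cg ^ ε2) * (X ^ (2 * ε0) * X ^ ε0) * (A * C).card := by ring
        _ = _ := by
            rw [← Real.rpow_add hX0]
            congr 3
            ring
    calc min cS cP * X ^ (1 - ε) ≤ cP * X ^ (1 - 3 * ε0) := by
          gcongr
          · exact min_le_right _ _
          · rw [hε0]; linarith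
      _ = (c1 * X) / ((K2 * Cg ^ ε2) * X ^ (3 * ε0)) := by
          rw [hcP, Real.rpow_sub hX0, Real.rpow_one]
          field_simp
      _ ≤ (A * C).card := by
          rw [div_le_iff₀ (by positivity)]
          calc c1 * X ≤ _ := hkey2
            _ = _ := by ring

end Pool.Agent.Zk30.DL
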