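import Mathlib
import Pool.Agent.Zk30.DL.Chain

/-!
# Rich planes and subspaces of bounded dimension

The analogue of `Chain` for planes: the pairs of good pairs which lie in one plane.
-/

set_option autoImplicit false

namespace Pool.Agent.Zk30.DL

open Pool.Agent.TH551.SU Pool.Agent.TH539.MQ Pool.Agent.Zk30.FU

/-- `s'` is a combination of `t`, `s`, `t'` with coefficients of height at most `h` -/
def Cop (h : ℕ) (t s t' s' : ℚ) : Prop :=
  ∃ α ∈ box h, ∃ β ∈ box h, ∃ γ ∈ box h, s' = α * t + β * s + γ * t'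

/-- the good pairs which lie in one plane with `t`, `s` -/
noncomputable def Wp (h hL ρ : ℕ) (S : Finset ℚ) (t s : ℚ) : Finset (ℚ × ℚ) := by
  classical exact (goodp hL ρ S).filter fun q => Cop h t s q.1 q.2

/-- the good pairs which lie in one plane with few good pairs -/
noncomputable def goodq (h hL ρ Ω : ℕ) (S : Finset ℚ) : Finset (ℚ × ℚ) := by
  classical exact (goodp hL ρ S).filter fun p => (Wp h hL ρ S p.1 p.2).card ≤ Ω

/-- the bad partners of `t` -/
noncomputable def badq (h hL ρ Ω : ℕ) (S : Finset ℚ) (t : ℚ) : Finset ℚ := by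
  classical exact S.filter fun s => (t, s) ∈ goodp hL ρ S ∧ Ω < (Wp h hL ρ S t s).card

/-- the elements with many bad partners -/
noncomputable def Dq (h hL ρ Ω : ℕ) (S : Finset ℚ) : Finset ℚ := by
  classical exact S.filter fun t => S.card ≤ 8 * (badq h hL ρ Ω S t).card

lemma mem_goodp {h ρ : ℕ} {S : Finset ℚ} {p : ℚ × ℚ} :
    p ∈ goodp h ρ S ↔ (p.1 ∈ S ∧ p.2 ∈ S) ∧ p.2 ≠ p.1 ∧ (Rl h S p.1 p.2).card ≤ ρ := by
  classical
  unfold goodp
  rw [Finset.mem_filter, Finset.mem_product]

lemma gq_bq (h hL ρ Ω : ℕ) (S : Finset ℚ) :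
    (goodq h hL ρ Ω S).card + ∑ t ∈ S, (badq h hL ρ Ω S t).card = (goodp hL ρ S).card := by
  classical
  have h1 : ((goodp hL ρ S).filter fun p => ¬ (Wp h hL ρ S p.1 p.2).card ≤ Ω).card =
      ∑ t ∈ S, (badq h hL ρ Ω S t).card := by
    rw [Finset.card_eq_sum_card_fiberwise (f := Prod.fst) (t := S)]
    · refine Finset.sum_congr rfl fun t ht => ?_
      have h2 : (((goodp hL ρ S).filter fun p => ¬ (Wp h hL ρ S p.1 p.2).card ≤ Ω).filter
          fun p => p.1 = t) = (badq h hL ρ Ω S t).image fun s => (t, s) := by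
        ext ⟨a, b⟩
        unfold badq
        simp only [Finset.mem_filter, Finset.mem_image, Prod.mk.injEq]
        constructor
        · rintro ⟨⟨h3, h4⟩, rfl⟩
          exact ⟨b, ⟨(mem_goodp.1 h3).1.2, h3, by omega⟩, rfl, rfl⟩
        · rintro ⟨b', ⟨h3, h4, h5⟩, rfl, rfl⟩
          exact ⟨⟨h4, by omega⟩, rfl⟩
      rw [h2]
      exact Finset.card_image_of_injective _ fun a b hab => (Prod.mk.inj hab).2
    · intro p hp
      exact (mem_goodp.1 (Finset.mem_filter.1 (Finset.mem_coe.1 hp)).1).1.1
  rw [← h1]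
  unfold goodq
  exact Finset.card_filter_add_card_filter_not _

lemma Dq_card (h hL ρ Ω : ℕ) (S : Finset ℚ) (hg : S.card ^ 2 ≤ 2 * (goodp hL ρ S).card)
    (hb : 4 * (goodq h hL ρ Ω S).card < S.card ^ 2) :
    S.card ≤ 8 * (Dq h hL ρ Ω S).card := by
  classical
  have h1 := gq_bq h hL ρ Ω S
  set D := Dq h hL ρ Ω S with hD
  have hDS : D = S.filter fun t => S.card ≤ 8 * (badq h hL ρ Ω S t).card := rfl
  have h2 : ∑ t ∈ S, (badq h hL ρ Ω S t).card = ∑ t ∈ D, (badq h hL ρ Ω S t).card +
      ∑ t ∈ S.filter (fun t => ¬ (S.card ≤ 8 * (badq h hL ρ Ω S t).card)),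
        (badq h hL ρ Ω S t).card :=
    (Finset.sum_filter_add_sum_filter_not _ _ _).symm
  have h3 : ∑ t ∈ D, (badq h hL ρ Ω S t).card ≤ D.card * S.card := by
    rw [← smul_eq_mul, ← Finset.sum_const]
    refine Finset.sum_le_sum fun t ht => Finset.card_le_card ?_
    unfold badq
    exact Finset.filter_subset _ _
  have h4 : 8 * ∑ t ∈ S.filter (fun t => ¬ (S.card ≤ 8 * (badq h hL ρ Ω S t).card)),
      (badq h hL ρ Ω S t).card ≤ S.card * S.card := by
    rw [Finset.mul_sum]
    calc _ ≤ ∑ t ∈ S.filter (fun t => ¬ (S.card ≤ 8 * (badq h hL ρ Ω S t).card)), S.card := by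
          refine Finset.sum_le_sum fun t ht => ?_
          have := (Finset.mem_filter.1 ht).2
          omega
      _ = (S.filter (fun t => ¬ (S.card ≤ 8 * (badq h hL ρ Ω S t).card))).card * S.card := by
          rw [Finset.sum_const, smul_eq_mul]
      _ ≤ _ := Nat.mul_le_mul_right _ (Finset.card_le_card (Finset.filter_subset _ _))
  have h7 : S.card * S.card < 8 * (D.card * S.card) := by
    rw [sq] at hg hb
    omega
  have h8 : S.card < 8 * D.card := by
    by_contra h9
    push Not at h9
    have := Nat.mul_le_mul_right S.card h9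
    nlinarith
  exact h8.le

/-- the points of the line through `s`, `t'` which are good partners of `t'` -/
lemma line_few {h hL ρ : ℕ} (hh : 1 ≤ h) (hhL : 2 * h ^ 4 ≤ hL) {T S : Finset ℚ} (hST : S ⊆ T)
    (hT0 : ∀ t ∈ T, t ≠ 0)
    (hsep : ∀ t ∈ T, ∀ s ∈ T, t ≠ s → t / s ∉ box (h * h)) (s t' : ℚ) (L : Finset ℚ)
    (hL1 : ∀ r ∈ L, (t', r) ∈ goodp hL ρ S)
    (hL2 : ∀ r ∈ L, ∃ β ∈ box h, ∃ γ ∈ box h, r = β * s + γ * t') : L.card ≤ ρ := by
  classical
  rcases L.eq_empty_or_nonempty with h0 | ⟨r0, hr0⟩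
  · rw [h0, Finset.card_empty]; exact Nat.zero_le _
  obtain ⟨⟨g1, g2⟩, g3, g4⟩ := mem_goodp.1 (hL1 r0 hr0)
  simp only at g1 g2 g3 g4
  obtain ⟨β0, hβ0, γ0, hγ0, e0⟩ := hL2 r0 hr0
  have hβ : β0 ≠ 0 := by
    rintro rfl
    refine hsep r0 (hST g2) t' (hST g1) g3 ?_
    rw [e0, zero_mul, zero_add, mul_div_assoc, div_self (hT0 t' (hST g1)), mul_one]
    exact box_mono (Nat.le_mul_of_pos_left h hh) hγ0
  refine le_trans (Finset.card_le_card fun r hr => ?_) g4
  obtain ⟨⟨k1, k2⟩, k3, k4⟩ := mem_goodp.1 (hL1 r hr)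
  obtain ⟨β, hβ1, γ, hγ, e⟩ := hL2 r hr
  refine mem_Rl.2 ⟨k2, γ - β * β0⁻¹ * γ0, ?_, β * β0⁻¹, ?_, ?_⟩
  · refine box_mono ?_ (box_sub' hγ (box_mul (box_mul hβ1 (inv_mem_box hβ0 hβ)) hγ0))
    refine le_trans (le_of_eq ?_) hhL
    ring
  · refine box_mono ?_ (box_mul hβ1 (inv_mem_box hβ0 hβ))
    have : 1 ≤ h ^ 2 := Nat.one_le_pow _ _ hh
    calc h * h = 1 * h ^ 2 := by ring
      _ ≤ (2 * h ^ 2) * h ^ 2 := Nat.mul_le_mul_right _ (by omega)
      _ = 2 * h ^ 4 := by ring
      _ ≤ hL := hhL
  · rw [e, e0]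
    field_simp
    ring

theorem chain2 (h hL ρ ω m κ : ℕ) (hh : 1 ≤ h) (hhL : 2 * h ^ 4 ≤ hL) (hω : 4 * ρ ≤ ω)
    (hκ : 1 ≤ κ) (T : Finset ℚ) (hT0 : ∀ t ∈ T, t ≠ 0)
    (hsep : ∀ t ∈ T, ∀ s ∈ T, t ≠ s → t / s ∉ box (h * h)) (hne : T.Nonempty)
    (hbig : 64 ^ m * T.card < ω ^ m)
    (href : ∀ X ⊆ T, T.card ≤ (8 * κ) ^ (m + 1) * X.card →
      ∃ Y ⊆ X, X.card ≤ κ * Y.card ∧ Y.card ^ 2 ≤ 2 * (goodp hL ρ Y).card) :
    (∃ T' ⊆ T, T.card ≤ (8 * κ) ^ (m + 1) * T'.card ∧
      T'.card ^ 2 ≤ 4 * (goodq h hL ρ (ω * T.card) T').card) ∨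
    (∃ p : Fin (2 * m + 2) → ℚ, ∃ T' ⊆ T,
      (T.card ≤ 16 * (8 * κ) ^ (m + 1) * T'.card ∨ ω * T.card ≤ 2 * T'.card ^ 2) ∧
      ∀ t ∈ T', Sp (8 * h ^ (3 * m + 6)) p t) := by
  classical
  by_contra hcon
  push Not at hcon
  obtain ⟨hS, hP⟩ := hcon
  set G := 8 * h ^ (3 * m + 6) with hG
  set G1 := 4 * h ^ (2 * m + 4) with hG1
  set Ω := ω * T.card with hΩ
  have hpw : ∀ a b : ℕ, a ≤ b → h ^ a ≤ h ^ b := fun a b hab => Nat.pow_le_pow_right hh hab
  have hG1G : G1 ≤ G := by
    have := hpw (2 * m + 4) (3 * m + 6) (by omega)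
    omega
  have hG1' : 1 ≤ G1 := by
    have : 1 ≤ h ^ (2 * m + 4) := Nat.one_le_pow _ _ hh
    omega
  have hGpos : 1 ≤ G := hG1'.trans hG1G
  have h8κ : 1 ≤ 8 * κ := by omega
  choose! rf hrf1 hrf2 hrf3 using href
  let Sq : ℕ → Finset ℚ := fun i => Nat.rec (rf T) (fun _ S => rf (Dq h hL ρ Ω S)) i
  have hSq0 : Sq 0 = rf T := rfl
  have hSqs : ∀ i, Sq (i + 1) = rf (Dq h hL ρ Ω (Sq i)) := fun i => rfl
  have hTK : T.card ≤ (8 * κ) ^ (m + 1) * T.card :=
    Nat.le_mul_of_pos_left _ (Nat.pow_pos h8κ)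
  have hDsub : ∀ S, Dq h hL ρ Ω S ⊆ S := fun S => by
    unfold Dq
    exact Finset.filter_subset _ _
  have hprop : ∀ i, i ≤ m → Sq i ⊆ T ∧ T.card ≤ κ * (8 * κ) ^ i * (Sq i).card ∧
      (Sq i).card ^ 2 ≤ 2 * (goodp hL ρ (Sq i)).card := by
    intro i
    induction i with
    | zero =>
      intro _
      rw [hSq0, pow_zero, mul_one]
      exact ⟨hrf1 T (Finset.Subset.refl _) hTK, hrf2 T (Finset.Subset.refl _) hTK,
        hrf3 T (Finset.Subset.refl _) hTK⟩
    | succ i ih =>
      intro hi
      obtain ⟨h1, h2, h3⟩ := ih (by omega)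
      have h4 : T.card ≤ (8 * κ) ^ (m + 1) * (Sq i).card := by
        refine h2.trans (Nat.mul_le_mul_right _ ?_)
        calc κ * (8 * κ) ^ i ≤ (8 * κ) * (8 * κ) ^ i := Nat.mul_le_mul_right _ (by omega)
          _ = (8 * κ) ^ (i + 1) := by rw [pow_succ, mul_comm]
          _ ≤ _ := Nat.pow_le_pow_right h8κ (by omega)
      have h5 := Dq_card h hL ρ Ω (Sq i) h3 (hS (Sq i) h1 h4)
      have h6 : Dq h hL ρ Ω (Sq i) ⊆ T := (hDsub _).trans h1
      have h7 : T.card ≤ (8 * κ) ^ (i + 1) * (Dq h hL ρ Ω (Sq i)).card := by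
        calc T.card ≤ κ * (8 * κ) ^ i * (Sq i).card := h2
          _ ≤ κ * (8 * κ) ^ i * (8 * (Dq h hL ρ Ω (Sq i)).card) := Nat.mul_le_mul_left _ h5
          _ = _ := by ring
      have h8 : T.card ≤ (8 * κ) ^ (m + 1) * (Dq h hL ρ Ω (Sq i)).card :=
        h7.trans (Nat.mul_le_mul_right _ (Nat.pow_le_pow_right h8κ (by omega)))
      rw [hSqs]
      refine ⟨(hrf1 _ h6 h8).trans h6, ?_, hrf3 _ h6 h8⟩
      calc T.card ≤ (8 * κ) ^ (i + 1) * (Dq h hL ρ Ω (Sq i)).card := h7
        _ ≤ (8 * κ) ^ (i + 1) * (κ * (rf (Dq h hL ρ Ω (Sq i))).card) :=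
            Nat.mul_le_mul_left _ (hrf2 _ h6 h8)
        _ = _ := by ring
  have hstep : ∀ i, i + 1 ≤ m → Sq (i + 1) ⊆ Dq h hL ρ Ω (Sq i) := by
    intro i hi
    obtain ⟨h1, h2, h3⟩ := hprop i (by omega)
    have h4 : T.card ≤ (8 * κ) ^ (m + 1) * (Sq i).card := by
      refine h2.trans (Nat.mul_le_mul_right _ ?_)
      calc κ * (8 * κ) ^ i ≤ (8 * κ) * (8 * κ) ^ i := Nat.mul_le_mul_right _ (by omega)
        _ = (8 * κ) ^ (i + 1) := by rw [pow_succ, mul_comm]
        _ ≤ _ := Nat.pow_le_pow_right h8κ (by omega)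
    have h5 := Dq_card h hL ρ Ω (Sq i) h3 (hS (Sq i) h1 h4)
    have h6 : Dq h hL ρ Ω (Sq i) ⊆ T := (hDsub _).trans h1
    have h7 : T.card ≤ (8 * κ) ^ (i + 1) * (Dq h hL ρ Ω (Sq i)).card := by
      calc T.card ≤ κ * (8 * κ) ^ i * (Sq i).card := h2
        _ ≤ κ * (8 * κ) ^ i * (8 * (Dq h hL ρ Ω (Sq i)).card) := Nat.mul_le_mul_left _ h5
        _ = _ := by ring
    have h8 : T.card ≤ (8 * κ) ^ (m + 1) * (Dq h hL ρ Ω (Sq i)).card :=
      h7.trans (Nat.mul_le_mul_right _ (Nat.pow_le_pow_right h8κ (by omega)))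
    rw [hSqs]
    exact hrf1 _ h6 h8
  have hTpos : 0 < T.card := hne.card_pos
  have hpos : ∀ i, i ≤ m → (Sq i).Nonempty := by
    intro i hi
    rw [← Finset.card_pos]
    by_contra h1
    have h2 : (Sq i).card = 0 := by omega
    have h3 := (hprop i hi).2.1
    rw [h2] at h3
    omega
  -- the chain
  have key : ∀ j, j ≤ m → ∃ d ≤ 2 * j + 1, ∃ p : Fin d → ℚ, ∃ U ⊆ Sq (m - j),
      (∀ u ∈ U, Sp (h ^ j) p u) ∧ ω ^ j ≤ 64 ^ j * U.card := by
    intro j
    induction j with
    | zero =>
      intro _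
      obtain ⟨p0, hp0⟩ := hpos m le_rfl
      refine ⟨1, le_rfl, fun _ => p0, {p0}, ?_, ?_, ?_⟩
      · rw [Nat.sub_zero]
        exact Finset.singleton_subset_iff.2 hp0
      · intro u hu
        rw [Finset.mem_singleton.1 hu]
        exact ⟨fun _ => 1, fun _ => mem_box (by simp) (by simp), by simp⟩
      · simp
    | succ j ih =>
      intro hj
      obtain ⟨d, hd, p, U, hU, hUp, hUc⟩ := ih (by omega)
      set S := Sq (m - (j + 1)) with hSdef
      obtain ⟨hST, hScard, hSgood⟩ := hprop (m - (j + 1)) (by omega)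
      rw [← hSdef] at hST hScard hSgood
      have hUk : U ⊆ Dq h hL ρ Ω S := by
        have e : m - j = m - (j + 1) + 1 := by omega
        rw [e] at hU
        exact hU.trans (hstep (m - (j + 1)) (by omega))
      have hUT : U ⊆ T := hUk.trans ((hDsub _).trans hST)
      have hSpos : S.Nonempty := hpos _ (by omega)
      have hTS : T.card ≤ (8 * κ) ^ (m + 1) * S.card := by
        refine hScard.trans (Nat.mul_le_mul_right _ ?_)
        calc κ * (8 * κ) ^ (m - (j + 1)) ≤ (8 * κ) * (8 * κ) ^ (m - (j + 1)) :=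
              Nat.mul_le_mul_right _ (by omega)
          _ = (8 * κ) ^ (m - (j + 1) + 1) := by rw [pow_succ, mul_comm]
          _ ≤ _ := Nat.pow_le_pow_right h8κ (by omega)
      -- few elements in the span
      have hspan : 16 * (S.filter fun s => Sp G p s).card < S.card := by
        by_contra h1
        push Not at h1
        obtain ⟨p', hp'⟩ := Sp.pad (d' := 2 * m + 2) hGpos (by omega : d ≤ 2 * m + 2) p
        obtain ⟨t, ht, h3⟩ := hP p' (S.filter fun s => Sp G p s)
          ((Finset.filter_subset _ _).trans hST) (Or.inl (by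
            calc T.card ≤ (8 * κ) ^ (m + 1) * S.card := hTS
              _ ≤ (8 * κ) ^ (m + 1) * (16 * (S.filter fun s => Sp G p s).card) :=
                  Nat.mul_le_mul_left _ h1
              _ = _ := by ring))
        exact h3 (hp' t (Finset.mem_filter.1 ht).2)
      -- the bad partners outside of the span
      let Bu : ℚ → Finset ℚ := fun u => (badq h hL ρ Ω S u).filter fun s => ¬ Sp G p s
      have hBu : ∀ u ∈ U, S.card ≤ 16 * (Bu u).card := by
        intro u hu
        have h1 : S.card ≤ 8 * (badq h hL ρ Ω S u).card := by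
          have h2 := hUk hu
          unfold Dq at h2
          rw [Finset.mem_filter] at h2
          exact h2.2
        have h3 : (badq h hL ρ Ω S u).card ≤ (Bu u).card + (S.filter fun s => Sp G p s).card := by
          rw [← Finset.card_filter_add_card_filter_not (s := badq h hL ρ Ω S u)
            (p := fun s => ¬ Sp G p s)]
          refine Nat.add_le_add_left (Finset.card_le_card ?_) _
          intro s hs
          rw [Finset.mem_filter, not_not] at hs
          rw [Finset.mem_filter]
          refine ⟨?_, hs.2⟩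
          have := hs.1
          unfold badq at this
          exact (Finset.mem_filter.1 this).1
        omega
      -- a good new point
      obtain ⟨s, hs, hsU⟩ : ∃ s ∈ S, U.card ≤ 16 * (U.filter fun u => s ∈ Bu u).card := by
        by_contra hcon2
        push Not at hcon2
        have h1 : ∑ s ∈ S, 16 * (U.filter fun u => s ∈ Bu u).card < ∑ _s ∈ S, U.card :=
          Finset.sum_lt_sum_of_nonempty hSpos hcon2
        rw [Finset.sum_const, smul_eq_mul, ← Finset.mul_sum] at h1
        have h2 : ∑ s ∈ S, (U.filter fun u => s ∈ Bu u).card = ∑ u ∈ U, (Bu u).card := by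
          simp only [Finset.card_filter]
          rw [Finset.sum_comm]
          refine Finset.sum_congr rfl fun u _ => ?_
          rw [← Finset.card_filter]
          congr 1
          ext s
          rw [Finset.mem_filter]
          constructor
          · exact fun h => h.2
          · intro h
            refine ⟨?_, h⟩
            have h3 := (Finset.mem_filter.1 h).1
            unfold badq at h3
            exact (Finset.mem_filter.1 h3).1
        rw [h2] at h1
        have h3 : S.card * U.card ≤ 16 * ∑ u ∈ U, (Bu u).card := by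
          rw [Finset.mul_sum, mul_comm, ← smul_eq_mul, ← Finset.sum_const]
          exact Finset.sum_le_sum hBu
        omega
      set U' := U.filter fun u => s ∈ Bu u with hU'
      have hsT : s ∈ T := hST hs
      have hU'T : ∀ u ∈ U', u ∈ T := fun u hu => hUT (Finset.mem_filter.1 hu).1
      have hU'sp : ∀ u ∈ U', Sp (h ^ j) p u := fun u hu => hUp u (Finset.mem_filter.1 hu).1
      have hU'r : ∀ u ∈ U', ¬ Sp G p s ∧ Ω < (Wp h hL ρ S u s).card := by
        intro u hu
        have h1 := (Finset.mem_filter.1 hu).2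
        have h2 := Finset.mem_filter.1 h1
        refine ⟨h2.2, ?_⟩
        have h3 := h2.1
        unfold badq at h3
        exact (Finset.mem_filter.1 h3).2.2
      -- the elements of the larger span
      set q1 : Fin (d + 1) → ℚ := Fin.snoc p s with hq1
      set F1 := S.filter fun t => Sp G q1 t with hF1
      have hF1c : 2 * F1.card ^ 2 < Ω := by
        by_contra h1
        push Not at h1
        obtain ⟨p', hp'⟩ := Sp.pad (d' := 2 * m + 2) hGpos (by omega : d + 1 ≤ 2 * m + 2) q1
        obtain ⟨t, ht, h3⟩ := hP p' F1 ((Finset.filter_subset _ _).trans hST) (Or.inr h1)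
        exact h3 (hp' t (Finset.mem_filter.1 ht).2)
      let W1 : ℚ → Finset (ℚ × ℚ) := fun u => (Wp h hL ρ S u s).filter fun q => ¬ Sp G1 q1 q.1
      have hW1 : ∀ u ∈ U', Ω < 2 * (W1 u).card := by
        intro u hu
        have h1 := (hU'r u hu).2
        have h2 : (Wp h hL ρ S u s).card ≤ (W1 u).card + F1.card ^ 2 := by
          rw [← Finset.card_filter_add_card_filter_not (s := Wp h hL ρ S u s)
            (p := fun q => ¬ Sp G1 q1 q.1)]
          refine Nat.add_le_add_left ?_ _
          rw [sq, ← Finset.card_product]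
          refine Finset.card_le_card fun q hq => ?_
          rw [Finset.mem_filter, not_not] at hq
          obtain ⟨hq1', hq2⟩ := hq
          unfold Wp at hq1'
          obtain ⟨hq3, α, hα, β, hβ, γ, hγ, e⟩ := Finset.mem_filter.1 hq1'
          obtain ⟨⟨k1, k2⟩, -, -⟩ := mem_goodp.1 hq3
          rw [Finset.mem_product, hF1, Finset.mem_filter, Finset.mem_filter]
          refine ⟨⟨k1, hq2.mono hG1G⟩, k2, ?_⟩
          obtain ⟨c, hc, e1⟩ := hU'sp u hu
          obtain ⟨c', hc', e2⟩ := hq2
          refine ⟨Fin.snoc (fun i => α * c i + γ * c' (Fin.castSucc i)) (β + γ * c' (Fin.last d)),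
            ?_, ?_⟩
          · intro i
            have hb1 : 2 * (h * h ^ j * (h * G1)) ≤ G := by
              calc 2 * (h * h ^ j * (h * G1)) = 8 * h ^ (j + 2 * m + 6) := by rw [hG1]; ring
                _ ≤ G := Nat.mul_le_mul_left _ (hpw _ _ (by omega))
            have hb2 : 2 * (h * (h * G1)) ≤ G := by
              calc 2 * (h * (h * G1)) = 8 * h ^ (2 * m + 6) := by rw [hG1]; ring
                _ ≤ G := Nat.mul_le_mul_left _ (hpw _ _ (by omega))
            refine Fin.lastCases ?_ (fun i => ?_) i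
            · rw [Fin.snoc_last]
              exact box_mono hb2 (box_add hβ (box_mul hγ (hc' _)))
            · rw [Fin.snoc_castSucc]
              exact box_mono hb1 (box_add (box_mul hα (hc i)) (box_mul hγ (hc' _)))
          · rw [e, e2, e1, Fin.sum_univ_castSucc, Fin.sum_univ_castSucc]
            simp only [Fin.snoc_castSucc, Fin.snoc_last, hq1]
            rw [mul_add, Finset.mul_sum, Finset.mul_sum]
            have e3 : ∑ i, (α * c i + γ * c' (Fin.castSucc i)) * p i =
                ∑ i, α * (c i * p i) + ∑ i, γ * (c' (Fin.castSucc i) * p i) := by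
              rw [← Finset.sum_add_distrib]
              refine Finset.sum_congr rfl fun i _ => by ring
            rw [e3]
            ring
        omega
      -- the second new point
      let Rt : ℚ → ℚ → Finset ℚ := fun u t' => S.filter fun s' => (t', s') ∈ W1 u
      obtain ⟨t', ht', htU⟩ : ∃ t' ∈ S, U'.card * ω ≤ 2 * ∑ u ∈ U', (Rt u t').card := by
        by_contra hcon2
        push Not at hcon2
        have h1 : ∑ t' ∈ S, 2 * ∑ u ∈ U', (Rt u t').card < ∑ _t' ∈ S, U'.card * ω :=
          Finset.sum_lt_sum_of_nonempty hSpos hcon2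
        rw [Finset.sum_const, smul_eq_mul, ← Finset.mul_sum, Finset.sum_comm] at h1
        have h2 : ∀ u ∈ U', ∑ t' ∈ S, (Rt u t').card = (W1 u).card := by
          intro u _
          rw [Finset.card_eq_sum_card_fiberwise (f := Prod.fst) (s := W1 u) (t := S)]
          · refine Finset.sum_congr rfl fun t' _ => ?_
            have h3 : ((W1 u).filter fun q => q.1 = t') = (Rt u t').image fun s' => (t', s') := by
              ext ⟨a, b⟩
              simp only [Finset.mem_filter, Finset.mem_image, Prod.mk.injEq, Rt]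
              constructor
              · rintro ⟨h3, rfl⟩
                refine ⟨b, ⟨?_, h3⟩, rfl, rfl⟩
                have h4 := (Finset.mem_filter.1 h3).1
                unfold Wp at h4
                exact (mem_goodp.1 (Finset.mem_filter.1 h4).1).1.2
              · rintro ⟨b', ⟨h3, h4⟩, rfl, rfl⟩
                exact ⟨h4, rfl⟩
            rw [h3]
            exact (Finset.card_image_of_injective _ fun a b hab => (Prod.mk.inj hab).2).symm
          · intro q hq
            have h4 := (Finset.mem_filter.1 (Finset.mem_coe.1 hq)).1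
            unfold Wp at h4
            exact (mem_goodp.1 (Finset.mem_filter.1 h4).1).1.1
        rw [Finset.sum_congr rfl h2] at h1
        have h3 : U'.card * Ω ≤ 2 * ∑ u ∈ U', (W1 u).card := by
          rw [Finset.mul_sum, ← smul_eq_mul, ← Finset.sum_const]
          exact Finset.sum_le_sum fun u hu => (hW1 u hu).le
        have h4 : S.card * (U'.card * ω) ≤ U'.card * Ω := by
          rw [hΩ]
          calc S.card * (U'.card * ω) = U'.card * (ω * S.card) := by ring
            _ ≤ _ := Nat.mul_le_mul_left _ (Nat.mul_le_mul_left _ (Finset.card_le_card hST))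
        omega
      -- the line through `s` and `t'`
      set L := S.filter fun r => (t', r) ∈ goodp hL ρ S ∧
        ∃ β ∈ box h, ∃ γ ∈ box h, r = β * s + γ * t' with hLdef
      have hLc : L.card ≤ ρ := line_few hh hhL hST hT0 hsep s t' L
        (fun r hr => (Finset.mem_filter.1 hr).2.1) (fun r hr => (Finset.mem_filter.1 hr).2.2)
      let R : ℚ → Finset ℚ := fun u => Rt u t' \ L
      have hRc : ∀ u ∈ U', (Rt u t').card ≤ (R u).card + ρ := by
        intro u _
        have h1 := Finset.le_card_sdiff L (Rt u t')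
        have h2 : (R u).card = (Rt u t' \ L).card := rfl
        omega
      have hRm : ∀ u, ∀ r ∈ R u, r ∈ S ∧ r ∉ L ∧ (t', r) ∈ goodp hL ρ S ∧ Cop h u s t' r ∧
          ¬ Sp G1 q1 t' := by
        intro u r hr
        obtain ⟨h1, h2⟩ := Finset.mem_sdiff.1 hr
        obtain ⟨h3, h4⟩ := Finset.mem_filter.1 h1
        obtain ⟨h5, h6⟩ := Finset.mem_filter.1 h4
        unfold Wp at h5
        obtain ⟨h7, h8⟩ := Finset.mem_filter.1 h5
        exact ⟨h3, h2, h7, h8, h6⟩
      have hhj : 2 * (h * h ^ j * (h * h ^ j)) * (2 * (h * h)) ≤ G1 := by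
        calc 2 * (h * h ^ j * (h * h ^ j)) * (2 * (h * h)) = 4 * h ^ (2 * j + 4) := by ring
          _ ≤ G1 := Nat.mul_le_mul_left _ (hpw _ _ (by omega))
      have hdisj : (U' : Set ℚ).PairwiseDisjoint R := by
        intro u hu u' hu' huu
        refine Finset.disjoint_left.2 fun r hr hr' => ?_
        have hu := Finset.mem_coe.1 hu
        have hu' := Finset.mem_coe.1 hu'
        obtain ⟨hrS, hrL, hrg, ⟨α, hα, β, hβ, γ, hγ, e1⟩, ht'1⟩ := hRm u r hr
        obtain ⟨-, -, -, ⟨α', hα', β', hβ', γ', hγ', e2⟩, -⟩ := hRm u' r hr'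
        obtain ⟨c, hc, e4⟩ := hU'sp u hu
        obtain ⟨c', hc', e5⟩ := hU'sp u' hu'
        have e3 := e1.symm.trans e2
        by_cases hγe : γ = γ'
        · by_cases hβe : β = β'
          · have e6 : α * u = α' * u' := by
              rw [hγe, hβe] at e3
              linear_combination e3
            have hα0 : α ≠ 0 := by
              rintro rfl
              apply hrL
              refine Finset.mem_filter.2 ⟨hrS, hrg, β, hβ, γ, hγ, ?_⟩
              rw [e1]; ring
            have hα'0 : α' ≠ 0 := by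
              rintro rfl
              rw [zero_mul] at e6
              exact mul_ne_zero hα0 (hT0 u (hU'T u hu)) e6
            refine hsep u' (hU'T u' hu') u (hU'T u hu) (Ne.symm huu) ?_
            have e7 : u' / u = α * α'⁻¹ := by
              rw [div_eq_iff (hT0 u (hU'T u hu))]
              field_simp
              rw [mul_comm u', ← e6]
            rw [e7]
            exact box_mul hα (inv_mem_box hα' hα'0)
          · apply (hU'r u hu).1
            have hb : β' - β ≠ 0 := sub_ne_zero.2 (Ne.symm hβe)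
            have e6 : s = (α * u - α' * u') * (β' - β)⁻¹ := by
              rw [eq_mul_inv_iff_mul_eq₀ hb]
              rw [hγe] at e3
              linear_combination -e3
            refine ⟨fun i => (α * c i - α' * c' i) * (β' - β)⁻¹, fun i => ?_, ?_⟩
            · exact box_mono (hhj.trans hG1G)
                (box_mul (box_sub' (box_mul hα (hc i)) (box_mul hα' (hc' i)))
                  (inv_mem_box (box_sub' hβ' hβ) hb))
            · rw [e6, e4, e5, Finset.mul_sum, Finset.mul_sum, ← Finset.sum_sub_distrib,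
                Finset.sum_mul]
              refine Finset.sum_congr rfl fun i _ => ?_
              ring
        · apply ht'1
          have hb : γ' - γ ≠ 0 := sub_ne_zero.2 (Ne.symm hγe)
          have e6 : t' = (α * u - α' * u') * (γ' - γ)⁻¹ + ((β - β') * (γ' - γ)⁻¹) * s := by
            have e7 : t' * (γ' - γ) = (α * u - α' * u') + (β - β') * s := by
              linear_combination -e3
            have e8 : t' = ((α * u - α' * u') + (β - β') * s) * (γ' - γ)⁻¹ := by
              rw [eq_mul_inv_iff_mul_eq₀ hb]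
              exact e7
            rw [e8]
            ring
          refine ⟨Fin.snoc (fun i => (α * c i - α' * c' i) * (γ' - γ)⁻¹) ((β - β') * (γ' - γ)⁻¹),
            ?_, ?_⟩
          · intro i
            refine Fin.lastCases ?_ (fun i => ?_) i
            · rw [Fin.snoc_last]
              refine box_mono ?_ (box_mul (box_sub' hβ hβ') (inv_mem_box (box_sub' hγ' hγ) hb))
              calc 2 * (h * h) * (2 * (h * h)) = 4 * h ^ 4 := by ring
                _ ≤ G1 := Nat.mul_le_mul_left _ (hpw _ _ (by omega))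
            · rw [Fin.snoc_castSucc]
              exact box_mono hhj
                (box_mul (box_sub' (box_mul hα (hc i)) (box_mul hα' (hc' i)))
                  (inv_mem_box (box_sub' hγ' hγ) hb))
          · rw [Fin.sum_univ_castSucc]
            simp only [Fin.snoc_castSucc, Fin.snoc_last, hq1]
            conv_lhs => rw [e6]
            rw [e4, e5, Finset.mul_sum, Finset.mul_sum, ← Finset.sum_sub_distrib, Finset.sum_mul]
            congr 1
            refine Finset.sum_congr rfl fun i _ => ?_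
            ring
      refine ⟨d + 1 + 1, by omega, Fin.snoc q1 t', U'.biUnion R, ?_, ?_, ?_⟩
      · intro r hr
        obtain ⟨u, _, hr⟩ := Finset.mem_biUnion.1 hr
        exact (hRm u r hr).1
      · intro r hr
        obtain ⟨u, hu, hr⟩ := Finset.mem_biUnion.1 hr
        obtain ⟨-, -, -, ⟨α, hα, β, hβ, γ, hγ, e1⟩, -⟩ := hRm u r hr
        obtain ⟨c, hc, e4⟩ := hU'sp u hu
        refine ⟨Fin.snoc (Fin.snoc (fun i => α * c i) β) γ, ?_, ?_⟩
        · intro i
          have hb1 : h ≤ h ^ (j + 1) := Nat.le_self_pow (by omega) h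
          refine Fin.lastCases ?_ (fun i => ?_) i
          · rw [Fin.snoc_last]
            exact box_mono hb1 hγ
          · rw [Fin.snoc_castSucc]
            refine Fin.lastCases ?_ (fun i => ?_) i
            · rw [Fin.snoc_last]
              exact box_mono hb1 hβ
            · rw [Fin.snoc_castSucc]
              refine box_mono ?_ (box_mul hα (hc i))
              rw [pow_succ, mul_comm]
        · rw [Fin.sum_univ_castSucc, Fin.sum_univ_castSucc]
          simp only [Fin.snoc_castSucc, Fin.snoc_last, hq1]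
          rw [e1, e4, Finset.mul_sum]
          congr 2
          refine Finset.sum_congr rfl fun i _ => ?_
          ring
      · rw [Finset.card_biUnion hdisj]
        have h1 : ∑ u ∈ U', (Rt u t').card ≤ ∑ u ∈ U', (R u).card + U'.card * ρ := by
          rw [← smul_eq_mul (a := U'.card), ← Finset.sum_const, ← Finset.sum_add_distrib]
          exact Finset.sum_le_sum hRc
        have h2 : U'.card * ω ≤ 4 * ∑ u ∈ U', (R u).card := by
          have h3 : U'.card * (4 * ρ) ≤ U'.card * ω := Nat.mul_le_mul_left _ hω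
          have h4 : U'.card * (4 * ρ) = 4 * (U'.card * ρ) := by ring
          omega
        calc ω ^ (j + 1) = ω ^ j * ω := pow_succ _ _
          _ ≤ (64 ^ j * U.card) * ω := Nat.mul_le_mul_right _ hUc
          _ ≤ (64 ^ j * (16 * U'.card)) * ω := by gcongr
          _ = 64 ^ j * 16 * (U'.card * ω) := by ring
          _ ≤ 64 ^ j * 16 * (4 * ∑ u ∈ U', (R u).card) := Nat.mul_le_mul_left _ h2
          _ = _ := by ring
  obtain ⟨d, -, p, U, hU, -, hUc⟩ := key m le_rfl
  have h1 : U.card ≤ T.card :=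
    Finset.card_le_card (hU.trans (by rw [Nat.sub_self]; exact (hprop 0 (by omega)).1))
  have h2 : 64 ^ m * U.card ≤ 64 ^ m * T.card := Nat.mul_le_mul_left _ h1
  omega

end Pool.Agent.Zk30.DL
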