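import Mathlib
import Pool.Agent.Zk30.DL.Main
import Pool.Agent.Zk30.DL.Sum4

/-!
# Sets covered by few dilates: the bound with planes
-/

set_option autoImplicit false

namespace Pool.Agent.Zk30.DL

open Pool.Agent.TH551.SU Pool.Agent.TH539.MQ Pool.Agent.Zk30.FU
open scoped Pointwise

lemma numS2 {n κ S k M n' K D CL K0 C3 : ℝ} (hn : 0 < n) (hk : 0 < k) (hM : 0 < M) (hκ : 1 ≤ κ)
    (hn' : 0 < n') (hD : 0 < D) (hCL : 1 ≤ CL) (hK0 : 0 < K0)
    (hS : 0 ≤ S) (hC3 : 0 < C3) (hsize : n ≤ CL * κ ^ 2 * (n' * M)) (hkn : n' ≤ K0 * k)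
    (hmain : k ^ 2 * M ^ 4 ≤ C3 * κ ^ 2 * S * (M ^ 2 + D ^ 2 + n')) (hK : n' ≤ K) :
    1 / (3 * C3 * K0 ^ 2 * CL ^ 6) * min (n ^ 2) (min (n * (n / K) ^ 3)
      (n ^ 2 * (n / K) ^ 4 / (D * M) ^ 2)) ≤ κ ^ 14 * S := by
  have hκ0 : 0 < κ := by linarith
  have hCL0 : 0 < CL := by linarith
  have hKpos : 0 < K := by linarith
  have h0 : n' ^ 2 * M ^ 4 ≤ K0 ^ 2 * (C3 * κ ^ 2 * S * (M ^ 2 + D ^ 2 + n')) := by
    calc n' ^ 2 * M ^ 4 ≤ (K0 * k) ^ 2 * M ^ 4 := by gcongr
      _ = K0 ^ 2 * (k ^ 2 * M ^ 4) := by ring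
      _ ≤ _ := by gcongr
  have hnK : n / K ≤ CL * κ ^ 2 * M := by
    calc n / K ≤ n / n' := by gcongr
      _ ≤ CL * κ ^ 2 * M := by
          rw [div_le_iff₀ hn']
          calc n ≤ CL * κ ^ 2 * (n' * M) := hsize
            _ = _ := by ring
  have hnK0 : 0 ≤ n / K := by positivity
  rw [one_div, inv_mul_le_iff₀ (by positivity)]
  have hmax : M ^ 2 + D ^ 2 + n' ≤ 3 * M ^ 2 ∨ M ^ 2 + D ^ 2 + n' ≤ 3 * n' ∨
      M ^ 2 + D ^ 2 + n' ≤ 3 * D ^ 2 := by
    rcases le_total (M ^ 2) (D ^ 2) with h1 | h1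
    · rcases le_total (D ^ 2) n' with h2 | h2
      · right; left; linarith
      · right; right; linarith
    · rcases le_total (M ^ 2) n' with h2 | h2
      · right; left; linarith
      · left; linarith
  rcases hmax with h1 | h1 | h1
  · have h2 : n' ^ 2 * M ^ 2 ≤ 3 * C3 * K0 ^ 2 * κ ^ 2 * S := by
      refine le_of_mul_le_mul_left ?_ (by positivity : 0 < M ^ 2)
      calc M ^ 2 * (n' ^ 2 * M ^ 2) = n' ^ 2 * M ^ 4 := by ring
        _ ≤ K0 ^ 2 * (C3 * κ ^ 2 * S * (M ^ 2 + D ^ 2 + n')) := h0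
        _ ≤ K0 ^ 2 * (C3 * κ ^ 2 * S * (3 * M ^ 2)) := by gcongr
        _ = _ := by ring
    calc min (n ^ 2) (min (n * (n / K) ^ 3) (n ^ 2 * (n / K) ^ 4 / (D * M) ^ 2)) ≤ n ^ 2 :=
          min_le_left _ _
      _ ≤ (CL * κ ^ 2 * (n' * M)) ^ 2 := by gcongr
      _ = CL ^ 2 * κ ^ 4 * (n' ^ 2 * M ^ 2) := by ring
      _ ≤ CL ^ 2 * κ ^ 4 * (3 * C3 * K0 ^ 2 * κ ^ 2 * S) := by gcongr
      _ = 3 * C3 * K0 ^ 2 * CL ^ 2 * (κ ^ 6 * S) := by ring
      _ ≤ 3 * C3 * K0 ^ 2 * CL ^ 6 * (κ ^ 14 * S) := by gcongr <;> norm_num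
  · have h2 : n' * M ^ 4 ≤ 3 * C3 * K0 ^ 2 * κ ^ 2 * S := by
      refine le_of_mul_le_mul_left ?_ hn'
      calc n' * (n' * M ^ 4) = n' ^ 2 * M ^ 4 := by ring
        _ ≤ K0 ^ 2 * (C3 * κ ^ 2 * S * (M ^ 2 + D ^ 2 + n')) := h0
        _ ≤ K0 ^ 2 * (C3 * κ ^ 2 * S * (3 * n')) := by gcongr
        _ = _ := by ring
    calc min (n ^ 2) (min (n * (n / K) ^ 3) (n ^ 2 * (n / K) ^ 4 / (D * M) ^ 2))
        ≤ n * (n / K) ^ 3 := (min_le_right _ _).trans (min_le_left _ _)
      _ ≤ (CL * κ ^ 2 * (n' * M)) * (CL * κ ^ 2 * M) ^ 3 := by gcongr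
      _ = CL ^ 4 * κ ^ 8 * (n' * M ^ 4) := by ring
      _ ≤ CL ^ 4 * κ ^ 8 * (3 * C3 * K0 ^ 2 * κ ^ 2 * S) := by gcongr
      _ = 3 * C3 * K0 ^ 2 * CL ^ 4 * (κ ^ 10 * S) := by ring
      _ ≤ 3 * C3 * K0 ^ 2 * CL ^ 6 * (κ ^ 14 * S) := by gcongr <;> norm_num
  · have h2 : n' ^ 2 * M ^ 4 ≤ 3 * C3 * K0 ^ 2 * κ ^ 2 * S * D ^ 2 := by
      calc n' ^ 2 * M ^ 4 ≤ K0 ^ 2 * (C3 * κ ^ 2 * S * (M ^ 2 + D ^ 2 + n')) := h0
        _ ≤ K0 ^ 2 * (C3 * κ ^ 2 * S * (3 * D ^ 2)) := by gcongr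
        _ = _ := by ring
    calc min (n ^ 2) (min (n * (n / K) ^ 3) (n ^ 2 * (n / K) ^ 4 / (D * M) ^ 2))
        ≤ n ^ 2 * (n / K) ^ 4 / (D * M) ^ 2 := (min_le_right _ _).trans (min_le_right _ _)
      _ ≤ (CL * κ ^ 2 * (n' * M)) ^ 2 * (CL * κ ^ 2 * M) ^ 4 / (D * M) ^ 2 := by gcongr
      _ = CL ^ 6 * κ ^ 12 * (n' ^ 2 * M ^ 4) / D ^ 2 := by
          field_simp
      _ ≤ CL ^ 6 * κ ^ 12 * (3 * C3 * K0 ^ 2 * κ ^ 2 * S * D ^ 2) / D ^ 2 := by gcongr
      _ = 3 * C3 * K0 ^ 2 * CL ^ 6 * (κ ^ 14 * S) := by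
          field_simp

theorem main2 (D : ℕ) (ε : ℝ) (hε : 0 < ε) : ∃ c : ℝ, 0 < c ∧ ∀ A : Finset ℚ, A.Nonempty →
    (∀ x ∈ A, x ≠ 0) → ∀ H : ℕ, 1 ≤ H → H ≤ (2 * A.card) ^ D → ∀ T : Finset ℚ,
    (∀ t ∈ T, t ≠ 0) → (∀ x ∈ A, ∃ t ∈ T, x / t ∈ box H) →
    ∃ μ : ℝ, 1 ≤ μ ∧ (c * (A.card : ℝ) ^ (1 - ε) ≤ μ ∨
      c * (A.card : ℝ) ^ (-ε) * min ((A.card : ℝ) ^ 2) (min (A.card * ((A.card : ℝ) / T.card) ^ 3)
        ((A.card : ℝ) ^ 2 * ((A.card : ℝ) / T.card) ^ 4 / μ ^ 2)) ≤ (A + A).card) ∧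
      ∀ m0 : ℚ, (∀ x ∈ A, x + m0 ≠ 0) → ∀ C : Finset ℚ, C.Nonempty → (∀ y ∈ C, y ≠ 0) →
        c * μ * C.card * ((A.card : ℝ) * C.card) ^ (-ε) ≤
          ((A.image fun x => x + m0) * C).card := by
  classical
  set ε0 : ℝ := ε / 14 with hε0
  have hε00 : 0 < ε0 := by positivity
  obtain ⟨i0, hi0⟩ := exists_nat_ge (1 / ε0)
  set i : ℕ := i0 + 1 with hi
  have hi1 : 1 ≤ ε0 * i := by
    have h1 : 1 / ε0 ≤ i := hi0.trans (by rw [hi]; push_cast; linarith)
    rw [div_le_iff₀ hε00] at h1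
    linarith
  obtain ⟨CL, hCL1, hCL⟩ := log_pow_bound (i + 1) ε0 hε00
  -- heights
  set w : ℕ := 17 ^ i with hw
  set eh : ℕ := D * w with heh
  set Ch : ℝ := (16 * 2 ^ D) ^ w with hCh
  have hCh1 : 1 ≤ Ch := one_le_pow₀ (by
    have : (1 : ℝ) ≤ 2 ^ D := one_le_pow₀ (by norm_num)
    linarith)
  set ε1 : ℝ := ε0 / (2 * eh + 1) with hε1
  have hε10 : 0 < ε1 := by positivity
  obtain ⟨K1, hK1, hrr⟩ := rr_bound ε1 hε10
  set eg : ℕ := eh * (24 * i + 49) with heg
  set Cg : ℝ := 8 * 4 ^ (3 * i + 6) * Ch ^ (24 * i + 49) with hCg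
  have hCg1 : 1 ≤ Cg := by
    have h1 : (1 : ℝ) ≤ 4 ^ (3 * i + 6) := one_le_pow₀ (by norm_num)
    have h2 : (1 : ℝ) ≤ Ch ^ (24 * i + 49) := one_le_pow₀ hCh1
    rw [hCg]
    nlinarith
  set ε2 : ℝ := ε0 / (eg + 1) with hε2
  have hε20 : 0 < ε2 := by positivity
  obtain ⟨K2, hK2, harb⟩ := arbV (2 * i + 2 + 1) ε2 hε20
  -- the constants
  set C2 : ℝ := 2 * K1 * (Ch ^ 2) ^ ε1 + 1 with hC2
  have hC20 : 0 < C2 := by rw [hC2]; positivity
  set K0 : ℕ := (8 * 4 ^ i) ^ (i + 1) with hK0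
  have hK01 : 1 ≤ K0 := Nat.pow_pos (by positivity)
  set K' : ℕ := 16 * K0 * (8 * 4 ^ i) with hK'
  have hK'1 : 1 ≤ K' := Nat.mul_pos (Nat.mul_pos (by norm_num) hK01) (by positivity)
  set C3 : ℝ := 16 * (100 + 109 * C2) with hC3
  have hC30 : 0 < C3 := by rw [hC3]; positivity
  set cS : ℝ := 1 / (3 * C3 * (K0 : ℝ) ^ 2 * CL ^ 6) with hcS
  have hK0r : (0 : ℝ) < K0 := by exact_mod_cast hK01
  have hK'r : (0 : ℝ) < K' := by exact_mod_cast hK'1
  have hcS0 : 0 < cS := by rw [hcS]; positivity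
  set cF : ℝ := 1 / (K' * CL) with hcF
  have hcF0 : 0 < cF := by rw [hcF]; positivity
  set cP : ℝ := 1 / (K2 * Cg ^ ε2) with hcP
  have hcP0 : 0 < cP := by rw [hcP]; positivity
  refine ⟨min cS (min cF cP), lt_min hcS0 (lt_min hcF0 hcP0),
    fun A hA hA0 H hH hHA T hT0 hcov => ?_⟩
  set n : ℝ := (A.card : ℝ) with hn
  have hn1 : 1 ≤ n := by rw [hn]; exact_mod_cast hA.card_pos
  have hn0 : 0 < n := by linarith
  set κ : ℝ := n ^ ε0 with hκ
  have hκ1 : 1 ≤ κ := Real.one_le_rpow hn1 hε00.le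
  have hκ0 : 0 < κ := by linarith
  have hlog : 0 ≤ Real.log n := Real.log_nonneg hn1
  -- choice of the dilates
  choose! col hcolT hcolb using hcov
  set T1 := A.image col with hT1
  have hT1T : T1 ⊆ T := by
    intro t ht
    obtain ⟨x, hx, rfl⟩ := Finset.mem_image.1 ht
    exact hcolT x hx
  have hT1c : (T1.card : ℝ) ≤ κ ^ i := by
    calc (T1.card : ℝ) ≤ A.card := by exact_mod_cast Finset.card_image_le
      _ = n ^ (1 : ℝ) := by rw [Real.rpow_one]
      _ ≤ n ^ (ε0 * i) := Real.rpow_le_rpow_of_exponent_le hn1 hi1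
      _ = κ ^ i := by rw [hκ, ← Real.rpow_natCast, ← Real.rpow_mul hn0.le]
  obtain ⟨T', hT'T, hT'n, H', M, hHH', hH'b, hM1, hsep, hTM, hAc⟩ :=
    sel A.card (1 + Real.log n) κ (harm A.card) (by linarith) hκ1 i T1 H A hH
      (fun t ht => hT0 t (hT1T ht)) hT1c (fun x hx => ⟨col x, Finset.mem_image_of_mem _ hx,
        hcolb x hx⟩) hA le_rfl
  have hT'T0 : T' ⊆ T := hT'T.trans hT1T
  have hH'1 : 1 ≤ H' := hH.trans hHH'
  have hT'0 : ∀ t ∈ T', t ≠ 0 := fun t ht => hT0 t (hT'T0 ht)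
  choose! B hBsub hBM using fun t ht => Finset.exists_subset_card_eq (hTM t ht)
  have hBA : ∀ t ∈ T', B t ⊆ A := fun t ht => (hBsub t ht).trans (Finset.filter_subset _ _)
  have hB : ∀ t ∈ T', ∀ x ∈ B t, x ≠ 0 ∧ x / t ∈ box H' := by
    intro t ht x hx
    obtain ⟨h1, h2⟩ := Finset.mem_filter.1 (hBsub t ht hx)
    exact ⟨hA0 x h1, h2⟩
  have hM0 : (0 : ℝ) < M := by exact_mod_cast hM1
  have hMn : (M : ℝ) ≤ n := by
    obtain ⟨t, ht⟩ := hT'n
    rw [hn]
    exact_mod_cast (hTM t ht).trans (Finset.card_le_card (Finset.filter_subset _ _))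
  -- the size of `A`
  have hsize : n ≤ CL * κ ^ 2 * (T'.card * M) := by
    calc n ≤ (1 + Real.log n) ^ (i + 1) * κ * (T'.card * M) := hAc
      _ ≤ (CL * n ^ ε0) * κ * (T'.card * M) := by
          gcongr
          exact hCL n hn1
      _ = _ := by rw [← hκ]; ring
  -- heights
  have hH'r : (H' : ℝ) ≤ Ch * n ^ eh := by
    have h1 : H' ≤ (16 * (2 * A.card) ^ D) ^ w := by
      calc H' ≤ 16 * H' := by omega
        _ ≤ (16 * H) ^ w := hH'b
        _ ≤ (16 * (2 * A.card) ^ D) ^ w := Nat.pow_le_pow_left (Nat.mul_le_mul_left _ hHA) _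
    calc (H' : ℝ) ≤ (((16 * (2 * A.card) ^ D) ^ w : ℕ) : ℝ) := by exact_mod_cast h1
      _ = (16 * (2 * n) ^ D) ^ w := by rw [hn]; push_cast; rfl
      _ = Ch * n ^ eh := by
          rw [hCh, heh, mul_pow 2 n D, pow_mul, ← mul_pow]
          congr 1
          ring
  set h : ℕ := 4 * H' ^ 8 with hh
  have hh1 : 1 ≤ h := by
    have : 1 ≤ H' ^ 8 := Nat.one_le_pow _ _ hH'1
    omega
  set hc : ℕ := H' * H' with hhc
  have hhc1 : 1 ≤ hc := Nat.mul_pos hH'1 hH'1
  have hhch : hc ≤ h := by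
    calc hc = 1 * H' ^ 2 := by rw [hhc]; ring
      _ ≤ 4 * H' ^ 8 := Nat.mul_le_mul (by norm_num) (Nat.pow_le_pow_right hH'1 (by norm_num))
  have hhcL : 2 * hc ^ 4 ≤ h := by
    calc 2 * hc ^ 4 = 2 * H' ^ 8 := by rw [hhc]; ring
      _ ≤ 4 * H' ^ 8 := Nat.mul_le_mul_right _ (by norm_num)
  have hsepc : ∀ t ∈ T', ∀ s ∈ T', t ≠ s → t / s ∉ box (hc * hc) := fun t ht s hs hts hb =>
    hsep t ht s hs hts (box_mono (Nat.mul_le_mul hhch hhch) hb)
  set ρ : ℕ := ⌈8 * κ⌉₊ + 1 with hρ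
  have hρlo : 8 * κ < ρ := by
    rw [hρ]; push_cast
    have := Nat.le_ceil (8 * κ)
    linarith
  have hρhi : (ρ : ℝ) ≤ 10 * κ := by
    rw [hρ]; push_cast
    have := Nat.ceil_lt_add_one (show 0 ≤ 8 * κ by positivity)
    linarith
  have hT'κ : (T'.card : ℝ) ≤ κ ^ i :=
    le_trans (by exact_mod_cast Finset.card_le_card hT'T) hT1c
  have hT'pos : 0 < T'.card := hT'n.card_pos
  -- the largest part in a space of bounded dimension
  set G : ℕ := 8 * h ^ (3 * i + 6) with hG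
  have hG1 : 1 ≤ G := by
    have : 1 ≤ h ^ (3 * i + 6) := Nat.one_le_pow _ _ hh1
    omega
  let PP : Finset (Finset ℚ) := T'.powerset.filter fun X =>
    ∃ p : Fin (2 * i + 2) → ℚ, ∀ t ∈ X, Sp G p t
  have hPP : PP.Nonempty := ⟨∅, by simp [PP]⟩
  obtain ⟨TD, hTD, hTDmax⟩ := Finset.exists_max_image PP Finset.card hPP
  obtain ⟨hTDs, p, hp⟩ := Finset.mem_filter.1 hTD
  rw [Finset.mem_powerset] at hTDs
  have hmax : ∀ {d : ℕ} (q : Fin d → ℚ) (X : Finset ℚ), d ≤ 2 * i + 2 → X ⊆ T' → ∀ g' : ℕ,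
      g' ≤ G → (∀ t ∈ X, Sp g' q t) → X.card ≤ TD.card := by
    intro d q X hd hX g' hg' hq
    obtain ⟨q', hq'⟩ := Sp.pad (d' := 2 * i + 2) hG1 hd q
    exact hTDmax X (Finset.mem_filter.2 ⟨Finset.mem_powerset.2 hX, q',
      fun t ht => hq' t ((hq t ht).mono hg')⟩)
  have hDpos : 0 < TD.card := by
    obtain ⟨t, ht⟩ := hT'n
    have h1 := hmax (d := 1) (fun _ => t) {t} (by omega) (Finset.singleton_subset_iff.2 ht) 1 hG1
      (by
        intro s hs
        rw [Finset.mem_singleton.1 hs]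
        exact ⟨fun _ => 1, fun _ => mem_box (by simp) (by simp), by simp⟩)
    rw [Finset.card_singleton] at h1
    omega
  set d : ℝ := (TD.card : ℝ) with hd
  have hd0 : 0 < d := by rw [hd]; exact_mod_cast hDpos
  have hd1 : 1 ≤ d := by rw [hd]; exact_mod_cast hDpos
  have hM1r : (1 : ℝ) ≤ M := by exact_mod_cast hM1
  refine ⟨d * M, by nlinarith, ?_, ?_⟩
  · by_cases hfull : T'.card ≤ K' * TD.card
    · -- a space which contains a positive proportion
      left
      have h1 : (T'.card : ℝ) ≤ K' * d := by rw [hd]; exact_mod_cast hfull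
      have h2 : n ≤ (K' * CL) * κ ^ 2 * (d * M) := by
        calc n ≤ CL * κ ^ 2 * (T'.card * M) := hsize
          _ ≤ CL * κ ^ 2 * ((K' * d) * M) := by gcongr
          _ = _ := by ring
      have h3 : n ^ (1 - ε) * κ ^ 2 ≤ n := by
        rw [hκ, ← Real.rpow_natCast, ← Real.rpow_mul hn0.le, ← Real.rpow_add hn0]
        calc n ^ (1 - ε + ε0 * ((2 : ℕ) : ℝ)) ≤ n ^ (1 : ℝ) := by
              refine Real.rpow_le_rpow_of_exponent_le hn1 ?_
              rw [hε0]; push_cast; linarith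
          _ = n := Real.rpow_one n
      have h4 : n ^ (1 - ε) ≤ (K' * CL) * (d * M) := by
        refine le_of_mul_le_mul_right ?_ (by positivity : 0 < κ ^ 2)
        calc n ^ (1 - ε) * κ ^ 2 ≤ n := h3
          _ ≤ (K' * CL) * κ ^ 2 * (d * M) := h2
          _ = _ := by ring
      calc min cS (min cF cP) * n ^ (1 - ε) ≤ cF * n ^ (1 - ε) := by
            gcongr
            exact (min_le_right _ _).trans (min_le_left _ _)
        _ ≤ cF * ((K' * CL) * (d * M)) := by gcongr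
        _ = d * M := by
            rw [hcF]
            field_simp
    · right
      push Not at hfull
      -- refinements
      have href : ∀ X ⊆ T', T'.card ≤ (8 * 4 ^ i) ^ (i + 1) * X.card →
          ∃ Y ⊆ X, X.card ≤ 4 ^ i * Y.card ∧ Y.card ^ 2 ≤ 2 * (goodp h ρ Y).card := by
        intro X hX hXc
        have hXn : X.Nonempty := by
          rw [← Finset.card_pos]
          by_contra h1
          have h2 : X.card = 0 := by omega
          rw [h2, mul_zero] at hXc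
          omega
        have hbigX : 8 ^ i * X.card < ρ ^ i := by
          have h1 : ((8 ^ i * X.card : ℕ) : ℝ) < ((ρ ^ i : ℕ) : ℝ) := by
            push_cast
            calc (8 : ℝ) ^ i * X.card ≤ 8 ^ i * κ ^ i := by
                  gcongr
                  exact le_trans (by exact_mod_cast Finset.card_le_card hX) hT'κ
              _ = (8 * κ) ^ i := (mul_pow _ _ _).symm
              _ < ρ ^ i := pow_lt_pow_left₀ hρlo (by positivity) (by omega)
          exact_mod_cast h1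
        rcases chain h ρ i hh1 X (fun t ht => hT'0 t (hX ht))
          (fun t ht s hs => hsep t (hX ht) s (hX hs)) hXn hbigX with h1 | h1
        · exact h1
        · exfalso
          obtain ⟨q, X', hX', hX'c, hq⟩ := h1
          have h2 := hmax q X' (by omega) (hX'.trans hX) (4 * h ^ (2 * i + 4)) (by
            rw [hG]
            exact Nat.mul_le_mul (by norm_num) (Nat.pow_le_pow_right hh1 (by omega))) hq
          have h3 : T'.card ≤ K' * TD.card := by
            calc T'.card ≤ K0 * X.card := hXc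
              _ ≤ K0 * (8 * 4 ^ i * X'.card) := Nat.mul_le_mul_left _ hX'c
              _ ≤ K0 * (8 * 4 ^ i * TD.card) := by gcongr
              _ = 1 * (K0 * (8 * 4 ^ i) * TD.card) := by ring
              _ ≤ 16 * (K0 * (8 * 4 ^ i) * TD.card) := Nat.mul_le_mul_right _ (by norm_num)
              _ = K' * TD.card := by rw [hK']; ring
          omega
      obtain ⟨qd, hqd⟩ : ∃ q : ℕ, q = 2 * TD.card ^ 2 / T'.card := ⟨_, rfl⟩
      obtain ⟨ω, hω⟩ : ∃ q : ℕ, q = qd + 1 + (⌈65 * κ⌉₊ + 4 * ρ) := ⟨_, rfl⟩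
      have hω1 : 4 * ρ ≤ ω := by omega
      have hω2 : 2 * TD.card ^ 2 < ω * T'.card := by
        have h1 : 2 * TD.card ^ 2 < (qd + 1) * T'.card := by
          rw [hqd]
          exact Nat.lt_mul_of_div_lt (Nat.lt_succ_self _) hT'pos
        refine h1.trans_le (Nat.mul_le_mul_right _ ?_)
        omega
      have hω3 : ((ω * T'.card : ℕ) : ℝ) ≤ 109 * κ * (d ^ 2 + T'.card) := by
        have h1 : ((qd * T'.card : ℕ) : ℝ) ≤ 2 * d ^ 2 := by
          have h2 := Nat.div_mul_le_self (2 * TD.card ^ 2) T'.card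
          rw [← hqd] at h2
          rw [hd]
          exact_mod_cast h2
        have h3 := Nat.ceil_lt_add_one (show 0 ≤ 65 * κ by positivity)
        have hTc0 : (0 : ℝ) ≤ T'.card := Nat.cast_nonneg _
        have h5 : ((ω * T'.card : ℕ) : ℝ) =
            ((qd * T'.card : ℕ) : ℝ) +
              (1 + ((⌈65 * κ⌉₊ : ℝ) + 4 * ρ)) * T'.card := by
          rw [hω]
          push_cast
          ring
        rw [h5]
        calc ((qd * T'.card : ℕ) : ℝ) +
              (1 + ((⌈65 * κ⌉₊ : ℝ) + 4 * ρ)) * T'.card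
            ≤ 2 * d ^ 2 + (1 + ((65 * κ + 1) + 4 * (10 * κ))) * T'.card := by gcongr
          _ ≤ 109 * κ * d ^ 2 + (109 * κ) * T'.card := by
              gcongr
              · nlinarith
              · nlinarith
          _ = _ := by ring
      have hbig : 64 ^ i * T'.card < ω ^ i := by
        have hωlo : 64 * κ < ω := by
          have h1 : 65 * κ ≤ ω := by
            calc 65 * κ ≤ (⌈65 * κ⌉₊ : ℝ) := Nat.le_ceil _
              _ ≤ ω := by
                  rw [hω]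
                  exact_mod_cast (by omega : ⌈65 * κ⌉₊ ≤ qd + 1 + (⌈65 * κ⌉₊ + 4 * ρ))
          linarith
        have h1 : ((64 ^ i * T'.card : ℕ) : ℝ) < ((ω ^ i : ℕ) : ℝ) := by
          push_cast
          calc (64 : ℝ) ^ i * T'.card ≤ 64 ^ i * κ ^ i := by gcongr
            _ = (64 * κ) ^ i := (mul_pow _ _ _).symm
            _ < ω ^ i := pow_lt_pow_left₀ hωlo (by positivity) (by omega)
        exact_mod_cast h1
      rcases chain2 hc h ρ ω i (4 ^ i) hhc1 hhcL hω1 (Nat.one_le_pow _ _ (by norm_num)) T' hT'0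
        hsepc hT'n hbig href with hcase | hcase
      · -- many sums
        obtain ⟨T2, hT2, hT2c, hgood⟩ := hcase
        have hT2n : T2.Nonempty := by
          rw [← Finset.card_pos]
          by_contra h1
          have h2 : T2.card = 0 := by omega
          rw [h2, mul_zero] at hT2c
          omega
        set k : ℝ := (T2.card : ℝ) with hk
        have hk0 : 0 < k := by rw [hk]; exact_mod_cast hT2n.card_pos
        set τ : ℕ := ⌈2 * K1 * (Ch ^ 2) ^ ε1 * κ⌉₊ with hτ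
        have hτlo : 2 * K1 * (Ch ^ 2) ^ ε1 * κ ≤ τ := Nat.le_ceil _
        have hτhi : (τ : ℝ) ≤ C2 * κ := by
          have h1 := Nat.ceil_lt_add_one (show 0 ≤ 2 * K1 * (Ch ^ 2) ^ ε1 * κ by positivity)
          rw [hC2, add_mul, one_mul]
          linarith
        have hEb : K1 * (((H' * H' : ℕ) : ℝ) * M) ^ ε1 ≤ K1 * (Ch ^ 2) ^ ε1 * κ := by
          have h1 : (((H' * H' : ℕ) : ℝ) * M) ≤ Ch ^ 2 * n ^ (2 * eh + 1) := by
            push_cast
            calc (H' : ℝ) * H' * M ≤ (Ch * n ^ eh) * (Ch * n ^ eh) * n := by gcongr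
              _ = _ := by ring
          have h2 : (((H' * H' : ℕ) : ℝ) * M) ^ ε1 ≤ (Ch ^ 2) ^ ε1 * κ := by
            calc (((H' * H' : ℕ) : ℝ) * M) ^ ε1 ≤ (Ch ^ 2 * n ^ (2 * eh + 1)) ^ ε1 :=
                  Real.rpow_le_rpow (by positivity) h1 hε10.le
              _ = (Ch ^ 2) ^ ε1 * (n ^ (2 * eh + 1)) ^ ε1 :=
                  Real.mul_rpow (by positivity) (by positivity)
              _ = (Ch ^ 2) ^ ε1 * κ := by
                  congr 1
                  rw [← Real.rpow_natCast, ← Real.rpow_mul hn0.le, hκ]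
                  congr 1
                  rw [hε1]
                  push_cast
                  field_simp
          calc K1 * (((H' * H' : ℕ) : ℝ) * M) ^ ε1 ≤ K1 * ((Ch ^ 2) ^ ε1 * κ) := by gcongr
            _ = _ := by ring
        have hsum := sumside4 (H := H') (h := h) (k := hc) (T := T2) (B := B) hH'1 (by rw [hh])
          (by rw [hhc]) (fun t ht => hT'0 t (hT2 ht)) ρ M τ (ω * T'.card) (by
            intro t ht s hs
            have h0 := e0 hK1 hrr (H' * H') (Nat.mul_pos hH'1 hH'1) (B t) (B s) M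
              (fun x hx => (hB t (hT2 ht) x hx).1) (fun x hx => (hB s (hT2 hs) x hx).1)
              (hBM t (hT2 ht)) (hBM s (hT2 hs)) (by
                intro x hx x' hx'
                have h1 := (hB t (hT2 ht) x hx).2
                have h2 := (hB t (hT2 ht) x' hx').2
                have ht0 := hT'0 t (hT2 ht)
                have h3 := box_mul h1 (inv_mem_box h2 (div_ne_zero (hB t (hT2 ht) x' hx').1 ht0))
                rwa [inv_div, div_mul_div_cancel₀ ht0] at h3)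
            have h4 : ((2 * (((B t ×ˢ B s) ×ˢ (B t ×ˢ B s)).filter
                fun q => q.1.1 / q.1.2 = q.2.1 / q.2.2).card : ℕ) : ℝ) ≤
                ((τ * M ^ 2 : ℕ) : ℝ) := by
              push_cast
              calc 2 * ((((B t ×ˢ B s) ×ˢ (B t ×ˢ B s)).filter
                    fun q => q.1.1 / q.1.2 = q.2.1 / q.2.2).card : ℝ)
                  ≤ 2 * (K1 * (((H' * H' : ℕ) : ℝ) * M) ^ ε1 * (M : ℝ) ^ 2) := by gcongr
                _ ≤ 2 * ((K1 * (Ch ^ 2) ^ ε1 * κ) * (M : ℝ) ^ 2) := by gcongr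
                _ = (2 * K1 * (Ch ^ 2) ^ ε1 * κ) * (M : ℝ) ^ 2 := by ring
                _ ≤ τ * (M : ℝ) ^ 2 := by gcongr
            exact_mod_cast h4)
          (fun t ht s hs hts => hsep t (hT2 ht) s (hT2 hs) hts)
          (fun t ht => hB t (hT2 ht)) (fun t ht => hBM t (hT2 ht)) hT2n hgood A
          (fun t ht => hBA t (hT2 ht))
        set S : ℝ := ((A + A).card : ℝ) with hS
        have hsumr : k ^ 2 * (M : ℝ) ^ 4 ≤
            16 * (S * ((ρ : ℝ) ^ 2 * (M : ℝ) ^ 2 + τ * ((ω * T'.card : ℕ) : ℝ))) := by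
          rw [hk, hS]
          exact_mod_cast hsum
        have hmain : k ^ 2 * (M : ℝ) ^ 4 ≤ C3 * κ ^ 2 * S *
            ((M : ℝ) ^ 2 + d ^ 2 + T'.card) := by
          calc k ^ 2 * (M : ℝ) ^ 4 ≤
              16 * (S * ((ρ : ℝ) ^ 2 * (M : ℝ) ^ 2 + τ * ((ω * T'.card : ℕ) : ℝ))) := hsumr
            _ ≤ 16 * (S * ((10 * κ) ^ 2 * (M : ℝ) ^ 2 +
                  (C2 * κ) * (109 * κ * (d ^ 2 + T'.card)))) := by gcongr
            _ = 16 * κ ^ 2 * S * (100 * (M : ℝ) ^ 2 + 109 * C2 * (d ^ 2 + T'.card)) := by ring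
            _ ≤ 16 * κ ^ 2 * S * ((100 + 109 * C2) * (M : ℝ) ^ 2 +
                  (100 + 109 * C2) * (d ^ 2 + T'.card)) := by
                gcongr
                · linarith
                · linarith
            _ = _ := by rw [hC3]; ring
        have hkn : (T'.card : ℝ) ≤ K0 * k := by rw [hk]; exact_mod_cast hT2c
        have hkT : (T'.card : ℝ) ≤ T.card := by exact_mod_cast Finset.card_le_card hT'T0
        have hfin := numS2 hn0 hk0 hM0 hκ1 (by exact_mod_cast hT'pos : (0 : ℝ) < T'.card) hd0 hCL1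
          hK0r (by positivity : 0 ≤ S) hC30 hsize hkn hmain hkT
        have hκ8 : n ^ (-ε) * κ ^ 14 = 1 := by
          rw [hκ, ← Real.rpow_natCast, ← Real.rpow_mul hn0.le, ← Real.rpow_add hn0, hε0]
          push_cast
          rw [show -ε + ε / 14 * 14 = 0 by ring, Real.rpow_zero]
        have hne0 : 0 < n ^ (-ε) := Real.rpow_pos_of_pos hn0 _
        calc min cS (min cF cP) * n ^ (-ε) * min (n ^ 2) (min (n * (n / T.card) ^ 3)
              (n ^ 2 * (n / T.card) ^ 4 / (d * M) ^ 2))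
            ≤ cS * n ^ (-ε) * min (n ^ 2) (min (n * (n / T.card) ^ 3)
              (n ^ 2 * (n / T.card) ^ 4 / (d * M) ^ 2)) := by
              gcongr
              exact min_le_left _ _
          _ = n ^ (-ε) * (cS * min (n ^ 2) (min (n * (n / T.card) ^ 3)
              (n ^ 2 * (n / T.card) ^ 4 / (d * M) ^ 2))) := by ring
          _ ≤ n ^ (-ε) * (κ ^ 14 * S) := by gcongr
          _ = S := by rw [← mul_assoc, hκ8, one_mul]
      · exfalso
        obtain ⟨q, X, hX, hXc, hq⟩ := hcase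
        have h2 := hmax q X le_rfl hX (8 * hc ^ (3 * i + 6)) (by
          rw [hG]
          exact Nat.mul_le_mul_left _ (Nat.pow_le_pow_left hhch _)) hq
        rcases hXc with h1 | h1
        · have h3 : T'.card ≤ K' * TD.card := by
            calc T'.card ≤ 16 * K0 * X.card := h1
              _ ≤ 16 * K0 * TD.card := Nat.mul_le_mul_left _ h2
              _ ≤ K' * TD.card := by
                  refine Nat.mul_le_mul_right _ ?_
                  rw [hK']
                  exact Nat.le_mul_of_pos_right _ (by positivity)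
          omega
        · have h3 : X.card ^ 2 ≤ TD.card ^ 2 := Nat.pow_le_pow_left h2 2
          omega
  · -- products
    intro m0 hm0 C hC hC0
    set Bs := TD.biUnion B with hBs
    have hdisj : ∀ t ∈ TD, ∀ s ∈ TD, t ≠ s → Disjoint (B t) (B s) := by
      intro t ht s hs hts
      refine Finset.disjoint_left.2 fun x hx hx' => ?_
      obtain ⟨hx0, h1⟩ := hB t (hTDs ht) x hx
      obtain ⟨-, h2⟩ := hB s (hTDs hs) x hx'
      have ht0 := hT'0 t (hTDs ht)
      have hs0 := hT'0 s (hTDs hs)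
      refine hsep t (hTDs ht) s (hTDs hs) hts ?_
      have h3 := box_mul h2 (inv_mem_box h1 (div_ne_zero hx0 ht0))
      have h4 : x / s * (x / t)⁻¹ = t / s := by field_simp
      rw [h4] at h3
      refine box_mono ?_ h3
      calc H' * H' = 1 * (H' * H') := (one_mul _).symm
        _ ≤ 16 * H' ^ 16 := by
            refine Nat.mul_le_mul (by norm_num) ?_
            rw [← sq]
            exact Nat.pow_le_pow_right hH'1 (by norm_num)
        _ = 4 * H' ^ 8 * (4 * H' ^ 8) := by ring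
    have hBsc : Bs.card = TD.card * M := by
      rw [hBs, Finset.card_biUnion hdisj, Finset.sum_congr rfl fun t ht => hBM t (hTDs ht),
        Finset.sum_const, smul_eq_mul]
    have hBsA : Bs ⊆ A := by
      intro x hx
      obtain ⟨t, ht, hx⟩ := Finset.mem_biUnion.1 hx
      exact hBA t (hTDs ht) hx
    set g : ℕ := H' * G with hg
    have hg1 : 1 ≤ g := Nat.mul_pos hH'1 hG1
    set Bm := Bs.image fun x => x + m0 with hBm
    have hBmc : Bm.card = Bs.card :=
      Finset.card_image_of_injective _ fun x y hxy => add_right_cancel hxy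
    have hBsp : ∀ x ∈ Bm, Sp g (Fin.snoc p m0 : Fin (2 * i + 2 + 1) → ℚ) x ∧ x ≠ 0 := by
      intro x hx
      obtain ⟨x, hx2, rfl⟩ := Finset.mem_image.1 hx
      refine ⟨?_, hm0 x (hBsA hx2)⟩
      obtain ⟨t, ht, hx3⟩ := Finset.mem_biUnion.1 hx2
      obtain ⟨hx0, h1⟩ := hB t (hTDs ht) x hx3
      obtain ⟨c, hc, h2⟩ := hp t ht
      refine ⟨Fin.snoc (fun j => (x / t) * c j) 1, ?_, ?_⟩
      · intro j
        refine Fin.lastCases ?_ (fun j => ?_) j
        · rw [Fin.snoc_last]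
          exact mem_box (by simpa using (by exact_mod_cast hg1 : (1 : ℝ) ≤ ((g : ℕ) : ℝ)))
            (by simpa using (by exact_mod_cast hg1 : (1 : ℝ) ≤ ((g : ℕ) : ℝ)))
        · rw [Fin.snoc_castSucc]
          exact box_mul h1 (hc j)
      · rw [Fin.sum_univ_castSucc]
        simp only [Fin.snoc_castSucc, Fin.snoc_last, one_mul]
        congr 1
        have ht0 := hT'0 t (hTDs ht)
        calc x = (x / t) * t := (div_mul_cancel₀ _ ht0).symm
          _ = (x / t) * ∑ j, c j * p j := congrArg (fun z => (x / t) * z) h2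
          _ = _ := by
              rw [Finset.mul_sum]
              refine Finset.sum_congr rfl fun j _ => ?_
              ring
    have hprod := harb g hg1 (Fin.snoc p m0) Bm C hBsp hC0
    rw [hBmc] at hprod
    have hc1' : (1 : ℝ) ≤ C.card := by exact_mod_cast hC.card_pos
    have hgr : (g : ℝ) ≤ Cg * n ^ eg := by
      rw [hg, hG, hh]
      push_cast
      calc (H' : ℝ) * (8 * (4 * (H' : ℝ) ^ 8) ^ (3 * i + 6))
          = 8 * 4 ^ (3 * i + 6) * (H' : ℝ) ^ (24 * i + 49) := by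
            rw [mul_pow, ← pow_mul]
            have : (H' : ℝ) ^ (24 * i + 49) = (H' : ℝ) ^ (8 * (3 * i + 6)) * H' := by
              rw [← pow_succ]
              congr 1
              ring
            rw [this]
            ring
        _ ≤ 8 * 4 ^ (3 * i + 6) * (Ch * n ^ eh) ^ (24 * i + 49) := by gcongr
        _ = Cg * n ^ eg := by
            rw [hCg, heg, mul_pow, ← pow_mul]
            ring
    have hBsn : (Bs.card : ℝ) ≤ n := by
      rw [hn]
      exact_mod_cast Finset.card_le_card hBsA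
    set X : ℝ := n * C.card with hX
    have hX1 : 1 ≤ X := by rw [hX]; nlinarith
    have hnX : n ≤ X := by rw [hX]; nlinarith
    have hX0 : 0 < X := by linarith
    have hpow : ((g : ℝ) * Bs.card * C.card) ^ ε2 ≤ Cg ^ ε2 * X ^ ε0 := by
      have h1 : (g : ℝ) * Bs.card * C.card ≤ Cg * X ^ (eg + 1) := by
        calc (g : ℝ) * Bs.card * C.card ≤ (Cg * n ^ eg) * n * C.card := by gcongr
          _ = Cg * (n ^ eg * X) := by rw [hX]; ring
          _ ≤ Cg * (X ^ eg * X) := by gcongr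
          _ = Cg * X ^ (eg + 1) := by rw [pow_succ]
      calc ((g : ℝ) * Bs.card * C.card) ^ ε2 ≤ (Cg * X ^ (eg + 1)) ^ ε2 :=
            Real.rpow_le_rpow (by positivity) h1 hε20.le
        _ = Cg ^ ε2 * (X ^ (eg + 1)) ^ ε2 := Real.mul_rpow (by positivity) (by positivity)
        _ = Cg ^ ε2 * X ^ ε0 := by
            congr 1
            rw [← Real.rpow_natCast, ← Real.rpow_mul (by positivity)]
            congr 1
            rw [hε2]
            push_cast
            field_simp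
    have hmono : ((Bm * C).card : ℝ) ≤ ((A.image fun x => x + m0) * C).card := by
      exact_mod_cast Finset.card_le_card
        (Finset.mul_subset_mul_right (Finset.image_subset_image hBsA))
    have hBr : (Bs.card : ℝ) = d * M := by rw [hBsc, hd]; push_cast; rfl
    have hkey : (d * M) * C.card ≤ K2 * Cg ^ ε2 * X ^ ε0 *
        ((A.image fun x => x + m0) * C).card := by
      calc (d * M) * C.card = Bs.card * C.card := by rw [hBr]
        _ ≤ K2 * ((g : ℝ) * Bs.card * C.card) ^ ε2 * (Bm * C).card := hprod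
        _ ≤ K2 * (Cg ^ ε2 * X ^ ε0) * ((A.image fun x => x + m0) * C).card := by gcongr
        _ = _ := by ring
    have hXe : X ^ (-ε) * X ^ ε0 ≤ 1 := by
      rw [← Real.rpow_add hX0]
      refine Real.rpow_le_one_of_one_le_of_nonpos hX1 ?_
      rw [hε0]; linarith
    calc min cS (min cF cP) * (d * M) * C.card * X ^ (-ε)
        ≤ cP * (d * M) * C.card * X ^ (-ε) := by
          gcongr
          exact (min_le_right _ _).trans (min_le_right _ _)
      _ = cP * ((d * M) * C.card) * X ^ (-ε) := by ring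
      _ ≤ cP * (K2 * Cg ^ ε2 * X ^ ε0 * ((A.image fun x => x + m0) * C).card) * X ^ (-ε) := by
          gcongr
      _ = (X ^ (-ε) * X ^ ε0) * ((A.image fun x => x + m0) * C).card := by
          rw [hcP]
          field_simp
      _ ≤ 1 * ((A.image fun x => x + m0) * C).card := by gcongr
      _ = _ := one_mul _

end Pool.Agent.Zk30.DL
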