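import Mathlib
import Pool.Agent.Zk30.DL.Main2

/-!
# Sets covered by few progressions with a common point: the forms with products by arbitrary sets
and for the set itself
-/

set_option autoImplicit false

namespace Pool.Agent.Zk30.DL

open Pool.Agent.TH551.SU Pool.Agent.TH539.MQ Pool.Agent.Zk30.FU
open scoped Pointwise

/-- **The covering form.** -/
lemma cover3 (D : ℕ) (ε : ℝ) (hε : 0 < ε) :
    ∃ c : ℝ, 0 < c ∧ c ≤ 1 ∧ ∀ (A T : Finset ℚ) (m : ℚ) (H : ℕ), A.Nonempty → (∀ a ∈ A, a ≠ 0) →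
      m ∉ A → 1 ≤ H → H ≤ (2 * A.card) ^ D →
      (∀ a ∈ A, ∃ t ∈ T, ∃ x, x ∈ box H ∧ a = m + x * t) →
      c * (A.card : ℝ) ^ (-ε) * min ((A.card : ℝ) ^ 2) (A.card * ((A.card : ℝ) / T.card) ^ 3)
        ≤ (A + A).card ∨
      ∀ C : Finset ℚ, C.Nonempty → (∀ y ∈ C, y ≠ 0) →
        c * ((A.card : ℝ) * C.card) ^ (2 - ε) *
          min 1 (((A.card : ℝ) / T.card) ^ 4 / (A + A).card) ≤ ((A * C).card : ℝ) ^ 2 := by
  classical
  obtain ⟨c0, hc0, h⟩ := main2 D (ε / 4) (by positivity)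
  set c : ℝ := min c0 1 with hc
  have hcpos : 0 < c := lt_min hc0 one_pos
  have hc1 : c ≤ 1 := min_le_right _ _
  have hcc : c ≤ c0 := min_le_left _ _
  refine ⟨c ^ 4, by positivity, pow_le_one₀ hcpos.le hc1, fun A T m H hA h0 hm hH hHA hcov => ?_⟩
  set A0 := A.image fun a => a - m with hA0
  have hinj : Function.Injective fun a : ℚ => a - m := fun a b hab => sub_left_injective hab
  have hA0c : A0.card = A.card := Finset.card_image_of_injective _ hinj
  have hA0n : A0.Nonempty := hA.image _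
  have hA00 : ∀ x ∈ A0, x ≠ 0 := by
    intro x hx
    obtain ⟨a, ha, rfl⟩ := Finset.mem_image.1 hx
    intro h1
    exact hm (by rw [← sub_eq_zero.1 h1]; exact ha)
  have hback : (A0.image fun x => x + m) = A := by
    rw [hA0, Finset.image_image]
    have : ((fun x : ℚ => x + m) ∘ fun a => a - m) = id := by
      funext a
      simp
    rw [this, Finset.image_id]
  have hcov' : ∀ x ∈ A0, ∃ t ∈ T.erase 0, x / t ∈ box H := by
    intro x hx
    obtain ⟨a, ha, rfl⟩ := Finset.mem_image.1 hx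
    obtain ⟨t, ht, x, hx, e⟩ := hcov a ha
    have ht0 : t ≠ 0 := by
      rintro rfl
      rw [mul_zero, add_zero] at e
      exact hm (by rw [← e]; exact ha)
    refine ⟨t, Finset.mem_erase.2 ⟨ht0, ht⟩, ?_⟩
    have e2 : a - m = x * t := by rw [e]; ring
    rw [e2, mul_div_assoc, div_self ht0, mul_one]
    exact hx
  have hT'c : 0 < (T.erase 0).card := by
    obtain ⟨a, ha⟩ := hA0n
    obtain ⟨t, ht, _⟩ := hcov' a ha
    exact Finset.card_pos.2 ⟨t, ht⟩
  have hT'r : (0 : ℝ) < (T.erase 0).card := by exact_mod_cast hT'c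
  have hT'T : ((T.erase 0).card : ℝ) ≤ T.card := by
    exact_mod_cast Finset.card_le_card (Finset.erase_subset _ _)
  obtain ⟨μ, hμ1, hsum, hprod⟩ := h A0 hA0n hA00 H hH (by rw [hA0c]; exact hHA) (T.erase 0)
    (fun t ht => (Finset.mem_erase.1 ht).1) hcov'
  have hsub : ((A0 + A0).card : ℝ) ≤ (A + A).card := by
    have h1 : A0 + A0 ⊆ (A + A).image fun x => x - 2 * m := by
      intro x hx
      obtain ⟨y, hy, z, hz, rfl⟩ := Finset.mem_add.1 hx
      obtain ⟨a, ha, rfl⟩ := Finset.mem_image.1 hy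
      obtain ⟨b, hb, rfl⟩ := Finset.mem_image.1 hz
      exact Finset.mem_image.2 ⟨a + b, Finset.add_mem_add ha hb, by ring⟩
    exact_mod_cast (Finset.card_le_card h1).trans Finset.card_image_le
  rw [hA0c] at hsum
  have hprod' : ∀ C : Finset ℚ, C.Nonempty → (∀ y ∈ C, y ≠ 0) →
      c * μ * C.card * ((A.card : ℝ) * C.card) ^ (-(ε / 4)) ≤ ((A * C).card : ℝ) := by
    intro C hC hC0
    have h1 := hprod m (by
      intro x hx
      obtain ⟨a, ha, rfl⟩ := Finset.mem_image.1 hx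
      simpa using h0 a ha) C hC hC0
    rw [hback, hA0c] at h1
    refine le_trans ?_ h1
    gcongr
  set n : ℝ := (A.card : ℝ) with hn
  have hn1 : 1 ≤ n := by rw [hn]; exact_mod_cast hA.card_pos
  have hn0 : 0 < n := by linarith
  set S : ℝ := ((A + A).card : ℝ) with hS
  have hS0 : 0 < S := by rw [hS]; exact_mod_cast (hA.add hA).card_pos
  set K : ℝ := (T.card : ℝ) with hK
  have hK0 : 0 < K := by linarith
  set K' : ℝ := ((T.erase 0).card : ℝ) with hK'
  have hnε : n ^ (-ε) ≤ n ^ (-(ε / 4)) := Real.rpow_le_rpow_of_exponent_le hn1 (by linarith)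
  by_cases hcase : c * n ^ (-(ε / 4)) * min (n ^ 2) (n * (n / K') ^ 3) ≤ S
  · left
    calc c ^ 4 * n ^ (-ε) * min (n ^ 2) (n * (n / K) ^ 3)
        ≤ c * n ^ (-(ε / 4)) * min (n ^ 2) (n * (n / K') ^ 3) := by
          have h1 : c ^ 4 ≤ c := pow_le_of_le_one hcpos.le hc1 (by norm_num)
          gcongr
      _ ≤ S := hcase
  · right
    intro C hC hC0
    have hP := hprod' C hC hC0
    have hc1' : (1 : ℝ) ≤ C.card := by exact_mod_cast hC.card_pos
    set k : ℝ := (C.card : ℝ) with hk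
    set X : ℝ := n * k with hX
    have hX1 : 1 ≤ X := by rw [hX]; nlinarith
    have hnX : n ≤ X := by rw [hX]; nlinarith
    have hX0 : 0 < X := by linarith
    set P : ℝ := ((A * C).card : ℝ) with hPdef
    have hP0 : 0 ≤ P := by rw [hPdef]; positivity
    have hnXe : X ^ (-(ε / 4)) ≤ n ^ (-(ε / 4)) :=
      Real.rpow_le_rpow_of_nonpos hn0 hnX (by linarith)
    have hXe0 : 0 < X ^ (-(ε / 4)) := Real.rpow_pos_of_pos hX0 _
    have hμ0 : 0 < μ := by linarith
    have hPsq : (c * μ * k * X ^ (-(ε / 4))) ^ 2 ≤ P ^ 2 := pow_le_pow_left₀ (by positivity) hP 2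
    rcases hsum with h1 | h1
    · -- full products
      have h2 : c * (n * X ^ (-(ε / 4))) ≤ μ := by
        refine le_trans ?_ h1
        rw [sub_eq_add_neg, Real.rpow_add hn0, Real.rpow_one]
        gcongr
      have h3 : c ^ 4 * X ^ (2 - ε) ≤ P ^ 2 := by
        refine le_trans ?_ hPsq
        have h4 : c ^ 2 * (X * (X ^ (-(ε / 4))) ^ 2) ≤ c * μ * k * X ^ (-(ε / 4)) := by
          calc c ^ 2 * (X * (X ^ (-(ε / 4))) ^ 2)
              = c * (c * (n * X ^ (-(ε / 4)))) * k * X ^ (-(ε / 4)) := by rw [hX]; ring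
            _ ≤ c * μ * k * X ^ (-(ε / 4)) := by gcongr
        calc c ^ 4 * X ^ (2 - ε) = (c ^ 2 * (X * (X ^ (-(ε / 4))) ^ 2)) ^ 2 := by
              have h5 : X ^ (2 - ε) = X ^ 2 * (X ^ (-(ε / 4))) ^ 4 := by
                rw [← Real.rpow_natCast, ← Real.rpow_natCast, ← Real.rpow_mul hX0.le,
                  ← Real.rpow_add hX0]
                congr 1
                push_cast
                ring
              rw [h5]
              ring
          _ ≤ _ := pow_le_pow_left₀ (by positivity) h4 2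
      refine le_trans ?_ h3
      have h5 : 0 ≤ c ^ 4 * X ^ (2 - ε) := by positivity
      calc c ^ 4 * X ^ (2 - ε) * min 1 ((n / K) ^ 4 / S) ≤ c ^ 4 * X ^ (2 - ε) * 1 := by
            gcongr
            exact min_le_left _ _
        _ = _ := mul_one _
    · -- the intermediate case
      have hneg : 0 ≤ n ^ (-(ε / 4)) := by positivity
      have h2 : c * n ^ (-(ε / 4)) * (n ^ 2 * (n / K') ^ 4 / μ ^ 2) ≤ S := by
        have h3 : c * n ^ (-(ε / 4)) * min (n ^ 2) (min (n * (n / K') ^ 3)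
            (n ^ 2 * (n / K') ^ 4 / μ ^ 2)) ≤ S := by
          refine le_trans ?_ (h1.trans hsub)
          have : 0 ≤ min (n ^ 2) (min (n * (n / K') ^ 3) (n ^ 2 * (n / K') ^ 4 / μ ^ 2)) :=
            le_min (by positivity) (le_min (by positivity) (by positivity))
          gcongr
        rw [← min_assoc] at h3
        rcases le_total (min (n ^ 2) (n * (n / K') ^ 3)) (n ^ 2 * (n / K') ^ 4 / μ ^ 2) with h4 | h4
        · rw [min_eq_left h4] at h3
          exact absurd h3 hcase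
        · rwa [min_eq_right h4] at h3
      have h3 : c * n ^ (-(ε / 4)) * (n ^ 2 * (n / K') ^ 4) ≤ S * μ ^ 2 := by
        have h4 : c * n ^ (-(ε / 4)) * (n ^ 2 * (n / K') ^ 4 / μ ^ 2) =
            c * n ^ (-(ε / 4)) * (n ^ 2 * (n / K') ^ 4) / μ ^ 2 := by ring
        rw [h4, div_le_iff₀ (by positivity)] at h2
        exact h2
      have h5 : c * X ^ (-(ε / 4)) * (n ^ 2 * ((n / K) ^ 4 / S)) ≤ μ ^ 2 := by
        have h6 : c * X ^ (-(ε / 4)) * (n ^ 2 * ((n / K) ^ 4 / S)) =
            c * X ^ (-(ε / 4)) * (n ^ 2 * (n / K) ^ 4) / S := by ring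
        rw [h6, div_le_iff₀ hS0, mul_comm (μ ^ 2)]
        refine le_trans ?_ h3
        gcongr
      calc c ^ 4 * X ^ (2 - ε) * min 1 ((n / K) ^ 4 / S)
          ≤ c ^ 3 * X ^ (2 - ε) * ((n / K) ^ 4 / S) := by
            have h6 : c ^ 4 ≤ c ^ 3 := pow_le_pow_of_le_one hcpos.le hc1 (by norm_num)
            gcongr
            exact min_le_right _ _
        _ ≤ c ^ 3 * X ^ (2 - 3 * (ε / 4)) * ((n / K) ^ 4 / S) := by
            gcongr
            linarith
        _ = c ^ 2 * (c * X ^ (-(ε / 4)) * (n ^ 2 * ((n / K) ^ 4 / S))) * k ^ 2 *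
              (X ^ (-(ε / 4))) ^ 2 := by
            have h7 : X ^ (2 - 3 * (ε / 4)) = X ^ 2 * (X ^ (-(ε / 4)) * (X ^ (-(ε / 4))) ^ 2) := by
              rw [← Real.rpow_natCast, ← Real.rpow_natCast, ← Real.rpow_mul hX0.le,
                ← Real.rpow_add hX0, ← Real.rpow_add hX0]
              congr 1
              push_cast
              ring
            rw [h7]
            have h8 : X ^ 2 = n ^ 2 * k ^ 2 := by rw [hX]; ring
            rw [h8]
            ring
        _ ≤ c ^ 2 * μ ^ 2 * k ^ 2 * (X ^ (-(ε / 4))) ^ 2 := by gcongr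
        _ = (c * μ * k * X ^ (-(ε / 4))) ^ 2 := by ring
        _ ≤ P ^ 2 := hPsq

/-- the consequence for `A * A` -/
lemma cover4 (D : ℕ) (ε : ℝ) (hε : 0 < ε) :
    ∃ c : ℝ, 0 < c ∧ c ≤ 1 ∧ ∀ (A T : Finset ℚ) (m : ℚ) (H : ℕ), A.Nonempty → (∀ a ∈ A, a ≠ 0) →
      m ∉ A → 1 ≤ H → H ≤ (2 * A.card) ^ D →
      (∀ a ∈ A, ∃ t ∈ T, ∃ x, x ∈ box H ∧ a = m + x * t) →
      c * (A.card : ℝ) ^ (-ε) * min ((A.card : ℝ) ^ 2)
        (min (A.card * ((A.card : ℝ) / T.card) ^ 3)
          ((A.card * ((A.card : ℝ) / T.card)) ^ (4 / 3 : ℝ)))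
        ≤ max ((A + A).card : ℝ) ((A * A).card : ℝ) := by
  classical
  obtain ⟨c, hc, hc1, h⟩ := cover3 D (ε / 2) (by positivity)
  refine ⟨c, hc, hc1, fun A T m H hA h0 hm hH hHA hcov => ?_⟩
  have key := h A T m H hA h0 hm hH hHA hcov
  have hTn : T.Nonempty := by
    obtain ⟨a, ha⟩ := hA
    obtain ⟨t, ht, _⟩ := hcov a ha
    exact ⟨t, ht⟩
  have hK0 : (0 : ℝ) < T.card := by exact_mod_cast hTn.card_pos
  set n : ℝ := (A.card : ℝ) with hn
  have hn1 : 1 ≤ n := by rw [hn]; exact_mod_cast hA.card_pos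
  have hn0 : 0 < n := by linarith
  set S : ℝ := ((A + A).card : ℝ) with hS
  have hS0 : 0 < S := by rw [hS]; exact_mod_cast (hA.add hA).card_pos
  set P : ℝ := ((A * A).card : ℝ) with hP
  have hP0 : 0 ≤ P := by rw [hP]; positivity
  set M : ℝ := n / T.card with hM
  have hM0 : 0 < M := by positivity
  set Q : ℝ := max S P with hQ
  have hSQ : S ≤ Q := le_max_left _ _
  have hPQ : P ≤ Q := le_max_right _ _
  have hQ0 : 0 < Q := hS0.trans_le hSQ
  rcases key with h1 | h1
  · refine le_trans ?_ (h1.trans hSQ)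
    have h2 : n ^ (-ε) ≤ n ^ (-(ε / 2)) := Real.rpow_le_rpow_of_exponent_le hn1 (by linarith)
    rw [← min_assoc]
    have h3 : 0 ≤ min (min (n ^ 2) (n * M ^ 3)) ((n * M) ^ (4 / 3 : ℝ)) :=
      le_min (le_min (by positivity) (by positivity)) (by positivity)
    exact mul_le_mul (mul_le_mul_of_nonneg_left h2 hc.le) (min_le_left _ _) h3 (by positivity)
  · have h2 := h1 A hA h0
    rw [← hn, ← hP] at h2
    have hnn : (n * n) ^ (2 - ε / 2) = n ^ (4 - ε) := by
      rw [← sq, ← Real.rpow_natCast, ← Real.rpow_mul hn0.le]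
      congr 1
      push_cast
      ring
    rw [hnn] at h2
    rcases le_total 1 (M ^ 4 / S) with h3 | h3
    · rw [min_eq_left h3, mul_one] at h2
      -- `P ^ 2 ≥ c n ^ (4 - ε)`
      have h4 : (c * n ^ (-ε) * n ^ 2) ^ 2 ≤ Q ^ 2 := by
        calc (c * n ^ (-ε) * n ^ 2) ^ 2 = (c * c) * ((n ^ (-ε)) ^ 2 * n ^ 4) := by ring
          _ ≤ (1 * c) * n ^ (4 - ε) := by
              have h5 : (n ^ (-ε)) ^ 2 * n ^ 4 ≤ n ^ (4 - ε) := by
                rw [← Real.rpow_natCast, ← Real.rpow_natCast, ← Real.rpow_mul hn0.le,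
                  ← Real.rpow_add hn0]
                refine Real.rpow_le_rpow_of_exponent_le hn1 ?_
                push_cast
                linarith
              gcongr
          _ = c * n ^ (4 - ε) := by rw [one_mul]
          _ ≤ P ^ 2 := h2
          _ ≤ Q ^ 2 := by gcongr
      have h5 := le_of_sq_le_sq h4 hQ0.le
      refine le_trans ?_ h5
      gcongr
      exact min_le_left _ _
    · rw [min_eq_right h3] at h2
      have h4 : (c * n ^ (-ε) * (n * M) ^ (4 / 3 : ℝ)) ^ 3 ≤ Q ^ 3 := by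
        have e1 : ((n * M) ^ (4 / 3 : ℝ)) ^ 3 = (n * M) ^ 4 := by
          rw [← Real.rpow_natCast, ← Real.rpow_mul (by positivity), ← Real.rpow_natCast]
          congr 1
          norm_num
        have e2 : (n ^ (-ε)) ^ 3 * n ^ 4 ≤ n ^ (4 - ε) := by
          rw [← Real.rpow_natCast, ← Real.rpow_natCast, ← Real.rpow_mul hn0.le,
            ← Real.rpow_add hn0]
          refine Real.rpow_le_rpow_of_exponent_le hn1 ?_
          push_cast
          linarith
        have e3 : c ^ 3 ≤ c := pow_le_of_le_one hc.le hc1 (by norm_num)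
        have e4 : c * n ^ (4 - ε) * M ^ 4 ≤ S * P ^ 2 := by
          have e5 : c * n ^ (4 - ε) * (M ^ 4 / S) = c * n ^ (4 - ε) * M ^ 4 / S := by ring
          rw [e5, div_le_iff₀ hS0] at h2
          linarith
        calc (c * n ^ (-ε) * (n * M) ^ (4 / 3 : ℝ)) ^ 3
            = c ^ 3 * ((n ^ (-ε)) ^ 3 * n ^ 4) * M ^ 4 := by
              rw [mul_pow, e1]
              ring
          _ ≤ c * n ^ (4 - ε) * M ^ 4 := by gcongr
          _ ≤ S * P ^ 2 := e4
          _ ≤ Q * Q ^ 2 := by gcongr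
          _ = Q ^ 3 := by ring
      have h5 := le_of_pow_le_pow_left₀ (by norm_num) hQ0.le h4
      refine le_trans ?_ h5
      gcongr
      exact (min_le_right _ _).trans (min_le_right _ _)

end Pool.Agent.Zk30.DL
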